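import Pool.Agent.Lib.MP_2847c2_co.GB.Gadget

/-!
# The form of the gadget is antisymmetric
-/

namespace Pool.Agent.Lib.MP_2847c2_co.GB

theorem phi_anti (A B : Fin 9 → Fin 4 → ℝ) (hA : ∀ i, net A i = 0) (hB : ∀ i, net B i = 0) :
    Phi A B + Phi B A = 0 := by
  have a0 := hA 0
  have a1 := hA 1
  have a2 := hA 2
  have a3 := hA 3
  have a4 := hA 4
  have b0 := hB 0
  have b1 := hB 1
  have b2 := hB 2
  have b3 := hB 3
  have b4 := hB 4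
  simp only [net, Matrix.cons_val_zero, Matrix.cons_val_one, Matrix.cons_val] at a0 a1 a2 a3 a4 b0 b1 b2 b3 b4
  simp only [Phi]
  linear_combination
    (2 * B 0 1 - 2 * B 1 0 + 2 * B 1 1 - 2 * B 4 0 + 2 * B 4 1 - 2 * B 5 0) * a0 +
    (2 * B 0 2 - 2 * B 0 3 + 2 * B 1 1 - 2 * B 5 0 - 2 * B 5 2 + 2 * B 5 3) * a1 +
    (2 * B 0 2 + 2 * B 1 2 - 2 * B 1 3 - 2 * B 5 1) * a2 +
    (2 * B 0 2 - 2 * B 0 3 - 2 * B 1 0 + 2 * B 1 1 + 2 * B 4 2 - 2 * B 5 0) * a3 +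
    (2 * B 1 1 - 2 * B 4 0 + 2 * B 4 1 - 2 * B 5 0) * a4 +
    (2 * A 0 1 - 2 * A 1 0 + 2 * A 1 1 - 2 * A 4 0 + 2 * A 4 1 - 2 * A 5 0) * b0 +
    (2 * A 0 2 - 2 * A 0 3 + 2 * A 1 1 - 2 * A 5 0 - 2 * A 5 2 + 2 * A 5 3) * b1 +
    (2 * A 0 2 + 2 * A 1 2 - 2 * A 1 3 - 2 * A 5 1) * b2 +
    (2 * A 0 2 - 2 * A 0 3 - 2 * A 1 0 + 2 * A 1 1 + 2 * A 4 2 - 2 * A 5 0) * b3 +
    (2 * A 1 1 - 2 * A 4 0 + 2 * A 4 1 - 2 * A 5 0) * b4

theorem phi_self (A : Fin 9 → Fin 4 → ℝ) (hA : ∀ i, net A i = 0) : Phi A A = 0 := by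
  have := phi_anti A A hA hA
  linarith

theorem gpt_lin (a b : ℝ) (v w : Fin 8 → ℝ) (i : Fin 12) :
    gpt 0 (fun i => a * v i + b * w i) i =
      (a * (gpt 0 v i).1 + b * (gpt 0 w i).1, a * (gpt 0 v i).2 + b * (gpt 0 w i).2) := by
  fin_cases i <;> simp [gpt] <;> constructor <;> ring

theorem Lr_lin (u : Fin 8 → ℝ) (a b : ℝ) (v w : Fin 8 → ℝ) (j : Fin 9) (r : Fin 4) :
    Lr u (fun i => a * v i + b * w i) j r = a * Lr u v j r + b * Lr u w j r := by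
  unfold Lr
  rw [gpt_lin, gpt_lin, gpt_lin, ← mul_div_assoc, ← mul_div_assoc, ← add_div]
  congr 1
  unfold dsg
  simp only
  ring

theorem net_lin (a b : ℝ) (A B : Fin 9 → Fin 4 → ℝ) (i : Fin 6) :
    net (fun j r => a * A j r + b * B j r) i = a * net A i + b * net B i := by
  fin_cases i <;> simp [net] <;> ring

theorem Phi_lin (a b : ℝ) (A B C : Fin 9 → Fin 4 → ℝ) :
    Phi (fun j r => a * A j r + b * B j r) C = a * Phi A C + b * Phi B C := by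
  simp only [Phi]
  ring

theorem Lr_lin' (u : Fin 8 → ℝ) (a b : ℝ) (v w : Fin 8 → ℝ) :
    Lr u (fun i => a * v i + b * w i) = fun j r => a * Lr u v j r + b * Lr u w j r := by
  funext j r
  exact Lr_lin u a b v w j r

end Pool.Agent.Lib.MP_2847c2_co.GB
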