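import Pool.Agent.Lib.MP_2847c2_co.GB.BoxDefs

/-!
# The gadget: a square refined by two nested quadrilaterals
-/

namespace Pool.Agent.Lib.MP_2847c2_co.GB

/-- Its derivative for velocities `p', q', r'`. -/
def dsg (p q r p' q' r' : ℝ × ℝ) : ℝ :=
  (q'.1 - p'.1) * (r.2 - p.2) + (q.1 - p.1) * (r'.2 - p'.2) -
    ((q'.2 - p'.2) * (r.1 - p.1) + (q.2 - p.2) * (r'.1 - p'.1))

/-- The logarithmic derivative of `lam` in the direction `v`. -/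
noncomputable def Lr (u v : Fin 8 → ℝ) (j : Fin 9) (r : Fin 4) : ℝ :=
  dsg (gpt 3 u (gidx j (r + 1))) (gpt 3 u (gidx j (r + 2))) (gpt 3 u (gidx j (r + 3)))
    (gpt 0 v (gidx j (r + 1))) (gpt 0 v (gidx j (r + 2))) (gpt 0 v (gidx j (r + 3))) / lam u j r

/-- The net changes along the sides of the strands (half of the periods for the closed ones). -/
def net (A : Fin 9 → Fin 4 → ℝ) : Fin 6 → ℝ :=
  ![A 0 1 - A 0 2 + A 0 3 - A 0 0 + A 4 1 - A 4 2 + A 4 3 - A 4 0,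
    A 1 1 - A 1 2 + A 1 3 - A 1 0 + A 5 1 - A 5 2 + A 5 3 - A 5 0,
    A 0 2 - A 0 3 + A 1 2 - A 1 3,
    A 4 2 - A 4 3 + A 5 2 - A 5 3,
    A 0 0 - A 0 1 + A 1 0 - A 1 1,
    A 4 0 - A 4 1 + A 5 0 - A 5 1]

theorem net_rel (A : Fin 9 → Fin 4 → ℝ) :
    net A 0 + net A 1 + net A 2 + net A 3 + net A 4 + net A 5 = 0 := by
  simp only [net]
  simp
  ring

/-- Central symmetry of the values. -/
def Sym (A : Fin 9 → Fin 4 → ℝ) : Prop :=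
  (∀ r, A 2 r = A 0 r) ∧ (∀ r, A 3 r = A 1 r) ∧ (∀ r, A 6 r = A 4 r) ∧ (∀ r, A 7 r = A 5 r) ∧
    ∀ r, A 8 r = A 8 0

/-- The form of the gadget. -/
def Phi (A B : Fin 9 → Fin 4 → ℝ) : ℝ :=
  2 * ((-(A 0 1 - A 0 2) * B 0 2 + (A 0 1 - A 0 2) * B 4 1
      - (A 0 1 - A 0 2 + A 4 1 - A 4 2) * B 4 2 + (A 0 1 - A 0 2 + A 4 1 - A 4 2) * B 4 3
      - (A 0 1 - A 0 2 + A 4 1 - A 4 2 + A 4 3 - A 4 0) * B 4 0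
      + (A 0 1 - A 0 2 + A 4 1 - A 4 2 + A 4 3 - A 4 0) * B 0 3)
    + (-(A 1 1 - A 1 2) * B 1 2 + (A 1 1 - A 1 2) * B 5 1
      - (A 1 1 - A 1 2 + A 5 1 - A 5 2) * B 5 2 + (A 1 1 - A 1 2 + A 5 1 - A 5 2) * B 5 3
      - (A 1 1 - A 1 2 + A 5 1 - A 5 2 + A 5 3 - A 5 0) * B 5 0
      + (A 1 1 - A 1 2 + A 5 1 - A 5 2 + A 5 3 - A 5 0) * B 1 3)
    + (A 1 2 - A 1 3) * (B 0 2 - B 1 3) + (A 5 2 - A 5 3) * (B 4 2 - B 5 3)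
    + (A 0 0 - A 0 1) * (B 1 0 - B 0 1) + (A 4 0 - A 4 1) * (B 5 0 - B 4 1))

private lemma G1_nine (f : Fin 9 → ℝ) : ∑ j, f j = f 0 + f 1 + f 2 + f 3 + f 4 + f 5 + f 6 + f 7 + f 8 := by
  rw [Fin.sum_univ_castSucc, Fin.sum_univ_eight]
  rfl

private lemma G1_expP (A : Fin 9 → Fin 4 → ℝ) (g : Fin 12 → Fin 12 → ℝ) :
    ∑ j, ∑ r, g (gidx j r) (gidx j (r + 1)) * (A j (r + 1) - A j (r + 2)) =
      (g 0 1 * (A 0 1 - A 0 2) + g 1 5 * (A 0 2 - A 0 3) + g 5 4 * (A 0 3 - A 0 0) + g 4 0 * (A 0 0 - A 0 1)) + (g 1 2 * (A 1 1 - A 1 2) + g 2 6 * (A 1 2 - A 1 3) + g 6 5 * (A 1 3 - A 1 0) + g 5 1 * (A 1 0 - A 1 1)) + (g 2 3 * (A 2 1 - A 2 2) + g 3 7 * (A 2 2 - A 2 3) + g 7 6 * (A 2 3 - A 2 0) + g 6 2 * (A 2 0 - A 2 1)) + (g 3 0 * (A 3 1 - A 3 2) + g 0 4 * (A 3 2 - A 3 3) + g 4 7 * (A 3 3 - A 3 0) + g 7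 3 * (A 3 0 - A 3 1)) + (g 4 5 * (A 4 1 - A 4 2) + g 5 9 * (A 4 2 - A 4 3) + g 9 8 * (A 4 3 - A 4 0) + g 8 4 * (A 4 0 - A 4 1)) + (g 5 6 * (A 5 1 - A 5 2) + g 6 10 * (A 5 2 - A 5 3) + g 10 9 * (A 5 3 - A 5 0) + g 9 5 * (A 5 0 - A 5 1)) + (g 6 7 * (A 6 1 - A 6 2) + g 7 11 * (A 6 2 - A 6 3) + g 11 10 * (A 6 3 - A 6 0) + g 10 6 * (A 6 0 - A 6 1)) + (g 7 4 * (A 7 1 - A 7 2) + g 4 8 * (A 7 2 - A 7 3) + g 8 11 * (A 7 3 - A 7 0) + g 11 7 * (A 7 0 - A 7 1)) + (g 8 9 * (A 8 1 - A 8 2) + g 9 10 * (A 8 2 - A 8 3) + g 10 11 * (A 8 3 - A 8 0) + g 11 8 * (A 8 0 - A 8 1)) := by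
  rw [G1_nine]
  simp only [Fin.sum_univ_four]
  rfl

private lemma G1_expS (B : Fin 9 → Fin 4 → ℝ) (φ : Fin 12 → Fin 12 → ℝ) :
    ∑ j, ∑ r, (φ (gidx j r) (gidx j (r + 1)) * B j (r + 1) -
      φ (gidx j (r + 3)) (gidx j (r + 2)) * B j (r + 2)) =
      ((φ 0 1 * B 0 1 - φ 4 5 * B 0 2) + (φ 1 5 * B 0 2 - φ 0 4 * B 0 3) + (φ 5 4 * B 0 3 - φ 1 0 * B 0 0) + (φ 4 0 * B 0 0 - φ 5 1 * B 0 1)) + ((φ 1 2 * B 1 1 - φ 5 6 * B 1 2) + (φ 2 6 * B 1 2 - φ 1 5 * B 1 3) + (φ 6 5 * B 1 3 - φ 2 1 * B 1 0) + (φ 5 1 * B 1 0 - φ 6 2 * B 1 1)) + ((φ 2 3 * B 2 1 - φ 6 7 * B 2 2) + (φ 3 7 * B 2 2 - φ 2 6 * B 2 3) + (φ 7 6 * B 2 3 - φ 3 2 * B 2 0) + (φ 6 2 * B 2 0 - φ 7 3 * B 2 1)) + ((φ 3 0 * B 3 1 - φ 7 4 * B 3 2) + (φ 0 4 * B 3 2 - φ 3 7 * B 3 3) + (φ 4 7 * B 3 3 - φ 0 3 * B 3 0) + (φ 7 3 * B 3 0 - φ 4 0 * B 3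 1)) + ((φ 4 5 * B 4 1 - φ 8 9 * B 4 2) + (φ 5 9 * B 4 2 - φ 4 8 * B 4 3) + (φ 9 8 * B 4 3 - φ 5 4 * B 4 0) + (φ 8 4 * B 4 0 - φ 9 5 * B 4 1)) + ((φ 5 6 * B 5 1 - φ 9 10 * B 5 2) + (φ 6 10 * B 5 2 - φ 5 9 * B 5 3) + (φ 10 9 * B 5 3 - φ 6 5 * B 5 0) + (φ 9 5 * B 5 0 - φ 10 6 * B 5 1)) + ((φ 6 7 * B 6 1 - φ 10 11 * B 6 2) + (φ 7 11 * B 6 2 - φ 6 10 * B 6 3) + (φ 11 10 * B 6 3 - φ 7 6 * B 6 0) + (φ 10 6 * B 6 0 - φ 11 7 * B 6 1)) + ((φ 7 4 * B 7 1 - φ 11 8 * B 7 2) + (φ 4 8 * B 7 2 - φ 7 11 * B 7 3) + (φ 8 11 * B 7 3 - φ 4 7 * B 7 0) + (φ 11 7 * B 7 0 - φ 8 4 * B 7 1)) + ((φ 8 9 * B 8 1 - φ 11 10 * B 8 2) + (φ 9 10 * B 8 2 - φ 8 11 * B 8 3) + (φ 10 11 * B 8 3 - φ 9 8 * B 8 0) + (φ 11 8 * B 8 0 - φ 10 9 * B 8 1)) := by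
  rw [G1_nine]
  simp only [Fin.sum_univ_four]
  rfl

/-- The periods of a symmetric gadget. ROW G1. `g` is constant on the eight sides of the strands: (j, r) in the orders
(0,0),(4,0),(8,0),(6,2),(2,2); (1,0),(5,0),(8,1),(7,2),(3,2); (2,0),(6,0),(8,2),(4,2),(0,2); (3,0),(7,0),(8,3),(5,2),(1,2) (open ones); (3,1),(2,1),(1,1),(0,1); (0,3),(1,3),(2,3),(3,3);
(7,1),(6,1),(5,1),(4,1); (4,3),(5,3),(6,3),(7,3) (closed ones). Expand the sum (36 terms), replace `g` by its value on the side and use that by `Sym` the net change along each side is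
`net A 0`, `net A 1`, `net A 0`, `net A 1`, `2 net A 2`, `2 net A 4`, `2 net A 3`, `2 net A 5` (`linear_combination`). -/
theorem gadget_period (A : Fin 9 → Fin 4 → ℝ) (hs : Sym A) (hn : ∀ i, net A i = 0)
    (g : Fin 12 → Fin 12 → ℝ)
    (hg : ∀ j r, g (gidx j r) (gidx j (r + 1)) = g (gidx j (r + 3)) (gidx j (r + 2))) :
    ∑ j, ∑ r, g (gidx j r) (gidx j (r + 1)) * (A j (r + 1) - A j (r + 2)) = 0 := by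
  rw [G1_expP]
  have sA20 : A 2 0 = A 0 0 := hs.1 0
  have sA21 : A 2 1 = A 0 1 := hs.1 1
  have sA22 : A 2 2 = A 0 2 := hs.1 2
  have sA23 : A 2 3 = A 0 3 := hs.1 3
  have sA30 : A 3 0 = A 1 0 := hs.2.1 0
  have sA31 : A 3 1 = A 1 1 := hs.2.1 1
  have sA32 : A 3 2 = A 1 2 := hs.2.1 2
  have sA33 : A 3 3 = A 1 3 := hs.2.1 3
  have sA60 : A 6 0 = A 4 0 := hs.2.2.1 0
  have sA61 : A 6 1 = A 4 1 := hs.2.2.1 1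
  have sA62 : A 6 2 = A 4 2 := hs.2.2.1 2
  have sA63 : A 6 3 = A 4 3 := hs.2.2.1 3
  have sA70 : A 7 0 = A 5 0 := hs.2.2.2.1 0
  have sA71 : A 7 1 = A 5 1 := hs.2.2.2.1 1
  have sA72 : A 7 2 = A 5 2 := hs.2.2.2.1 2
  have sA73 : A 7 3 = A 5 3 := hs.2.2.2.1 3
  have sA81 : A 8 1 = A 8 0 := hs.2.2.2.2 1
  have sA82 : A 8 2 = A 8 0 := hs.2.2.2.2 2
  have sA83 : A 8 3 = A 8 0 := hs.2.2.2.2 3
  have nA0 : A 0 1 - A 0 2 + A 0 3 - A 0 0 + A 4 1 - A 4 2 + A 4 3 - A 4 0 = 0 := hn 0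
  have nA2 : A 0 2 - A 0 3 + A 1 2 - A 1 3 = 0 := hn 2
  have nA3 : A 4 2 - A 4 3 + A 5 2 - A 5 3 = 0 := hn 3
  have nA4 : A 0 0 - A 0 1 + A 1 0 - A 1 1 = 0 := hn 4
  have nA5 : A 4 0 - A 4 1 + A 5 0 - A 5 1 = 0 := hn 5
  have pA12 : A 1 2 = A 1 3 - A 0 2 + A 0 3 := by linarith
  have pA52 : A 5 2 = A 5 3 - A 4 2 + A 4 3 := by linarith
  have pA10 : A 1 0 = A 1 1 - A 0 0 + A 0 1 := by linarith
  have pA40 : A 4 0 = A 0 1 - A 0 2 + A 0 3 - A 0 0 + A 4 1 - A 4 2 + A 4 3 := by linarith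
  have pA50 : A 5 0 = A 5 1 - A 0 1 + A 0 2 - A 0 3 + A 0 0 + A 4 2 - A 4 3 := by linarith
  have g0_0 : g 4 5 = g 0 1 := (hg 0 0).symm
  have g0_1 : g 8 9 = g 0 1 := (hg 4 0).symm.trans g0_0
  have g0_2 : g 11 10 = g 0 1 := (hg 8 0).symm.trans g0_1
  have g0_3 : g 7 6 = g 0 1 := (hg 6 2).symm.trans g0_2
  have g0_4 : g 3 2 = g 0 1 := (hg 2 2).symm.trans g0_3
  have g1_0 : g 5 6 = g 1 2 := (hg 1 0).symm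
  have g1_1 : g 9 10 = g 1 2 := (hg 5 0).symm.trans g1_0
  have g1_2 : g 8 11 = g 1 2 := (hg 8 1).symm.trans g1_1
  have g1_3 : g 4 7 = g 1 2 := (hg 7 2).symm.trans g1_2
  have g1_4 : g 0 3 = g 1 2 := (hg 3 2).symm.trans g1_3
  have g2_0 : g 6 7 = g 2 3 := (hg 2 0).symm
  have g2_1 : g 10 11 = g 2 3 := (hg 6 0).symm.trans g2_0
  have g2_2 : g 9 8 = g 2 3 := (hg 8 2).symm.trans g2_1
  have g2_3 : g 5 4 = g 2 3 := (hg 4 2).symm.trans g2_2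
  have g2_4 : g 1 0 = g 2 3 := (hg 0 2).symm.trans g2_3
  have g3_0 : g 7 4 = g 3 0 := (hg 3 0).symm
  have g3_1 : g 11 8 = g 3 0 := (hg 7 0).symm.trans g3_0
  have g3_2 : g 10 9 = g 3 0 := (hg 8 3).symm.trans g3_1
  have g3_3 : g 6 5 = g 3 0 := (hg 5 2).symm.trans g3_2
  have g3_4 : g 2 1 = g 3 0 := (hg 1 2).symm.trans g3_3
  have g4_0 : g 3 7 = g 0 4 := (hg 3 1).symm
  have g4_1 : g 2 6 = g 0 4 := (hg 2 1).symm.trans g4_0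
  have g4_2 : g 1 5 = g 0 4 := (hg 1 1).symm.trans g4_1
  have g5_0 : g 5 1 = g 4 0 := (hg 0 3).symm
  have g5_1 : g 6 2 = g 4 0 := (hg 1 3).symm.trans g5_0
  have g5_2 : g 7 3 = g 4 0 := (hg 2 3).symm.trans g5_1
  have g6_0 : g 7 11 = g 4 8 := (hg 7 1).symm
  have g6_1 : g 6 10 = g 4 8 := (hg 6 1).symm.trans g6_0
  have g6_2 : g 5 9 = g 4 8 := (hg 5 1).symm.trans g6_1
  have g7_0 : g 9 5 = g 8 4 := (hg 4 3).symm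
  have g7_1 : g 10 6 = g 8 4 := (hg 5 3).symm.trans g7_0
  have g7_2 : g 11 7 = g 8 4 := (hg 6 3).symm.trans g7_1
  simp only [g0_0, g0_1, g0_2, g0_3, g1_0, g1_1, g1_2, g1_3, g2_0, g2_1, g2_2, g2_3, g3_0, g3_1, g3_2, g3_3, g4_0, g4_1, g4_2, g5_0, g5_1, g5_2, g6_0, g6_1, g6_2, g7_0, g7_1, g7_2, sA20, sA21, sA22, sA23, sA30, sA31, sA32, sA33, sA60, sA61, sA62, sA63, sA70, sA71, sA72, sA73, sA81, sA82, sA83, pA12, pA52, pA10, pA40, pA50]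
  ring

/-- The second order sum of a symmetric gadget. ROW G1. Along every side (same lists) `φ` at the next directed edge is `φ` plus `A j (r+1) - A j (r+2)` (`hφ j r`); the sum is linear in the eight initial values with
coefficients the nets of `B` (zero), the rest is `Phi A B` (checked by computer; the closed sides use `net A = 0` in the form `A 0 2 - A 0 3 = -(A 1 2 - A 1 3)` etc., in the open ones the last value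
is `initial + net A 0 = initial`). -/
theorem gadget_sum (A B : Fin 9 → Fin 4 → ℝ) (hA : Sym A) (hB : Sym B) (hnA : ∀ i, net A i = 0)
    (hnB : ∀ i, net B i = 0) (φ : Fin 12 → Fin 12 → ℝ)
    (hφ : ∀ j r, A j (r + 1) - A j (r + 2) =
      φ (gidx j (r + 3)) (gidx j (r + 2)) - φ (gidx j r) (gidx j (r + 1))) :
    ∑ j, ∑ r, (φ (gidx j r) (gidx j (r + 1)) * B j (r + 1) -
      φ (gidx j (r + 3)) (gidx j (r + 2)) * B j (r + 2)) = Phi A B := by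
  rw [G1_expS]
  have sA20 : A 2 0 = A 0 0 := hA.1 0
  have sA21 : A 2 1 = A 0 1 := hA.1 1
  have sA22 : A 2 2 = A 0 2 := hA.1 2
  have sA23 : A 2 3 = A 0 3 := hA.1 3
  have sA30 : A 3 0 = A 1 0 := hA.2.1 0
  have sA31 : A 3 1 = A 1 1 := hA.2.1 1
  have sA32 : A 3 2 = A 1 2 := hA.2.1 2
  have sA33 : A 3 3 = A 1 3 := hA.2.1 3
  have sA60 : A 6 0 = A 4 0 := hA.2.2.1 0
  have sA61 : A 6 1 = A 4 1 := hA.2.2.1 1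
  have sA62 : A 6 2 = A 4 2 := hA.2.2.1 2
  have sA63 : A 6 3 = A 4 3 := hA.2.2.1 3
  have sA70 : A 7 0 = A 5 0 := hA.2.2.2.1 0
  have sA71 : A 7 1 = A 5 1 := hA.2.2.2.1 1
  have sA72 : A 7 2 = A 5 2 := hA.2.2.2.1 2
  have sA73 : A 7 3 = A 5 3 := hA.2.2.2.1 3
  have sA81 : A 8 1 = A 8 0 := hA.2.2.2.2 1
  have sA82 : A 8 2 = A 8 0 := hA.2.2.2.2 2
  have sA83 : A 8 3 = A 8 0 := hA.2.2.2.2 3
  have nA0 : A 0 1 - A 0 2 + A 0 3 - A 0 0 + A 4 1 - A 4 2 + A 4 3 - A 4 0 = 0 := hnA 0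
  have nA2 : A 0 2 - A 0 3 + A 1 2 - A 1 3 = 0 := hnA 2
  have nA3 : A 4 2 - A 4 3 + A 5 2 - A 5 3 = 0 := hnA 3
  have nA4 : A 0 0 - A 0 1 + A 1 0 - A 1 1 = 0 := hnA 4
  have nA5 : A 4 0 - A 4 1 + A 5 0 - A 5 1 = 0 := hnA 5
  have pA12 : A 1 2 = A 1 3 - A 0 2 + A 0 3 := by linarith
  have pA52 : A 5 2 = A 5 3 - A 4 2 + A 4 3 := by linarith
  have pA10 : A 1 0 = A 1 1 - A 0 0 + A 0 1 := by linarith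
  have pA40 : A 4 0 = A 0 1 - A 0 2 + A 0 3 - A 0 0 + A 4 1 - A 4 2 + A 4 3 := by linarith
  have pA50 : A 5 0 = A 5 1 - A 0 1 + A 0 2 - A 0 3 + A 0 0 + A 4 2 - A 4 3 := by linarith
  have sB20 : B 2 0 = B 0 0 := hB.1 0
  have sB21 : B 2 1 = B 0 1 := hB.1 1
  have sB22 : B 2 2 = B 0 2 := hB.1 2
  have sB23 : B 2 3 = B 0 3 := hB.1 3
  have sB30 : B 3 0 = B 1 0 := hB.2.1 0
  have sB31 : B 3 1 = B 1 1 := hB.2.1 1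
  have sB32 : B 3 2 = B 1 2 := hB.2.1 2
  have sB33 : B 3 3 = B 1 3 := hB.2.1 3
  have sB60 : B 6 0 = B 4 0 := hB.2.2.1 0
  have sB61 : B 6 1 = B 4 1 := hB.2.2.1 1
  have sB62 : B 6 2 = B 4 2 := hB.2.2.1 2
  have sB63 : B 6 3 = B 4 3 := hB.2.2.1 3
  have sB70 : B 7 0 = B 5 0 := hB.2.2.2.1 0
  have sB71 : B 7 1 = B 5 1 := hB.2.2.2.1 1
  have sB72 : B 7 2 = B 5 2 := hB.2.2.2.1 2
  have sB73 : B 7 3 = B 5 3 := hB.2.2.2.1 3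
  have sB81 : B 8 1 = B 8 0 := hB.2.2.2.2 1
  have sB82 : B 8 2 = B 8 0 := hB.2.2.2.2 2
  have sB83 : B 8 3 = B 8 0 := hB.2.2.2.2 3
  have nB0 : B 0 1 - B 0 2 + B 0 3 - B 0 0 + B 4 1 - B 4 2 + B 4 3 - B 4 0 = 0 := hnB 0
  have nB2 : B 0 2 - B 0 3 + B 1 2 - B 1 3 = 0 := hnB 2
  have nB3 : B 4 2 - B 4 3 + B 5 2 - B 5 3 = 0 := hnB 3
  have nB4 : B 0 0 - B 0 1 + B 1 0 - B 1 1 = 0 := hnB 4
  have nB5 : B 4 0 - B 4 1 + B 5 0 - B 5 1 = 0 := hnB 5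
  have pB12 : B 1 2 = B 1 3 - B 0 2 + B 0 3 := by linarith
  have pB52 : B 5 2 = B 5 3 - B 4 2 + B 4 3 := by linarith
  have pB10 : B 1 0 = B 1 1 - B 0 0 + B 0 1 := by linarith
  have pB40 : B 4 0 = B 0 1 - B 0 2 + B 0 3 - B 0 0 + B 4 1 - B 4 2 + B 4 3 := by linarith
  have pB50 : B 5 0 = B 5 1 - B 0 1 + B 0 2 - B 0 3 + B 0 0 + B 4 2 - B 4 3 := by linarith
  have ef0_0 : A 0 1 - A 0 2 = φ 4 5 - φ 0 1 := hφ 0 0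
  have f0_0 : φ 4 5 = φ 0 1 + ((A 0 1 - A 0 2)) := by linarith
  have ef0_1 : A 4 1 - A 4 2 = φ 8 9 - φ 4 5 := hφ 4 0
  have f0_1 : φ 8 9 = φ 0 1 + ((A 0 1 - A 0 2) + (A 4 1 - A 4 2)) := by linarith
  have ef0_2 : A 8 1 - A 8 2 = φ 11 10 - φ 8 9 := hφ 8 0
  have f0_2 : φ 11 10 = φ 0 1 + ((A 0 1 - A 0 2) + (A 4 1 - A 4 2) + (A 8 1 - A 8 2)) := by linarith
  have ef0_3 : A 6 3 - A 6 0 = φ 7 6 - φ 11 10 := hφ 6 2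
  have f0_3 : φ 7 6 = φ 0 1 + ((A 0 1 - A 0 2) + (A 4 1 - A 4 2) + (A 8 1 - A 8 2) + (A 6 3 - A 6 0)) := by linarith
  have ef0_4 : A 2 3 - A 2 0 = φ 3 2 - φ 7 6 := hφ 2 2
  have f0_4 : φ 3 2 = φ 0 1 + ((A 0 1 - A 0 2) + (A 4 1 - A 4 2) + (A 8 1 - A 8 2) + (A 6 3 - A 6 0) + (A 2 3 - A 2 0)) := by linarith
  have ef1_0 : A 1 1 - A 1 2 = φ 5 6 - φ 1 2 := hφ 1 0
  have f1_0 : φ 5 6 = φ 1 2 + ((A 1 1 - A 1 2)) := by linarith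
  have ef1_1 : A 5 1 - A 5 2 = φ 9 10 - φ 5 6 := hφ 5 0
  have f1_1 : φ 9 10 = φ 1 2 + ((A 1 1 - A 1 2) + (A 5 1 - A 5 2)) := by linarith
  have ef1_2 : A 8 2 - A 8 3 = φ 8 11 - φ 9 10 := hφ 8 1
  have f1_2 : φ 8 11 = φ 1 2 + ((A 1 1 - A 1 2) + (A 5 1 - A 5 2) + (A 8 2 - A 8 3)) := by linarith
  have ef1_3 : A 7 3 - A 7 0 = φ 4 7 - φ 8 11 := hφ 7 2
  have f1_3 : φ 4 7 = φ 1 2 + ((A 1 1 - A 1 2) + (A 5 1 - A 5 2) + (A 8 2 - A 8 3) + (A 7 3 - A 7 0)) := by linarith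
  have ef1_4 : A 3 3 - A 3 0 = φ 0 3 - φ 4 7 := hφ 3 2
  have f1_4 : φ 0 3 = φ 1 2 + ((A 1 1 - A 1 2) + (A 5 1 - A 5 2) + (A 8 2 - A 8 3) + (A 7 3 - A 7 0) + (A 3 3 - A 3 0)) := by linarith
  have ef2_0 : A 2 1 - A 2 2 = φ 6 7 - φ 2 3 := hφ 2 0
  have f2_0 : φ 6 7 = φ 2 3 + ((A 2 1 - A 2 2)) := by linarith
  have ef2_1 : A 6 1 - A 6 2 = φ 10 11 - φ 6 7 := hφ 6 0
  have f2_1 : φ 10 11 = φ 2 3 + ((A 2 1 - A 2 2) + (A 6 1 - A 6 2)) := by linarith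
  have ef2_2 : A 8 3 - A 8 0 = φ 9 8 - φ 10 11 := hφ 8 2
  have f2_2 : φ 9 8 = φ 2 3 + ((A 2 1 - A 2 2) + (A 6 1 - A 6 2) + (A 8 3 - A 8 0)) := by linarith
  have ef2_3 : A 4 3 - A 4 0 = φ 5 4 - φ 9 8 := hφ 4 2
  have f2_3 : φ 5 4 = φ 2 3 + ((A 2 1 - A 2 2) + (A 6 1 - A 6 2) + (A 8 3 - A 8 0) + (A 4 3 - A 4 0)) := by linarith
  have ef2_4 : A 0 3 - A 0 0 = φ 1 0 - φ 5 4 := hφ 0 2
  have f2_4 : φ 1 0 = φ 2 3 + ((A 2 1 - A 2 2) + (A 6 1 - A 6 2) + (A 8 3 - A 8 0) + (A 4 3 - A 4 0) + (A 0 3 - A 0 0)) := by linarith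
  have ef3_0 : A 3 1 - A 3 2 = φ 7 4 - φ 3 0 := hφ 3 0
  have f3_0 : φ 7 4 = φ 3 0 + ((A 3 1 - A 3 2)) := by linarith
  have ef3_1 : A 7 1 - A 7 2 = φ 11 8 - φ 7 4 := hφ 7 0
  have f3_1 : φ 11 8 = φ 3 0 + ((A 3 1 - A 3 2) + (A 7 1 - A 7 2)) := by linarith
  have ef3_2 : A 8 0 - A 8 1 = φ 10 9 - φ 11 8 := hφ 8 3
  have f3_2 : φ 10 9 = φ 3 0 + ((A 3 1 - A 3 2) + (A 7 1 - A 7 2) + (A 8 0 - A 8 1)) := by linarith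
  have ef3_3 : A 5 3 - A 5 0 = φ 6 5 - φ 10 9 := hφ 5 2
  have f3_3 : φ 6 5 = φ 3 0 + ((A 3 1 - A 3 2) + (A 7 1 - A 7 2) + (A 8 0 - A 8 1) + (A 5 3 - A 5 0)) := by linarith
  have ef3_4 : A 1 3 - A 1 0 = φ 2 1 - φ 6 5 := hφ 1 2
  have f3_4 : φ 2 1 = φ 3 0 + ((A 3 1 - A 3 2) + (A 7 1 - A 7 2) + (A 8 0 - A 8 1) + (A 5 3 - A 5 0) + (A 1 3 - A 1 0)) := by linarith
  have ef4_0 : A 3 2 - A 3 3 = φ 3 7 - φ 0 4 := hφ 3 1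
  have f4_0 : φ 3 7 = φ 0 4 + ((A 3 2 - A 3 3)) := by linarith
  have ef4_1 : A 2 2 - A 2 3 = φ 2 6 - φ 3 7 := hφ 2 1
  have f4_1 : φ 2 6 = φ 0 4 + ((A 3 2 - A 3 3) + (A 2 2 - A 2 3)) := by linarith
  have ef4_2 : A 1 2 - A 1 3 = φ 1 5 - φ 2 6 := hφ 1 1
  have f4_2 : φ 1 5 = φ 0 4 + ((A 3 2 - A 3 3) + (A 2 2 - A 2 3) + (A 1 2 - A 1 3)) := by linarith
  have ef5_0 : A 0 0 - A 0 1 = φ 5 1 - φ 4 0 := hφ 0 3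
  have f5_0 : φ 5 1 = φ 4 0 + ((A 0 0 - A 0 1)) := by linarith
  have ef5_1 : A 1 0 - A 1 1 = φ 6 2 - φ 5 1 := hφ 1 3
  have f5_1 : φ 6 2 = φ 4 0 + ((A 0 0 - A 0 1) + (A 1 0 - A 1 1)) := by linarith
  have ef5_2 : A 2 0 - A 2 1 = φ 7 3 - φ 6 2 := hφ 2 3
  have f5_2 : φ 7 3 = φ 4 0 + ((A 0 0 - A 0 1) + (A 1 0 - A 1 1) + (A 2 0 - A 2 1)) := by linarith
  have ef6_0 : A 7 2 - A 7 3 = φ 7 11 - φ 4 8 := hφ 7 1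
  have f6_0 : φ 7 11 = φ 4 8 + ((A 7 2 - A 7 3)) := by linarith
  have ef6_1 : A 6 2 - A 6 3 = φ 6 10 - φ 7 11 := hφ 6 1
  have f6_1 : φ 6 10 = φ 4 8 + ((A 7 2 - A 7 3) + (A 6 2 - A 6 3)) := by linarith
  have ef6_2 : A 5 2 - A 5 3 = φ 5 9 - φ 6 10 := hφ 5 1
  have f6_2 : φ 5 9 = φ 4 8 + ((A 7 2 - A 7 3) + (A 6 2 - A 6 3) + (A 5 2 - A 5 3)) := by linarith
  have ef7_0 : A 4 0 - A 4 1 = φ 9 5 - φ 8 4 := hφ 4 3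
  have f7_0 : φ 9 5 = φ 8 4 + ((A 4 0 - A 4 1)) := by linarith
  have ef7_1 : A 5 0 - A 5 1 = φ 10 6 - φ 9 5 := hφ 5 3
  have f7_1 : φ 10 6 = φ 8 4 + ((A 4 0 - A 4 1) + (A 5 0 - A 5 1)) := by linarith
  have ef7_2 : A 6 0 - A 6 1 = φ 11 7 - φ 10 6 := hφ 6 3
  have f7_2 : φ 11 7 = φ 8 4 + ((A 4 0 - A 4 1) + (A 5 0 - A 5 1) + (A 6 0 - A 6 1)) := by linarith
  clear ef0_0 ef0_1 ef0_2 ef0_3 ef0_4 ef1_0 ef1_1 ef1_2 ef1_3 ef1_4 ef2_0 ef2_1 ef2_2 ef2_3 ef2_4 ef3_0 ef3_1 ef3_2 ef3_3 ef3_4 ef4_0 ef4_1 ef4_2 ef5_0 ef5_1 ef5_2 ef6_0 ef6_1 ef6_2 ef7_0 ef7_1 ef7_2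
  simp only [Phi, f0_0, f0_1, f0_2, f0_3, f0_4, f1_0, f1_1, f1_2, f1_3, f1_4, f2_0, f2_1, f2_2, f2_3, f2_4, f3_0, f3_1, f3_2, f3_3, f3_4, f4_0, f4_1, f4_2, f5_0, f5_1, f5_2, f6_0, f6_1, f6_2, f7_0, f7_1, f7_2, sA20, sA21, sA22, sA23, sA30, sA31, sA32, sA33, sA60, sA61, sA62, sA63, sA70, sA71, sA72, sA73, sA81, sA82, sA83, pA12, pA52, pA10, pA40, pA50, sB20, sB21, sB22, sB23, sB30, sB31, sB32, sB33, sB60, sB61, sB62, sB63, sB70, sB71, sB72, sB73, sB81, sB82, sB83, pB12, pB52, pB10, pB40, pB50]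
  ring

private lemma G1_key (u v : Fin 8 → ℝ) (j j' : Fin 9) (r r' : Fin 4)
    (h1 : dsg (gpt 3 u (gidx j (r + 1))) (gpt 3 u (gidx j (r + 2))) (gpt 3 u (gidx j (r + 3)))
      (gpt 0 v (gidx j (r + 1))) (gpt 0 v (gidx j (r + 2))) (gpt 0 v (gidx j (r + 3))) =
      dsg (gpt 3 u (gidx j' (r' + 1))) (gpt 3 u (gidx j' (r' + 2))) (gpt 3 u (gidx j' (r' + 3)))
      (gpt 0 v (gidx j' (r' + 1))) (gpt 0 v (gidx j' (r' + 2))) (gpt 0 v (gidx j' (r' + 3))))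
    (h2 : lam u j r = lam u j' r') : Lr u v j r = Lr u v j' r' := by
  unfold Lr
  rw [h1, h2]

/-- ROW G1. The gadget is centrally symmetric: `lam u 2 r = lam u 0 r` etc. (and the same for `dsg`); `lam u 8 r` is the same for all `r` (parallelogram). `intro r; fin_cases r; simp [Lr, lam, sg, dsg, gpt, gidx]; ring_nf`. -/
theorem Lr_sym (u v : Fin 8 → ℝ) : Sym (Lr u v) := by
  refine ⟨?_, ?_, ?_, ?_, ?_⟩ <;> intro r <;> fin_cases r <;> refine G1_key _ _ _ _ _ _ ?_ ?_ <;>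
    simp only [lam, sg, dsg, gpt, gidx, Fin.reduceAdd, Fin.reduceFinMk, Fin.zero_eta, Fin.isValue, Fin.mk_one, zero_add, Matrix.cons_val] <;> ring

end Pool.Agent.Lib.MP_2847c2_co.GB
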