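import Pool.Agent.Lib.MP_2847c2_co.GB.MeshDefs
import Pool.Agent.Lib.MP_2847c2_co.GB.Gadget

/-!
# The box `[0, 6N] × [0, 6] × [0, 6]` with `N` gadgets in its top facet
-/

namespace Pool.Agent.Lib.MP_2847c2_co.GB

open Pool.Agent.Lib.MP_2847c2_co


/-- ROW B1. The coordinates outside of the gadgets are rational. -/
private theorem b1_coord {N : ℕ} (t : Fin N × Fin 8 → ℝ) (y : (Fin N × Fin 3) ⊕ Fin 2) (a : Fin 4)
    (i : Fin 3) : faceV t (.inr y) a i ∈ (algebraMap ℚ ℝ).range := by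
  have h0 : (0 : ℝ) ∈ (algebraMap ℚ ℝ).range := zero_mem _
  have hn : ∀ n : ℕ, (n : ℝ) ∈ (algebraMap ℚ ℝ).range := fun n => natCast_mem _ n
  have h6 : (6 : ℝ) ∈ (algebraMap ℚ ℝ).range := by exact_mod_cast hn 6
  have hk : ∀ n : ℕ, (6 * (n : ℝ)) ∈ (algebraMap ℚ ℝ).range := fun n => mul_mem h6 (hn n)
  have hk6 : ∀ n : ℕ, (6 * (n : ℝ) + 6) ∈ (algebraMap ℚ ℝ).range := fun n => add_mem (hk n) h6
  rcases y with ⟨k, j⟩ | s
  · fin_cases j <;> fin_cases a <;> fin_cases i <;>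
      first | exact h0 | exact h6 | exact hk k | exact hk6 k
  · fin_cases s <;> fin_cases a <;> fin_cases i <;>
      first | exact h0 | exact h6 | exact hk N

/-- ROW B1. -/
private theorem b1_area {p q r : P3} (hp : ∀ i, p i ∈ (algebraMap ℚ ℝ).range)
    (hq : ∀ i, q i ∈ (algebraMap ℚ ℝ).range) (hr : ∀ i, r i ∈ (algebraMap ℚ ℝ).range) :
    area2 p q r ∈ (algebraMap ℚ ℝ).range := by
  have h1 : ∀ i, (q - p) i ∈ (algebraMap ℚ ℝ).range := fun i => sub_mem (hq i) (hp i)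
  have h2 : ∀ i, (r - p) i ∈ (algebraMap ℚ ℝ).range := fun i => sub_mem (hr i) (hp i)
  unfold area2
  refine add_mem (add_mem (pow_mem (sub_mem ?_ ?_) 2) (pow_mem (sub_mem ?_ ?_) 2))
    (pow_mem (sub_mem ?_ ?_) 2) <;> exact mul_mem (h1 _) (h2 _)

/-- The squared areas of the triangles of the faces outside the gadgets are rational. ROW B1. For every choice of `a b c` (`fin_cases`) `area2 .. ` is a rational number (the differences of the `x`-coordinates are
`0`, `±6`, for the ends all points have the same `x`-coordinate), `D` of a rational number is zero (`map_intCast`-like: `Derivation.map_algebraMap`, `Derivation.map_natCast`). -/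
theorem ld_other {N : ℕ} (t : Fin N × Fin 8 → ℝ) (D : Der) (y : (Fin N × Fin 3) ⊕ Fin 2)
    (a b c : Fin 4) :
    ld D (area2 (faceV t (.inr y) a) (faceV t (.inr y) b) (faceV t (.inr y) c)) = 0 := by
  obtain ⟨x, hx⟩ := b1_area (b1_coord t y a) (b1_coord t y b) (b1_coord t y c)
  rw [← hx, ld, Derivation.map_algebraMap, zero_div]

/-- ROW B1. The derivative of the positions. -/
private theorem b1_gpt (u v : Fin 8 → ℝ) (D : Der) (hD : ∀ i, D (u i) = v i) (i : Fin 12) :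
    D (gpt 3 u i).1 = (gpt 0 v i).1 ∧ D (gpt 3 u i).2 = (gpt 0 v i).2 := by
  have h3 : D (3 : ℝ) = 0 := by
    have h := D.map_algebraMap (3 : ℚ)
    simpa using h
  have h3' : D (-3 : ℝ) = 0 := by rw [map_neg, h3, neg_zero]
  fin_cases i <;> simp [gpt, hD, h3]

/-- ROW B1. The derivative of the signed area. -/
private theorem b1_sg (D : Der) (p q r p' q' r' : ℝ × ℝ) (hp : D p.1 = p'.1 ∧ D p.2 = p'.2)
    (hq : D q.1 = q'.1 ∧ D q.2 = q'.2) (hr : D r.1 = r'.1 ∧ D r.2 = r'.2) :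
    D (sg p q r) = dsg p q r p' q' r' := by
  simp only [sg, dsg, map_sub, Derivation.leibniz, smul_eq_mul, hp.1, hp.2, hq.1, hq.2, hr.1, hr.2]
  ring

/-- ROW B1. -/
private theorem b1_area2 (k : ℕ) (u : Fin 8 → ℝ) (a b c : Fin 12) :
    area2 (gpt3 k u a) (gpt3 k u b) (gpt3 k u c) = sg (gpt 3 u a) (gpt 3 u b) (gpt 3 u c) ^ 2 := by
  simp only [area2, gpt3, sg, Pi.sub_apply, Matrix.cons_val_zero, Matrix.cons_val_one,
    Matrix.cons_val]
  ring

/-- The areas in the gadgets. ROW B1. All points have `z = 6`, so `area2 = (sg ..)^2 = (lam u j r)^2`; `ld_sq`; `D (lam u j r) = dsg ..` by the Leibniz rule (`D (u i) = v i`, `D` of the constants `3`, `-3` is zero: the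
velocities `gpt 0 v`). It is convenient to prove first: for all points, `D (sg p q r) = dsg p q r p' q' r'` if `D p.1 = p'.1` etc., and `D (gpt 3 u i).1 = (gpt 0 v i).1`. -/
theorem ld_gad (k : ℕ) (u v : Fin 8 → ℝ) (D : Der) (hD : ∀ i, D (u i) = v i) (j : Fin 9) (r : Fin 4) :
    ld D (area2 (gpt3 k u (gidx j (r + 1))) (gpt3 k u (gidx j (r + 2))) (gpt3 k u (gidx j (r + 3)))) =
      2 * Lr u v j r := by
  have h := b1_gpt u v D hD
  rw [b1_area2, ld_sq, ld, b1_sg D _ _ _ _ _ _ (h _) (h _) (h _)]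
  rfl

/-- `area2` does not depend on the order of the points. -/
theorem area2_perm1 (p q r : P3) : area2 q r p = area2 p q r := by
  simp only [area2, Pi.sub_apply]
  ring

/-- ROW B1. -/
private theorem b1_perm2 (p q r : P3) : area2 q p r = area2 p q r := by
  simp only [area2, Pi.sub_apply]
  ring

/-- ROW B1. -/
private theorem b1_perm3 (p q r : P3) : area2 r q p = area2 p q r := by
  simp only [area2, Pi.sub_apply]
  ring

/-- ROW B1. The triangle without the vertex `r + 1`. -/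
private theorem b1_first {N : ℕ} (t : Fin N × Fin 8 → ℝ) (D : Der) (k : Fin N) (v : Fin 8 → ℝ)
    (hD : ∀ i, D (t (k, i)) = v i) (j : Fin 9) (r : Fin 4) :
    ld D (area2 (faceV t (.inl (k, j)) r) (faceV t (.inl (k, j)) (r + 3))
      (faceV t (.inl (k, j)) (r + 2))) = 2 * Lr (fun i => t (k, i)) v j (r + 1) := by
  have h := ld_gad k (fun i => t (k, i)) v D hD j (r + 1)
  have e1 : r + 1 + 1 = r + 2 := (by decide : ∀ r : Fin 4, r + 1 + 1 = r + 2) r
  have e2 : r + 1 + 2 = r + 3 := (by decide : ∀ r : Fin 4, r + 1 + 2 = r + 3) r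
  have e3 : r + 1 + 3 = r := (by decide : ∀ r : Fin 4, r + 1 + 3 = r) r
  rw [e1, e2, e3] at h
  rw [← h]
  exact congrArg (ld D) (b1_perm3 _ _ _)

/-- ROW B1. The triangle without the vertex `r + 2`. -/
private theorem b1_second {N : ℕ} (t : Fin N × Fin 8 → ℝ) (D : Der) (k : Fin N) (v : Fin 8 → ℝ)
    (hD : ∀ i, D (t (k, i)) = v i) (j : Fin 9) (r : Fin 4) :
    ld D (area2 (faceV t (.inl (k, j)) r) (faceV t (.inl (k, j)) (r + 3))
      (faceV t (.inl (k, j)) (r + 1))) = 2 * Lr (fun i => t (k, i)) v j (r + 2) := by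
  have h := ld_gad k (fun i => t (k, i)) v D hD j (r + 2)
  have e1 : r + 2 + 1 = r + 3 := (by decide : ∀ r : Fin 4, r + 2 + 1 = r + 3) r
  have e2 : r + 2 + 2 = r := (by decide : ∀ r : Fin 4, r + 2 + 2 = r) r
  have e3 : r + 2 + 3 = r + 1 := (by decide : ∀ r : Fin 4, r + 2 + 3 = r + 1) r
  rw [e1, e2, e3] at h
  rw [← h]
  exact congrArg (ld D) (b1_perm2 _ _ _)

/-- The weight of a marked quadrilateral of a gadget. ROW B1: `boxB t (.inl (k,j), r) = (x_r, x_(r+1), x_(r+2), x_(r+3))`, `wtD = ld D (area2 x_r x_(r+3) x_(r+2)) - ld D (area2 x_r x_(r+3) x_(r+1))`; the first triangle omits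
the vertex `r+1`, the second one `r+2`; `ld_gad` and the symmetry of `area2` (`r + 1 + 3 = r` in `Fin 4`). The same for `t2_gad`. -/
theorem wtD_gad {N : ℕ} (t : Fin N × Fin 8 → ℝ) (D : Der) (k : Fin N) (v : Fin 8 → ℝ)
    (hD : ∀ i, D (t (k, i)) = v i) (j : Fin 9) (r : Fin 4) :
    wtD D (boxB t (.inl (k, j), r)) =
      2 * Lr (fun i => t (k, i)) v j (r + 1) - 2 * Lr (fun i => t (k, i)) v j (r + 2) := by
  rw [← b1_first t D k v hD j r, ← b1_second t D k v hD j r]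
  rfl

theorem wtD_other {N : ℕ} (t : Fin N × Fin 8 → ℝ) (D : Der) (y : (Fin N × Fin 3) ⊕ Fin 2)
    (r : Fin 4) : wtD D (boxB t (.inr y, r)) = 0 := by
  simp only [wtD, boxB, ld_other, sub_zero]

theorem t2_gad {N : ℕ} (t : Fin N × Fin 8 → ℝ) (E : Der) (k : Fin N) (w : Fin 8 → ℝ)
    (hE : ∀ i, E (t (k, i)) = w i) (f : P3 × P3 → ℝ) (j : Fin 9) (r : Fin 4) :
    t2 E f (boxB t (.inl (k, j), r)) =
      f (e1 (boxB t (.inl (k, j), r))) * (2 * Lr (fun i => t (k, i)) w j (r + 1)) -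
      f (e2 (boxB t (.inl (k, j), r))) * (2 * Lr (fun i => t (k, i)) w j (r + 2)) := by
  rw [← b1_first t E k w hE j r, ← b1_second t E k w hE j r]
  rfl

theorem t2_other {N : ℕ} (t : Fin N × Fin 8 → ℝ) (E : Der) (f : P3 × P3 → ℝ)
    (y : (Fin N × Fin 3) ⊕ Fin 2) (r : Fin 4) : t2 E f (boxB t (.inr y, r)) = 0 := by
  simp only [t2, boxB, ld_other, mul_zero, sub_zero]

end Pool.Agent.Lib.MP_2847c2_co.GB
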