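import Pool.Agent.Lib.MP_2847c2_co.Defs

/-!
# The box `[0, 6N] × [0, 6] × [0, 6]` with `N` gadgets in its top facet: definitions

A gadget is a square refined by two nested quadrilaterals.
-/

namespace Pool.Agent.Lib.MP_2847c2_co.GB

open Pool.Agent.Lib.MP_2847c2_co

/-- The vertices of the nine quadrilaterals (`0, …, 3`: corners of the square; `4, …, 7`: first
nested quadrilateral; `8, …, 11`: second nested quadrilateral), counterclockwise. -/
def gidx : Fin 9 → Fin 4 → Fin 12 :=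
  ![![0, 1, 5, 4], ![1, 2, 6, 5], ![2, 3, 7, 6], ![3, 0, 4, 7], ![4, 5, 9, 8], ![5, 6, 10, 9],
    ![6, 7, 11, 10], ![7, 4, 8, 11], ![8, 9, 10, 11]]

/-- The positions (`c = 3`) and the velocities (`c = 0`) of the vertices; the gadget is symmetric with
respect to the origin. -/
def gpt (c : ℝ) (u : Fin 8 → ℝ) : Fin 12 → ℝ × ℝ :=
  ![(-c, -c), (c, -c), (c, c), (-c, c), (u 0, u 1), (u 2, u 3), (-u 0, -u 1), (-u 2, -u 3),
    (u 4, u 5), (u 6, u 7), (-u 4, -u 5), (-u 6, -u 7)]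

/-- Twice the signed area of a triangle. -/
def sg (p q r : ℝ × ℝ) : ℝ := (q.1 - p.1) * (r.2 - p.2) - (q.2 - p.2) * (r.1 - p.1)

/-- Twice the area of the triangle which is left if the vertex number `r` is removed from the
quadrilateral number `j` of the gadget. -/
def lam (u : Fin 8 → ℝ) (j : Fin 9) (r : Fin 4) : ℝ :=
  sg (gpt 3 u (gidx j (r + 1))) (gpt 3 u (gidx j (r + 2))) (gpt 3 u (gidx j (r + 3)))

/-- The standard gadget. -/
def u0 : Fin 8 → ℝ := ![-2, -2, 2, -1, -1, -1, 1, 0]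

/-- The vertices of the gadget number `k`, in the facet `z = 6` of the box. -/
def gpt3 (k : ℕ) (u : Fin 8 → ℝ) (i : Fin 12) : P3 :=
  ![6 * k + 3 + (gpt 3 u i).1, 3 + (gpt 3 u i).2, 6]

/-- The bottom, front and back faces of the cube number `k`, counterclockwise as seen from outside. -/
def cub (k : ℕ) : Fin 3 → Fin 4 → P3 :=
  ![![![6 * k, 0, 0], ![6 * k, 6, 0], ![6 * k + 6, 6, 0], ![6 * k + 6, 0, 0]],
    ![![6 * k, 0, 0], ![6 * k + 6, 0, 0], ![6 * k + 6, 0, 6], ![6 * k, 0, 6]],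
    ![![6 * k, 6, 0], ![6 * k, 6, 6], ![6 * k + 6, 6, 6], ![6 * k + 6, 6, 0]]]

/-- The left and right ends of the box. -/
def bend (N : ℕ) : Fin 2 → Fin 4 → P3 :=
  ![![![0, 0, 0], ![0, 0, 6], ![0, 6, 6], ![0, 6, 0]],
    ![![6 * N, 0, 0], ![6 * N, 6, 0], ![6 * N, 6, 6], ![6 * N, 0, 6]]]

/-- The indices of the `12 N + 2` faces. -/
abbrev FI (N : ℕ) := (Fin N × Fin 9) ⊕ ((Fin N × Fin 3) ⊕ Fin 2)

/-- The vertices of the faces. -/
def faceV {N : ℕ} (t : Fin N × Fin 8 → ℝ) : FI N → Fin 4 → P3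
  | .inl (k, j) => fun r => gpt3 k (fun i => t (k, i)) (gidx j r)
  | .inr (.inl (k, j)) => cub k j
  | .inr (.inr s) => bend N s

/-- The surface mesh: all faces with all choices of the first vertex. -/
def boxB {N : ℕ} (t : Fin N × Fin 8 → ℝ) (x : FI N × Fin 4) : Quad :=
  (faceV t x.1 x.2, faceV t x.1 (x.2 + 1), faceV t x.1 (x.2 + 2), faceV t x.1 (x.2 + 3))

/-- The standard parameters. -/
def t0 (N : ℕ) : Fin N × Fin 8 → ℝ := fun x => u0 x.2

end Pool.Agent.Lib.MP_2847c2_co.GB
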