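import Pool.Agent.Lib.MP_2847c2_co.GB.Box

/-!
# Periods and the second order sum of the box
-/

namespace Pool.Agent.Lib.MP_2847c2_co.GB

open Pool.Agent.Lib.MP_2847c2_co

private theorem B2_net_mul (c : ℝ) (A : Fin 9 → Fin 4 → ℝ) (i : Fin 6) :
    net (fun j r => c * A j r) i = c * net A i := by
  fin_cases i <;> simp [net] <;> ring

private theorem B2_sym_mul (c : ℝ) (A : Fin 9 → Fin 4 → ℝ) (h : Sym A) :
    Sym (fun j r => c * A j r) := by
  obtain ⟨h1, h2, h3, h4, h5⟩ := h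
  exact ⟨fun r => by simp only [h1 r], fun r => by simp only [h2 r], fun r => by simp only [h3 r],
    fun r => by simp only [h4 r], fun r => by simp only [h5 r]⟩

private theorem B2_Phi_mul (a b : ℝ) (A B : Fin 9 → Fin 4 → ℝ) :
    Phi (fun j r => a * A j r) (fun j r => b * B j r) = a * b * Phi A B := by
  simp only [Phi]
  ring

private theorem B2_gpt_mul (c : ℝ) (v : Fin 8 → ℝ) (i : Fin 12) :
    gpt 0 (fun i => c * v i) i = (c * (gpt 0 v i).1, c * (gpt 0 v i).2) := by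
  fin_cases i <;> simp [gpt]

private theorem B2_Lr_mul (u : Fin 8 → ℝ) (c : ℝ) (v : Fin 8 → ℝ) (j : Fin 9) (r : Fin 4) :
    Lr u (fun i => c * v i) j r = c * Lr u v j r := by
  unfold Lr
  rw [B2_gpt_mul, B2_gpt_mul, B2_gpt_mul, ← mul_div_assoc]
  congr 1
  unfold dsg
  simp only
  ring

private theorem B2_Lr_zero (u v : Fin 8 → ℝ) (hv : ∀ i, v i = 0) (j : Fin 9) (r : Fin 4) :
    Lr u v j r = 0 := by
  have h : v = fun i => 0 * v i := by
    funext i
    rw [hv i, mul_zero]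
  rw [h, B2_Lr_mul, zero_mul]

/-- only the gadget number `k` counts -/
private theorem B2_sum {N : ℕ} (k : Fin N) (F : FI N × Fin 4 → ℝ)
    (h1 : ∀ y r, F (.inr y, r) = 0) (h2 : ∀ k' j r, k' ≠ k → F (.inl (k', j), r) = 0) :
    ∑ x, F x = ∑ j, ∑ r, F (.inl (k, j), r) := by
  rw [Fintype.sum_prod_type, Fintype.sum_sum_type]
  have e1 : ∑ y : (Fin N × Fin 3) ⊕ Fin 2, ∑ r, F (Sum.inr y, r) = 0 :=
    Finset.sum_eq_zero (fun y _ => Finset.sum_eq_zero (fun r _ => h1 y r))
  rw [e1, add_zero, Fintype.sum_prod_type]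
  refine Finset.sum_eq_single k (fun k' _ hk' => ?_) (fun h => absurd (Finset.mem_univ k) h)
  exact Finset.sum_eq_zero (fun j _ => Finset.sum_eq_zero (fun r _ => h2 k' j r hk'))

/-- The periods of a derivation which moves the gadget number `k` only. ROW B2. Sum over `FI N × Fin 4`: `Fintype.sum_prod_type`, `Fintype.sum_sum_type`; the terms with `.inr` vanish (`wtD_other`), the terms with `.inl (k', j)`,
`k' ≠ k`, too (`wtD_gad` with `v = 0`: `Lr u 0 = 0`), the rest is `gadget_period` for `A = 2 Lr ..` (`Lr_sym`; `net (2 A) = 2 net A`) and `g' i i' = g (gpt3 k u i, gpt3 k u i')`. -/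
theorem box_period {N : ℕ} (t : Fin N × Fin 8 → ℝ) (D : Der) (k : Fin N) (v : Fin 8 → ℝ)
    (hD : ∀ k' i, D (t (k', i)) = if k' = k then v i else 0)
    (hn : ∀ i, net (Lr (fun i => t (k, i)) v) i = 0) (g : P3 × P3 → ℝ)
    (hg : ∀ x, g (e1 (boxB t x)) = g (e2 (boxB t x))) :
    ∑ x, g (e1 (boxB t x)) * wtD D (boxB t x) = 0 := by
  have hzero : ∀ k' : Fin N, k' ≠ k → ∀ i, D (t (k', i)) = (fun _ : Fin 8 => (0 : ℝ)) i := by
    intro k' hk' i
    rw [hD, if_neg hk']
  rw [B2_sum k]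
  · have hk : ∀ i, D (t (k, i)) = v i := fun i => by rw [hD, if_pos rfl]
    have key := gadget_period (fun j r => 2 * Lr (fun i => t (k, i)) v j r)
      (B2_sym_mul 2 _ (Lr_sym _ v)) (fun i => by rw [B2_net_mul, hn, mul_zero])
      (fun i i' => g (gpt3 k (fun i => t (k, i)) i, gpt3 k (fun i => t (k, i)) i'))
      (fun j r => hg (.inl (k, j), r))
    rw [← key]
    refine Finset.sum_congr rfl (fun j _ => Finset.sum_congr rfl (fun r _ => ?_))
    rw [wtD_gad t D k v hk j r]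
    rfl
  · intro y r
    rw [wtD_other, mul_zero]
  · intro k' j r hk'
    rw [wtD_gad t D k' (fun _ => 0) (hzero k' hk') j r, B2_Lr_zero _ _ (fun _ => rfl),
      B2_Lr_zero _ _ (fun _ => rfl)]
    ring

/-- The second order sum. ROW B2. As before only the gadget `k` counts (`t2_other`, `t2_gad` with `w = 0` for `k' ≠ k`). For the gadget `k`: `gadget_sum` with `A = 2 Lr u (c v) = 2c Lr u v`, `B = 2 Lr u w`,
`φ i i' = f (gpt3 k u i, gpt3 k u i')`; `Phi (2c A) (2 B) = 4c Phi A B`. -/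
theorem box_sum {N : ℕ} (t : Fin N × Fin 8 → ℝ) (D E : Der) (k : Fin N) (c : ℝ) (v w : Fin 8 → ℝ)
    (hD : ∀ i, D (t (k, i)) = c * v i)
    (hE : ∀ k' i, E (t (k', i)) = if k' = k then w i else 0)
    (hnv : ∀ i, net (Lr (fun i => t (k, i)) v) i = 0)
    (hnw : ∀ i, net (Lr (fun i => t (k, i)) w) i = 0) (f : P3 × P3 → ℝ)
    (hf : ∀ x, wtD D (boxB t x) = f (e2 (boxB t x)) - f (e1 (boxB t x))) :
    ∑ x, t2 E f (boxB t x) =
      c * (4 * Phi (Lr (fun i => t (k, i)) v) (Lr (fun i => t (k, i)) w)) := by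
  have hzero : ∀ k' : Fin N, k' ≠ k → ∀ i, E (t (k', i)) = (fun _ : Fin 8 => (0 : ℝ)) i := by
    intro k' hk' i
    rw [hE, if_neg hk']
  rw [B2_sum k]
  · have hk : ∀ i, E (t (k, i)) = w i := fun i => by rw [hE, if_pos rfl]
    have key := gadget_sum (fun j r => (2 * c) * Lr (fun i => t (k, i)) v j r)
      (fun j r => 2 * Lr (fun i => t (k, i)) w j r)
      (B2_sym_mul (2 * c) _ (Lr_sym _ v)) (B2_sym_mul 2 _ (Lr_sym _ w))
      (fun i => by rw [B2_net_mul, hnv, mul_zero]) (fun i => by rw [B2_net_mul, hnw, mul_zero])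
      (fun i i' => f (gpt3 k (fun i => t (k, i)) i, gpt3 k (fun i => t (k, i)) i'))
      (fun j r => by
        have h1 := hf (.inl (k, j), r)
        rw [wtD_gad t D k (fun i => c * v i) hD j r, B2_Lr_mul, B2_Lr_mul] at h1
        have h2 : (2 * c) * Lr (fun i => t (k, i)) v j (r + 1) -
            (2 * c) * Lr (fun i => t (k, i)) v j (r + 2) =
            2 * (c * Lr (fun i => t (k, i)) v j (r + 1)) -
            2 * (c * Lr (fun i => t (k, i)) v j (r + 2)) := by ring
        rw [h2, h1]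
        rfl)
    rw [B2_Phi_mul] at key
    have h3 : 2 * c * 2 * Phi (Lr (fun i => t (k, i)) v) (Lr (fun i => t (k, i)) w) =
        c * (4 * Phi (Lr (fun i => t (k, i)) v) (Lr (fun i => t (k, i)) w)) := by ring
    rw [← h3, ← key]
    refine Finset.sum_congr rfl (fun j _ => Finset.sum_congr rfl (fun r _ => ?_))
    rw [t2_gad t E k w hk f j r]
    rfl
  · intro y r
    rw [t2_other]
  · intro k' j r hk'
    rw [t2_gad t E k' (fun _ => 0) (hzero k' hk') f j r, B2_Lr_zero _ _ (fun _ => rfl),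
      B2_Lr_zero _ _ (fun _ => rfl)]
    ring

end Pool.Agent.Lib.MP_2847c2_co.GB
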