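import Pool.Agent.Lib.MP_2847c2_co.Law

/-!
# Brackets of four planes
-/

namespace Pool.Agent.Lib.MP_2847c2_co.GB

open Pool.Agent.Lib.MP_2847c2_co

/-- A plane (covector) `{x | dot n x + c = 0}`. -/
abbrev Pl := P3 × ℝ

/-- The value of a plane function at a point. -/
def ev (N : Pl) (x : P3) : ℝ := dot N.1 x + N.2

/-- The determinant of four planes. -/
def det4 (N1 N2 N3 N4 : Pl) : ℝ :=
  N4.2 * det3 N1.1 N2.1 N3.1 - N3.2 * det3 N1.1 N2.1 N4.1 + N2.2 * det3 N1.1 N3.1 N4.1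
    - N1.2 * det3 N2.1 N3.1 N4.1

theorem det4_eq {N1 N2 N3 N4 : Pl} {x : P3} (h1 : ev N1 x = 0) (h2 : ev N2 x = 0)
    (h3 : ev N3 x = 0) : det4 N1 N2 N3 N4 = det3 N1.1 N2.1 N3.1 * ev N4 x := by
  simp only [ev, dot] at h1 h2 h3
  simp only [det4, det3, ev, dot]
  linear_combination (-(N2.1 0 * (N3.1 1 * N4.1 2 - N3.1 2 * N4.1 1) - N2.1 1 * (N3.1 0 * N4.1 2 - N3.1 2 * N4.1 0) + N2.1 2 * (N3.1 0 * N4.1 1 - N3.1 1 * N4.1 0))) * h1 +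
    (N1.1 0 * (N3.1 1 * N4.1 2 - N3.1 2 * N4.1 1) - N1.1 1 * (N3.1 0 * N4.1 2 - N3.1 2 * N4.1 0) + N1.1 2 * (N3.1 0 * N4.1 1 - N3.1 1 * N4.1 0)) * h2 -
    (N1.1 0 * (N2.1 1 * N4.1 2 - N2.1 2 * N4.1 1) - N1.1 1 * (N2.1 0 * N4.1 2 - N2.1 2 * N4.1 0) + N1.1 2 * (N2.1 0 * N4.1 1 - N2.1 1 * N4.1 0)) * h3

/-- The three-term Plücker relation. -/
theorem plucker (p q a b c d : Pl) :
    det4 p q a b * det4 p q c d - det4 p q a c * det4 p q b d + det4 p q a d * det4 p q b c = 0 := by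
  simp only [det4, det3]
  ring

end Pool.Agent.Lib.MP_2847c2_co.GB
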