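import Pool.Agent.Lib.MP_2847c2_co.GB.CellGeo

/-!
# The second order law for a single hexahedron
-/

namespace Pool.Agent.Lib.MP_2847c2_co.GB

open Pool.Agent.Lib.MP_2847c2_co

/-- The brackets of the twelve edges, by directions. -/
def eX (h : Hexa) (y z : Fin 6) : ℝ := det4 (pl h 0) (pl h 1) (pl h y) (pl h z)
def eY (h : Hexa) (x z : Fin 6) : ℝ := det4 (pl h 2) (pl h 3) (pl h x) (pl h z)
def eZ (h : Hexa) (x y : Fin 6) : ℝ := det4 (pl h 4) (pl h 5) (pl h x) (pl h y)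
/-- The bracket of the four planes which do not meet the direction `x`. -/
def qq (h : Hexa) : ℝ := det4 (pl h 2) (pl h 3) (pl h 4) (pl h 5)

theorem det4_a (A B C D : Pl) : det4 A C D B = det4 A B C D := by
  simp only [det4, det3]; ring

theorem det4_b (A B C D : Pl) : det4 B C D A = - det4 A B C D := by
  simp only [det4, det3]; ring

theorem det4_c (A B C D : Pl) : det4 C A D B = - det4 A B C D := by
  simp only [det4, det3]; ring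

theorem det4_d (A B C D : Pl) : det4 C B D A = det4 A B C D := by
  simp only [det4, det3]; ring

theorem det4_e (A B C D : Pl) : det4 C D A B = det4 A B C D := by
  simp only [det4, det3]; ring

theorem det4_f (A B C D : Pl) : det4 C D B A = - det4 A B C D := by
  simp only [det4, det3]; ring

/-- The value of a plane at a vertex. -/
theorem br_vert {h : Hexa} (hh : IsHexa h) (v : Fin 8) (N : Pl) :
    det4 (pl h (xf v)) (pl h (yf v)) (pl h (zf v)) N = wv h v * ev N (h v) := by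
  obtain ⟨⟨⟨i1, a1, _⟩, _, _⟩, ⟨⟨j1, b1, _⟩, _, _⟩, ⟨⟨k1, c1, _⟩, _, _⟩⟩ := vert_spec v
  have z1 : ev (pl h (xf v)) (h v) = 0 := by
    have := ev_zero hh (xf v) i1
    rwa [a1] at this
  have z2 : ev (pl h (yf v)) (h v) = 0 := by
    have := ev_zero hh (yf v) j1
    rwa [b1] at this
  have z3 : ev (pl h (zf v)) (h v) = 0 := by
    have := ev_zero hh (zf v) k1
    rwa [c1] at this
  exact det4_eq z1 z2 z3

/-- The heights in terms of the brackets. -/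
theorem Hd_gen {h : Hexa} (hh : IsHexa h) (D : Der) (t : Fin 6) (j : Fin 4) (v : Fin 8)
    (hv : cubeFace t j = v) (e : ℝ)
    (he : det4 (pl h (xf v)) (pl h (yf v)) (pl h (zf v)) (pl h (opp t)) = e ∨
      det4 (pl h (xf v)) (pl h (yf v)) (pl h (zf v)) (pl h (opp t)) = - e) :
    e ≠ 0 ∧ Hd h D t j = ld D e - ld D (wv h v) := by
  obtain ⟨-, -, -, -, -, ⟨k, k1, k2⟩⟩ := side_spec t j
  have nc : ev (pl h (opp t)) (h v) ≠ 0 := by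
    rw [← hv, ← k2]; exact ev_ne hh _ _
  have hw := wv_ne hh v
  have hb := br_vert hh v (pl h (opp t))
  have hne : wv h v * ev (pl h (opp t)) (h v) ≠ 0 := mul_ne_zero hw nc
  have hl : ld D (wv h v * ev (pl h (opp t)) (h v)) = ld D (wv h v) + Hd h D t j := by
    rw [ld_mul D hw nc, Hd, hv]
  rcases he with he | he
  · rw [hb] at he
    rw [he] at hne hl
    exact ⟨hne, by linarith⟩
  · rw [hb] at he
    rw [he] at hne hl
    rw [ld_neg] at hl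
    exact ⟨fun h0 => hne (by rw [h0, neg_zero]), by linarith⟩

theorem Hd_0_0 {h : Hexa} (hh : IsHexa h) (D : Der) :
    eX h 2 4 ≠ 0 ∧ Hd h D 0 0 = ld D (eX h 2 4) - ld D (wv h 0) :=
  Hd_gen hh D 0 0 0 rfl _ (Or.inl (det4_a _ _ _ _))

theorem Hd_0_1 {h : Hexa} (hh : IsHexa h) (D : Der) :
    eX h 2 5 ≠ 0 ∧ Hd h D 0 1 = ld D (eX h 2 5) - ld D (wv h 4) :=
  Hd_gen hh D 0 1 4 rfl _ (Or.inl (det4_a _ _ _ _))

theorem Hd_0_2 {h : Hexa} (hh : IsHexa h) (D : Der) :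
    eX h 3 5 ≠ 0 ∧ Hd h D 0 2 = ld D (eX h 3 5) - ld D (wv h 6) :=
  Hd_gen hh D 0 2 6 rfl _ (Or.inl (det4_a _ _ _ _))

theorem Hd_0_3 {h : Hexa} (hh : IsHexa h) (D : Der) :
    eX h 3 4 ≠ 0 ∧ Hd h D 0 3 = ld D (eX h 3 4) - ld D (wv h 2) :=
  Hd_gen hh D 0 3 2 rfl _ (Or.inl (det4_a _ _ _ _))

theorem Hd_1_0 {h : Hexa} (hh : IsHexa h) (D : Der) :
    eX h 2 4 ≠ 0 ∧ Hd h D 1 0 = ld D (eX h 2 4) - ld D (wv h 1) :=
  Hd_gen hh D 1 0 1 rfl _ (Or.inr (det4_b _ _ _ _))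

theorem Hd_1_1 {h : Hexa} (hh : IsHexa h) (D : Der) :
    eX h 3 4 ≠ 0 ∧ Hd h D 1 1 = ld D (eX h 3 4) - ld D (wv h 3) :=
  Hd_gen hh D 1 1 3 rfl _ (Or.inr (det4_b _ _ _ _))

theorem Hd_1_2 {h : Hexa} (hh : IsHexa h) (D : Der) :
    eX h 3 5 ≠ 0 ∧ Hd h D 1 2 = ld D (eX h 3 5) - ld D (wv h 7) :=
  Hd_gen hh D 1 2 7 rfl _ (Or.inr (det4_b _ _ _ _))

theorem Hd_1_3 {h : Hexa} (hh : IsHexa h) (D : Der) :
    eX h 2 5 ≠ 0 ∧ Hd h D 1 3 = ld D (eX h 2 5) - ld D (wv h 5) :=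
  Hd_gen hh D 1 3 5 rfl _ (Or.inr (det4_b _ _ _ _))

theorem Hd_2_0 {h : Hexa} (hh : IsHexa h) (D : Der) :
    eY h 0 4 ≠ 0 ∧ Hd h D 2 0 = ld D (eY h 0 4) - ld D (wv h 0) :=
  Hd_gen hh D 2 0 0 rfl _ (Or.inr (det4_c _ _ _ _))

theorem Hd_2_1 {h : Hexa} (hh : IsHexa h) (D : Der) :
    eY h 1 4 ≠ 0 ∧ Hd h D 2 1 = ld D (eY h 1 4) - ld D (wv h 1) :=
  Hd_gen hh D 2 1 1 rfl _ (Or.inr (det4_c _ _ _ _))

theorem Hd_2_2 {h : Hexa} (hh : IsHexa h) (D : Der) :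
    eY h 1 5 ≠ 0 ∧ Hd h D 2 2 = ld D (eY h 1 5) - ld D (wv h 5) :=
  Hd_gen hh D 2 2 5 rfl _ (Or.inr (det4_c _ _ _ _))

theorem Hd_2_3 {h : Hexa} (hh : IsHexa h) (D : Der) :
    eY h 0 5 ≠ 0 ∧ Hd h D 2 3 = ld D (eY h 0 5) - ld D (wv h 4) :=
  Hd_gen hh D 2 3 4 rfl _ (Or.inr (det4_c _ _ _ _))

theorem Hd_3_0 {h : Hexa} (hh : IsHexa h) (D : Der) :
    eY h 0 4 ≠ 0 ∧ Hd h D 3 0 = ld D (eY h 0 4) - ld D (wv h 2) :=
  Hd_gen hh D 3 0 2 rfl _ (Or.inl (det4_d _ _ _ _))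

theorem Hd_3_1 {h : Hexa} (hh : IsHexa h) (D : Der) :
    eY h 0 5 ≠ 0 ∧ Hd h D 3 1 = ld D (eY h 0 5) - ld D (wv h 6) :=
  Hd_gen hh D 3 1 6 rfl _ (Or.inl (det4_d _ _ _ _))

theorem Hd_3_2 {h : Hexa} (hh : IsHexa h) (D : Der) :
    eY h 1 5 ≠ 0 ∧ Hd h D 3 2 = ld D (eY h 1 5) - ld D (wv h 7) :=
  Hd_gen hh D 3 2 7 rfl _ (Or.inl (det4_d _ _ _ _))

theorem Hd_3_3 {h : Hexa} (hh : IsHexa h) (D : Der) :
    eY h 1 4 ≠ 0 ∧ Hd h D 3 3 = ld D (eY h 1 4) - ld D (wv h 3) :=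
  Hd_gen hh D 3 3 3 rfl _ (Or.inl (det4_d _ _ _ _))

theorem Hd_4_0 {h : Hexa} (hh : IsHexa h) (D : Der) :
    eZ h 0 2 ≠ 0 ∧ Hd h D 4 0 = ld D (eZ h 0 2) - ld D (wv h 0) :=
  Hd_gen hh D 4 0 0 rfl _ (Or.inl (det4_e _ _ _ _))

theorem Hd_4_1 {h : Hexa} (hh : IsHexa h) (D : Der) :
    eZ h 0 3 ≠ 0 ∧ Hd h D 4 1 = ld D (eZ h 0 3) - ld D (wv h 2) :=
  Hd_gen hh D 4 1 2 rfl _ (Or.inl (det4_e _ _ _ _))

theorem Hd_4_2 {h : Hexa} (hh : IsHexa h) (D : Der) :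
    eZ h 1 3 ≠ 0 ∧ Hd h D 4 2 = ld D (eZ h 1 3) - ld D (wv h 3) :=
  Hd_gen hh D 4 2 3 rfl _ (Or.inl (det4_e _ _ _ _))

theorem Hd_4_3 {h : Hexa} (hh : IsHexa h) (D : Der) :
    eZ h 1 2 ≠ 0 ∧ Hd h D 4 3 = ld D (eZ h 1 2) - ld D (wv h 1) :=
  Hd_gen hh D 4 3 1 rfl _ (Or.inl (det4_e _ _ _ _))

theorem Hd_5_0 {h : Hexa} (hh : IsHexa h) (D : Der) :
    eZ h 0 2 ≠ 0 ∧ Hd h D 5 0 = ld D (eZ h 0 2) - ld D (wv h 4) :=
  Hd_gen hh D 5 0 4 rfl _ (Or.inr (det4_f _ _ _ _))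

theorem Hd_5_1 {h : Hexa} (hh : IsHexa h) (D : Der) :
    eZ h 1 2 ≠ 0 ∧ Hd h D 5 1 = ld D (eZ h 1 2) - ld D (wv h 5) :=
  Hd_gen hh D 5 1 5 rfl _ (Or.inr (det4_f _ _ _ _))

theorem Hd_5_2 {h : Hexa} (hh : IsHexa h) (D : Der) :
    eZ h 1 3 ≠ 0 ∧ Hd h D 5 2 = ld D (eZ h 1 3) - ld D (wv h 7) :=
  Hd_gen hh D 5 2 7 rfl _ (Or.inr (det4_f _ _ _ _))

theorem Hd_5_3 {h : Hexa} (hh : IsHexa h) (D : Der) :
    eZ h 0 3 ≠ 0 ∧ Hd h D 5 3 = ld D (eZ h 0 3) - ld D (wv h 6) :=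
  Hd_gen hh D 5 3 6 rfl _ (Or.inr (det4_f _ _ _ _))

theorem steinberg' (D E : Der) {x y q e : ℝ} (h : x + y = q * e) (hx : x ≠ 0) (hy : y ≠ 0)
    (he : e ≠ 0) :
    (ld D x * ld E y - ld D y * ld E x) +
      (ld D y * (ld E q + ld E e) - (ld D q + ld D e) * ld E y) +
      ((ld D q + ld D e) * ld E x - ld D x * (ld E q + ld E e)) = 0 := by
  by_cases hq : q = 0
  · have hxy : x = -y := by rw [hq, zero_mul] at h; linarith
    have h1 : ld D x = ld D y := by rw [hxy, ld_neg]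
    have h2 : ld E x = ld E y := by rw [hxy, ld_neg]
    rw [h1, h2]; ring
  · have := steinberg D E h hx hy
    rw [ld_mul D hq he, ld_mul E hq he] at this
    exact this

theorem st_24 {h : Hexa} (hh : IsHexa h) (D E : Der) :
    (((ld D (eY h 0 4) + ld D (eZ h 1 2)) * (ld E (eY h 1 4) + ld E (eZ h 0 2)) -
      (ld D (eY h 1 4) + ld D (eZ h 0 2)) * (ld E (eY h 0 4) + ld E (eZ h 1 2)))) +
    ((ld D (eY h 1 4) + ld D (eZ h 0 2)) * (ld E (qq h) + ld E (eX h 2 4)) -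
      (ld D (qq h) + ld D (eX h 2 4)) * (ld E (eY h 1 4) + ld E (eZ h 0 2))) +
    ((ld D (qq h) + ld D (eX h 2 4)) * (ld E (eY h 0 4) + ld E (eZ h 1 2)) -
      (ld D (eY h 0 4) + ld D (eZ h 1 2)) * (ld E (qq h) + ld E (eX h 2 4))) = 0 := by
  have n1 : eY h 0 4 ≠ 0 := (Hd_2_0 hh D).1
  have n2 : eZ h 1 2 ≠ 0 := (Hd_4_3 hh D).1
  have n3 : eY h 1 4 ≠ 0 := (Hd_2_1 hh D).1
  have n4 : eZ h 0 2 ≠ 0 := (Hd_4_0 hh D).1
  have n5 : eX h 2 4 ≠ 0 := (Hd_0_0 hh D).1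
  have hp : ((eY h 0 4 * eZ h 1 2)) + (-(eY h 1 4 * eZ h 0 2)) =
      qq h * eX h 2 4 := by
    have h1 := plucker (pl h 2) (pl h 4) (pl h 0) (pl h 1) (pl h 3) (pl h 5)
    rw [(show det4 (pl h 2) (pl h 4) (pl h 0) (pl h 1) = det4 (pl h 0) (pl h 1) (pl h 2) (pl h 4) from by simp only [det4, det3]; ring), (show det4 (pl h 2) (pl h 4) (pl h 3) (pl h 5) = -det4 (pl h 2) (pl h 3) (pl h 4) (pl h 5) from by simp only [det4, det3]; ring), (show det4 (pl h 2) (pl h 4) (pl h 0) (pl h 3) = -det4 (pl h 2) (pl h 3) (pl h 0) (pl h 4) from by simp only [det4, det3]; ring), (show det4 (pl h 2) (pl h 4) (pl h 1) (pl h 5) = det4 (pl h 4) (pl h 5) (pl h 1) (pl h 2) from by simp only [det4, det3]; ring), (show det4 (pl h 2) (pl h 4) (pl h 0) (pl h 5) = det4 (pl h 4) (pl h 5) (pl h 0) (pl h 2) from by simp only [det4, det3]; ring), (show det4 (pl h 2) (pl h 4) (pl h 1)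 (pl h 3) = -det4 (pl h 2) (pl h 3) (pl h 1) (pl h 4) from by simp only [det4, det3]; ring)] at h1
    simp only [eX, eY, eZ, qq]
    first
      | linear_combination h1
      | linear_combination (-1) * h1
  have h2 := steinberg' D E hp (by simp [n1, n2]) (by simp [n3, n4]) n5
  simp only [ld_neg, ld_mul D n1 n2, ld_mul E n1 n2, ld_mul D n3 n4, ld_mul E n3 n4] at h2
  exact h2

theorem st_25 {h : Hexa} (hh : IsHexa h) (D E : Der) :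
    (((ld D (eY h 0 5) + ld D (eZ h 1 2)) * (ld E (eY h 1 5) + ld E (eZ h 0 2)) -
      (ld D (eY h 1 5) + ld D (eZ h 0 2)) * (ld E (eY h 0 5) + ld E (eZ h 1 2)))) +
    ((ld D (eY h 1 5) + ld D (eZ h 0 2)) * (ld E (qq h) + ld E (eX h 2 5)) -
      (ld D (qq h) + ld D (eX h 2 5)) * (ld E (eY h 1 5) + ld E (eZ h 0 2))) +
    ((ld D (qq h) + ld D (eX h 2 5)) * (ld E (eY h 0 5) + ld E (eZ h 1 2)) -
      (ld D (eY h 0 5) + ld D (eZ h 1 2)) * (ld E (qq h) + ld E (eX h 2 5))) = 0 := by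
  have n1 : eY h 0 5 ≠ 0 := (Hd_2_3 hh D).1
  have n2 : eZ h 1 2 ≠ 0 := (Hd_4_3 hh D).1
  have n3 : eY h 1 5 ≠ 0 := (Hd_2_2 hh D).1
  have n4 : eZ h 0 2 ≠ 0 := (Hd_4_0 hh D).1
  have n5 : eX h 2 5 ≠ 0 := (Hd_0_1 hh D).1
  have hp : ((eY h 0 5 * eZ h 1 2)) + (-(eY h 1 5 * eZ h 0 2)) =
      qq h * eX h 2 5 := by
    have h1 := plucker (pl h 2) (pl h 5) (pl h 0) (pl h 1) (pl h 3) (pl h 4)
    rw [(show det4 (pl h 2) (pl h 5) (pl h 0) (pl h 1) = det4 (pl h 0) (pl h 1) (pl h 2) (pl h 5) from by simp only [det4, det3]; ring), (show det4 (pl h 2) (pl h 5) (pl h 3) (pl h 4) = det4 (pl h 2) (pl h 3) (pl h 4) (pl h 5) from by simp only [det4, det3]; ring), (show det4 (pl h 2) (pl h 5) (pl h 0) (pl h 3) = -det4 (pl h 2) (pl h 3) (pl h 0) (pl h 5) from by simp only [det4, det3]; ring), (show det4 (pl h 2) (pl h 5) (pl h 1) (pl h 4) = -det4 (pl h 4) (pl h 5) (pl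 h 1) (pl h 2) from by simp only [det4, det3]; ring), (show det4 (pl h 2) (pl h 5) (pl h 0) (pl h 4) = -det4 (pl h 4) (pl h 5) (pl h 0) (pl h 2) from by simp only [det4, det3]; ring), (show det4 (pl h 2) (pl h 5) (pl h 1) (pl h 3) = -det4 (pl h 2) (pl h 3) (pl h 1) (pl h 5) from by simp only [det4, det3]; ring)] at h1
    simp only [eX, eY, eZ, qq]
    first
      | linear_combination h1
      | linear_combination (-1) * h1
  have h2 := steinberg' D E hp (by simp [n1, n2]) (by simp [n3, n4]) n5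
  simp only [ld_neg, ld_mul D n1 n2, ld_mul E n1 n2, ld_mul D n3 n4, ld_mul E n3 n4] at h2
  exact h2

theorem st_34 {h : Hexa} (hh : IsHexa h) (D E : Der) :
    (((ld D (eY h 0 4) + ld D (eZ h 1 3)) * (ld E (eY h 1 4) + ld E (eZ h 0 3)) -
      (ld D (eY h 1 4) + ld D (eZ h 0 3)) * (ld E (eY h 0 4) + ld E (eZ h 1 3)))) +
    ((ld D (eY h 1 4) + ld D (eZ h 0 3)) * (ld E (qq h) + ld E (eX h 3 4)) -
      (ld D (qq h) + ld D (eX h 3 4)) * (ld E (eY h 1 4) + ld E (eZ h 0 3))) +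
    ((ld D (qq h) + ld D (eX h 3 4)) * (ld E (eY h 0 4) + ld E (eZ h 1 3)) -
      (ld D (eY h 0 4) + ld D (eZ h 1 3)) * (ld E (qq h) + ld E (eX h 3 4))) = 0 := by
  have n1 : eY h 0 4 ≠ 0 := (Hd_2_0 hh D).1
  have n2 : eZ h 1 3 ≠ 0 := (Hd_4_2 hh D).1
  have n3 : eY h 1 4 ≠ 0 := (Hd_2_1 hh D).1
  have n4 : eZ h 0 3 ≠ 0 := (Hd_4_1 hh D).1
  have n5 : eX h 3 4 ≠ 0 := (Hd_0_3 hh D).1
  have hp : ((eY h 0 4 * eZ h 1 3)) + (-(eY h 1 4 * eZ h 0 3)) =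
      qq h * eX h 3 4 := by
    have h1 := plucker (pl h 3) (pl h 4) (pl h 0) (pl h 1) (pl h 2) (pl h 5)
    rw [(show det4 (pl h 3) (pl h 4) (pl h 0) (pl h 1) = det4 (pl h 0) (pl h 1) (pl h 3) (pl h 4) from by simp only [det4, det3]; ring), (show det4 (pl h 3) (pl h 4) (pl h 2) (pl h 5) = det4 (pl h 2) (pl h 3) (pl h 4) (pl h 5) from by simp only [det4, det3]; ring), (show det4 (pl h 3) (pl h 4) (pl h 0) (pl h 2) = det4 (pl h 2) (pl h 3) (pl h 0) (pl h 4) from by simp only [det4, det3]; ring), (show det4 (pl h 3) (pl h 4) (pl h 1) (pl h 5) = det4 (pl h 4) (pl h 5) (pl h 1) (pl h 3) from by simp only [det4, det3]; ring), (show det4 (pl h 3) (pl h 4) (pl h 0) (pl h 5) = det4 (pl h 4) (pl h 5) (pl h 0) (pl h 3) from by simp only [det4, det3]; ring), (show det4 (pl h 3) (pl h 4) (pl h 1) (pl h 2) = det4 (pl h 2) (pl h 3) (pl h 1) (pl h 4) from by simp only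 [det4, det3]; ring)] at h1
    simp only [eX, eY, eZ, qq]
    first
      | linear_combination h1
      | linear_combination (-1) * h1
  have h2 := steinberg' D E hp (by simp [n1, n2]) (by simp [n3, n4]) n5
  simp only [ld_neg, ld_mul D n1 n2, ld_mul E n1 n2, ld_mul D n3 n4, ld_mul E n3 n4] at h2
  exact h2

theorem st_35 {h : Hexa} (hh : IsHexa h) (D E : Der) :
    (((ld D (eY h 0 5) + ld D (eZ h 1 3)) * (ld E (eY h 1 5) + ld E (eZ h 0 3)) -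
      (ld D (eY h 1 5) + ld D (eZ h 0 3)) * (ld E (eY h 0 5) + ld E (eZ h 1 3)))) +
    ((ld D (eY h 1 5) + ld D (eZ h 0 3)) * (ld E (qq h) + ld E (eX h 3 5)) -
      (ld D (qq h) + ld D (eX h 3 5)) * (ld E (eY h 1 5) + ld E (eZ h 0 3))) +
    ((ld D (qq h) + ld D (eX h 3 5)) * (ld E (eY h 0 5) + ld E (eZ h 1 3)) -
      (ld D (eY h 0 5) + ld D (eZ h 1 3)) * (ld E (qq h) + ld E (eX h 3 5))) = 0 := by
  have n1 : eY h 0 5 ≠ 0 := (Hd_2_3 hh D).1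
  have n2 : eZ h 1 3 ≠ 0 := (Hd_4_2 hh D).1
  have n3 : eY h 1 5 ≠ 0 := (Hd_2_2 hh D).1
  have n4 : eZ h 0 3 ≠ 0 := (Hd_4_1 hh D).1
  have n5 : eX h 3 5 ≠ 0 := (Hd_0_2 hh D).1
  have hp : ((eY h 0 5 * eZ h 1 3)) + (-(eY h 1 5 * eZ h 0 3)) =
      qq h * eX h 3 5 := by
    have h1 := plucker (pl h 3) (pl h 5) (pl h 0) (pl h 1) (pl h 2) (pl h 4)
    rw [(show det4 (pl h 3) (pl h 5) (pl h 0) (pl h 1) = det4 (pl h 0) (pl h 1) (pl h 3) (pl h 5) from by simp only [det4, det3]; ring), (show det4 (pl h 3) (pl h 5) (pl h 2) (pl h 4) = -det4 (pl h 2) (pl h 3) (pl h 4) (pl h 5) from by simp only [det4, det3]; ring), (show det4 (pl h 3) (pl h 5) (pl h 0) (pl h 2) = det4 (pl h 2) (pl h 3) (pl h 0) (pl h 5) from by simp only [det4, det3]; ring), (show det4 (pl h 3) (pl h 5) (pl h 1) (pl h 4) = -det4 (pl h 4) (pl h 5) (pl h 1) (pl h 3) from by simp only [det4, det3];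 ring), (show det4 (pl h 3) (pl h 5) (pl h 0) (pl h 4) = -det4 (pl h 4) (pl h 5) (pl h 0) (pl h 3) from by simp only [det4, det3]; ring), (show det4 (pl h 3) (pl h 5) (pl h 1) (pl h 2) = det4 (pl h 2) (pl h 3) (pl h 1) (pl h 5) from by simp only [det4, det3]; ring)] at h1
    simp only [eX, eY, eZ, qq]
    first
      | linear_combination h1
      | linear_combination (-1) * h1
  have h2 := steinberg' D E hp (by simp [n1, n2]) (by simp [n3, n4]) n5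
  simp only [ld_neg, ld_mul D n1 n2, ld_mul E n1 n2, ld_mul D n3 n4, ld_mul E n3 n4] at h2
  exact h2

theorem side_wt_0 {h : Hexa} (hh : IsHexa h) (D : Der) (t : Fin 6) :
    wtD D (outFace h (sideMark t 0)) = 2 * Hd h D t 0 - 2 * Hd h D t 1 := side_wt hh D t 0

theorem side_wt_1 {h : Hexa} (hh : IsHexa h) (D : Der) (t : Fin 6) :
    wtD D (outFace h (sideMark t 1)) = 2 * Hd h D t 1 - 2 * Hd h D t 2 := side_wt hh D t 1

theorem side_wt_2 {h : Hexa} (hh : IsHexa h) (D : Der) (t : Fin 6) :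
    wtD D (outFace h (sideMark t 2)) = 2 * Hd h D t 2 - 2 * Hd h D t 3 := side_wt hh D t 2

theorem side_wt_3 {h : Hexa} (hh : IsHexa h) (D : Der) (t : Fin 6) :
    wtD D (outFace h (sideMark t 3)) = 2 * Hd h D t 3 - 2 * Hd h D t 0 := side_wt hh D t 3

/-- The `E`-logarithmic derivative of the squared area of the triangle which omits the vertex `j` of the
face `s`. -/
noncomputable def La (h : Hexa) (E : Der) (s : Fin 6) (j : Fin 4) : ℝ :=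
  ld E (area2 (h (cubeFace s (j + 1))) (h (cubeFace s (j + 2))) (h (cubeFace s (j + 3))))

theorem t2_mark (h : Hexa) (E : Der) (f : P3 × P3 → ℝ) (s : Fin 6) (r : Fin 4) :
    t2 E f (outFace h (s, r)) = f (h (cubeFace s r), h (cubeFace s (r + 1))) * La h E s (r + 1) -
      f (h (cubeFace s (r + 3)), h (cubeFace s (r + 2))) * La h E s (r + 2) := by
  have p1 : ∀ p q r : P3, area2 q r p = area2 p q r := by
    intro p q r; simp only [area2, Pi.sub_apply]; ring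
  have p2 : ∀ p q r : P3, area2 p r q = area2 p q r := by
    intro p q r; simp only [area2, Pi.sub_apply]; ring
  have a1 : r + 1 + 1 = r + 2 := by revert r; decide
  have a2 : r + 1 + 2 = r + 3 := by revert r; decide
  have a3 : r + 1 + 3 = r := by revert r; decide
  have b1 : r + 2 + 1 = r + 3 := by revert r; decide
  have b2 : r + 2 + 2 = r := by revert r; decide
  have b3 : r + 2 + 3 = r + 1 := by revert r; decide
  simp only [t2, e1, e2, outFace, La, a1, a2, a3, b1, b2, b3]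
  rw [p2 (h (cubeFace s r)) (h (cubeFace s (r + 2))) (h (cubeFace s (r + 3))),
    p1 (h (cubeFace s r)) (h (cubeFace s (r + 2))) (h (cubeFace s (r + 3))),
    p1 (h (cubeFace s (r + 1))) (h (cubeFace s (r + 3))) (h (cubeFace s r)),
    p1 (h (cubeFace s r)) (h (cubeFace s (r + 1))) (h (cubeFace s (r + 3))),
    p2 (h (cubeFace s r)) (h (cubeFace s (r + 1))) (h (cubeFace s (r + 3)))]

theorem wt_mark (h : Hexa) (E : Der) (s : Fin 6) (r : Fin 4) :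
    wtD E (outFace h (s, r)) = La h E s (r + 1) - La h E s (r + 2) := by
  have := t2_mark h E (fun _ => 1) s r
  simp only [t2, one_mul] at this
  simp only [wtD]
  exact this

theorem core (xx24 xx25 xx34 xx35 xy04 xy05 xy14 xy15 xz02 xz03 xz12 xz13 xq yx24 yx25 yx34 yx35 yy04 yy05 yy14 yy15 yz02 yz03 yz12 yz13 yq w0 w1 w2 w3 w4 w5 w6 w7 W0 W1 W2 W3 W4 W5 W6 W7 S0 S1 S2 S3 S4 S5 K0 K1 K2 K3 K4 K5 : ℝ)
    (c24 : ((xy04 + xz12) * (yy14 + yz02) - (xy14 + xz02) * (yy04 + yz12)) + ((xy14 + xz02) * (yq + yx24) - (xq + xx24) * (yy14 + yz02)) + ((xq + xx24) * (yy04 + yz12) - (xy04 + xz12) * (yq + yx24)) = 0)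
    (c25 : ((xy05 + xz12) * (yy15 + yz02) - (xy15 + xz02) * (yy05 + yz12)) + ((xy15 + xz02) * (yq + yx25) - (xq + xx25) * (yy15 + yz02)) + ((xq + xx25) * (yy05 + yz12) - (xy05 + xz12) * (yq + yx25)) = 0)
    (c34 : ((xy04 + xz13) * (yy14 + yz03) - (xy14 + xz03) * (yy04 + yz13)) + ((xy14 + xz03) * (yq + yx34) - (xq + xx34) * (yy14 + yz03)) + ((xq + xx34) * (yy04 + yz13) - (xy04 + xz13) * (yq + yx34)) = 0)
    (c35 : ((xy05 + xz13) * (yy15 + yz03) - (xy15 + xz03) * (yy05 + yz13)) + ((xy15 + xz03) * (yq + yx35) - (xq + xx35) * (yy15 + yz03)) + ((xq + xx35) * (yy05 + yz13) - (xy05 + xz13) * (yq + yx35)) = 0)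
    : (((S5 + 2 * (xz02 - w4)) * (K0 - 2 * (yz02 + yy05 - W4)) - (S5 + 2 * (xz03 - w6)) * (K0 - 2 * (yz03 + yy05 - W6))) +
      ((S3 + 2 * (xy05 - w6)) * (K0 - 2 * (yz03 + yy05 - W6)) - (S3 + 2 * (xy04 - w2)) * (K0 - 2 * (yz03 + yy04 - W2))) +
      ((S4 + 2 * (xz03 - w2)) * (K0 - 2 * (yz03 + yy04 - W2)) - (S4 + 2 * (xz02 - w0)) * (K0 - 2 * (yz02 + yy04 - W0))) +
      ((S2 + 2 * (xy04 - w0)) * (K0 - 2 * (yz02 + yy04 - W0)) - (S2 + 2 * (xy05 - w4)) * (K0 - 2 * (yz02 + yy05 - W4)))) +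
    (((S3 + 2 * (xy14 - w3)) * (K1 - 2 * (yz13 + yy14 - W3)) - (S3 + 2 * (xy15 - w7)) * (K1 - 2 * (yz13 + yy15 - W7))) +
      ((S5 + 2 * (xz13 - w7)) * (K1 - 2 * (yz13 + yy15 - W7)) - (S5 + 2 * (xz12 - w5)) * (K1 - 2 * (yz12 + yy15 - W5))) +
      ((S2 + 2 * (xy15 - w5)) * (K1 - 2 * (yz12 + yy15 - W5)) - (S2 + 2 * (xy14 - w1)) * (K1 - 2 * (yz12 + yy14 - W1))) +
      ((S4 + 2 * (xz12 - w1)) * (K1 - 2 * (yz12 + yy14 - W1)) - (S4 + 2 * (xz13 - w3)) * (K1 - 2 * (yz13 + yy14 - W3)))) +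
    (((S1 + 2 * (xx24 - w1)) * (K2 - 2 * (yz12 + yx24 - W1)) - (S1 + 2 * (xx25 - w5)) * (K2 - 2 * (yz12 + yx25 - W5))) +
      ((S5 + 2 * (xz12 - w5)) * (K2 - 2 * (yz12 + yx25 - W5)) - (S5 + 2 * (xz02 - w4)) * (K2 - 2 * (yz02 + yx25 - W4))) +
      ((S0 + 2 * (xx25 - w4)) * (K2 - 2 * (yz02 + yx25 - W4)) - (S0 + 2 * (xx24 - w0)) * (K2 - 2 * (yz02 + yx24 - W0))) +
      ((S4 + 2 * (xz02 - w0)) * (K2 - 2 * (yz02 + yx24 - W0)) - (S4 + 2 * (xz12 - w1)) * (K2 - 2 * (yz12 + yx24 - W1)))) +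
    (((S5 + 2 * (xz03 - w6)) * (K3 - 2 * (yz03 + yx35 - W6)) - (S5 + 2 * (xz13 - w7)) * (K3 - 2 * (yz13 + yx35 - W7))) +
      ((S1 + 2 * (xx35 - w7)) * (K3 - 2 * (yz13 + yx35 - W7)) - (S1 + 2 * (xx34 - w3)) * (K3 - 2 * (yz13 + yx34 - W3))) +
      ((S4 + 2 * (xz13 - w3)) * (K3 - 2 * (yz13 + yx34 - W3)) - (S4 + 2 * (xz03 - w2)) * (K3 - 2 * (yz03 + yx34 - W2))) +
      ((S0 + 2 * (xx34 - w2)) * (K3 - 2 * (yz03 + yx34 - W2)) - (S0 + 2 * (xx35 - w6)) * (K3 - 2 * (yz03 + yx35 - W6)))) +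
    (((S3 + 2 * (xy04 - w2)) * (K4 - 2 * (yy04 + yx34 - W2)) - (S3 + 2 * (xy14 - w3)) * (K4 - 2 * (yy14 + yx34 - W3))) +
      ((S1 + 2 * (xx34 - w3)) * (K4 - 2 * (yy14 + yx34 - W3)) - (S1 + 2 * (xx24 - w1)) * (K4 - 2 * (yy14 + yx24 - W1))) +
      ((S2 + 2 * (xy14 - w1)) * (K4 - 2 * (yy14 + yx24 - W1)) - (S2 + 2 * (xy04 - w0)) * (K4 - 2 * (yy04 + yx24 - W0))) +
      ((S0 + 2 * (xx24 - w0)) * (K4 - 2 * (yy04 + yx24 - W0)) - (S0 + 2 * (xx34 - w2)) * (K4 - 2 * (yy04 + yx34 - W2)))) +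
    (((S1 + 2 * (xx25 - w5)) * (K5 - 2 * (yy15 + yx25 - W5)) - (S1 + 2 * (xx35 - w7)) * (K5 - 2 * (yy15 + yx35 - W7))) +
      ((S3 + 2 * (xy15 - w7)) * (K5 - 2 * (yy15 + yx35 - W7)) - (S3 + 2 * (xy05 - w6)) * (K5 - 2 * (yy05 + yx35 - W6))) +
      ((S0 + 2 * (xx35 - w6)) * (K5 - 2 * (yy05 + yx35 - W6)) - (S0 + 2 * (xx25 - w4)) * (K5 - 2 * (yy05 + yx25 - W4))) +
      ((S2 + 2 * (xy05 - w4)) * (K5 - 2 * (yy05 + yx25 - W4)) - (S2 + 2 * (xy15 - w5)) * (K5 - 2 * (yy15 + yx25 - W5)))) = 0 := by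
  linear_combination (-4) * c35 + 4 * c34 + 4 * c25 - 4 * c24

/-- Second order law of a cell. -/
theorem cell_law2 {h : Hexa} (hh : IsHexa h) (D E : Der) (f : P3 × P3 → ℝ)
    (hf : ∀ s, wtD D (outFace h s) = f (e2 (outFace h s)) - f (e1 (outFace h s))) :
    ∑ s, t2 E f (outFace h s) = 0 := by
  obtain ⟨S0, hS0⟩ : ∃ S : ℝ, S = f (h 1, h 0) - 2 * Hd h D 0 0 := ⟨_, rfl⟩
  obtain ⟨S1, hS1⟩ : ∃ S : ℝ, S = f (h 0, h 1) - 2 * Hd h D 1 0 := ⟨_, rfl⟩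
  obtain ⟨S2, hS2⟩ : ∃ S : ℝ, S = f (h 2, h 0) - 2 * Hd h D 2 0 := ⟨_, rfl⟩
  obtain ⟨S3, hS3⟩ : ∃ S : ℝ, S = f (h 0, h 2) - 2 * Hd h D 3 0 := ⟨_, rfl⟩
  obtain ⟨S4, hS4⟩ : ∃ S : ℝ, S = f (h 4, h 0) - 2 * Hd h D 4 0 := ⟨_, rfl⟩
  obtain ⟨S5, hS5⟩ : ∃ S : ℝ, S = f (h 0, h 4) - 2 * Hd h D 5 0 := ⟨_, rfl⟩
  have g0_0 : 2 * Hd h D 0 0 - 2 * Hd h D 0 1 = f (h 1, h 0) - f (h 5, h 4) := by
    rw [← side_wt_0 hh D 0]; exact hf (2, 2)
  have g0_1 : 2 * Hd h D 0 1 - 2 * Hd h D 0 2 = f (h 5, h 4) - f (h 7, h 6) := by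
    rw [← side_wt_1 hh D 0]; exact hf (5, 2)
  have g0_2 : 2 * Hd h D 0 2 - 2 * Hd h D 0 3 = f (h 7, h 6) - f (h 3, h 2) := by
    rw [← side_wt_2 hh D 0]; exact hf (3, 3)
  have g1_0 : 2 * Hd h D 1 0 - 2 * Hd h D 1 1 = f (h 0, h 1) - f (h 2, h 3) := by
    rw [← side_wt_0 hh D 1]; exact hf (4, 1)
  have g1_1 : 2 * Hd h D 1 1 - 2 * Hd h D 1 2 = f (h 2, h 3) - f (h 6, h 7) := by
    rw [← side_wt_1 hh D 1]; exact hf (3, 1)
  have g1_2 : 2 * Hd h D 1 2 - 2 * Hd h D 1 3 = f (h 6, h 7) - f (h 4, h 5) := by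
    rw [← side_wt_2 hh D 1]; exact hf (5, 0)
  have g2_0 : 2 * Hd h D 2 0 - 2 * Hd h D 2 1 = f (h 2, h 0) - f (h 3, h 1) := by
    rw [← side_wt_0 hh D 2]; exact hf (4, 2)
  have g2_1 : 2 * Hd h D 2 1 - 2 * Hd h D 2 2 = f (h 3, h 1) - f (h 7, h 5) := by
    rw [← side_wt_1 hh D 2]; exact hf (1, 2)
  have g2_2 : 2 * Hd h D 2 2 - 2 * Hd h D 2 3 = f (h 7, h 5) - f (h 6, h 4) := by
    rw [← side_wt_2 hh D 2]; exact hf (5, 3)
  have g3_0 : 2 * Hd h D 3 0 - 2 * Hd h D 3 1 = f (h 0, h 2) - f (h 4, h 6) := by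
    rw [← side_wt_0 hh D 3]; exact hf (0, 1)
  have g3_1 : 2 * Hd h D 3 1 - 2 * Hd h D 3 2 = f (h 4, h 6) - f (h 5, h 7) := by
    rw [← side_wt_1 hh D 3]; exact hf (5, 1)
  have g3_2 : 2 * Hd h D 3 2 - 2 * Hd h D 3 3 = f (h 5, h 7) - f (h 1, h 3) := by
    rw [← side_wt_2 hh D 3]; exact hf (1, 0)
  have g4_0 : 2 * Hd h D 4 0 - 2 * Hd h D 4 1 = f (h 4, h 0) - f (h 6, h 2) := by
    rw [← side_wt_0 hh D 4]; exact hf (0, 2)
  have g4_1 : 2 * Hd h D 4 1 - 2 * Hd h D 4 2 = f (h 6, h 2) - f (h 7, h 3) := by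
    rw [← side_wt_1 hh D 4]; exact hf (3, 2)
  have g4_2 : 2 * Hd h D 4 2 - 2 * Hd h D 4 3 = f (h 7, h 3) - f (h 5, h 1) := by
    rw [← side_wt_2 hh D 4]; exact hf (1, 3)
  have g5_0 : 2 * Hd h D 5 0 - 2 * Hd h D 5 1 = f (h 0, h 4) - f (h 1, h 5) := by
    rw [← side_wt_0 hh D 5]; exact hf (2, 1)
  have g5_1 : 2 * Hd h D 5 1 - 2 * Hd h D 5 2 = f (h 1, h 5) - f (h 3, h 7) := by
    rw [← side_wt_1 hh D 5]; exact hf (1, 1)
  have g5_2 : 2 * Hd h D 5 2 - 2 * Hd h D 5 3 = f (h 3, h 7) - f (h 2, h 6) := by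
    rw [← side_wt_2 hh D 5]; exact hf (3, 0)
  have F0_0 : f (h 1, h 0) = S0 + 2 * (ld D (eX h 2 4) - ld D (wv h 0)) := by
    rw [← (Hd_0_0 hh D).2]; linarith
  have F0_1 : f (h 5, h 4) = S0 + 2 * (ld D (eX h 2 5) - ld D (wv h 4)) := by
    rw [← (Hd_0_1 hh D).2]; linarith
  have F0_2 : f (h 7, h 6) = S0 + 2 * (ld D (eX h 3 5) - ld D (wv h 6)) := by
    rw [← (Hd_0_2 hh D).2]; linarith
  have F0_3 : f (h 3, h 2) = S0 + 2 * (ld D (eX h 3 4) - ld D (wv h 2)) := by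
    rw [← (Hd_0_3 hh D).2]; linarith
  have F1_0 : f (h 0, h 1) = S1 + 2 * (ld D (eX h 2 4) - ld D (wv h 1)) := by
    rw [← (Hd_1_0 hh D).2]; linarith
  have F1_1 : f (h 2, h 3) = S1 + 2 * (ld D (eX h 3 4) - ld D (wv h 3)) := by
    rw [← (Hd_1_1 hh D).2]; linarith
  have F1_2 : f (h 6, h 7) = S1 + 2 * (ld D (eX h 3 5) - ld D (wv h 7)) := by
    rw [← (Hd_1_2 hh D).2]; linarith
  have F1_3 : f (h 4, h 5) = S1 + 2 * (ld D (eX h 2 5) - ld D (wv h 5)) := by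
    rw [← (Hd_1_3 hh D).2]; linarith
  have F2_0 : f (h 2, h 0) = S2 + 2 * (ld D (eY h 0 4) - ld D (wv h 0)) := by
    rw [← (Hd_2_0 hh D).2]; linarith
  have F2_1 : f (h 3, h 1) = S2 + 2 * (ld D (eY h 1 4) - ld D (wv h 1)) := by
    rw [← (Hd_2_1 hh D).2]; linarith
  have F2_2 : f (h 7, h 5) = S2 + 2 * (ld D (eY h 1 5) - ld D (wv h 5)) := by
    rw [← (Hd_2_2 hh D).2]; linarith
  have F2_3 : f (h 6, h 4) = S2 + 2 * (ld D (eY h 0 5) - ld D (wv h 4)) := by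
    rw [← (Hd_2_3 hh D).2]; linarith
  have F3_0 : f (h 0, h 2) = S3 + 2 * (ld D (eY h 0 4) - ld D (wv h 2)) := by
    rw [← (Hd_3_0 hh D).2]; linarith
  have F3_1 : f (h 4, h 6) = S3 + 2 * (ld D (eY h 0 5) - ld D (wv h 6)) := by
    rw [← (Hd_3_1 hh D).2]; linarith
  have F3_2 : f (h 5, h 7) = S3 + 2 * (ld D (eY h 1 5) - ld D (wv h 7)) := by
    rw [← (Hd_3_2 hh D).2]; linarith
  have F3_3 : f (h 1, h 3) = S3 + 2 * (ld D (eY h 1 4) - ld D (wv h 3)) := by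
    rw [← (Hd_3_3 hh D).2]; linarith
  have F4_0 : f (h 4, h 0) = S4 + 2 * (ld D (eZ h 0 2) - ld D (wv h 0)) := by
    rw [← (Hd_4_0 hh D).2]; linarith
  have F4_1 : f (h 6, h 2) = S4 + 2 * (ld D (eZ h 0 3) - ld D (wv h 2)) := by
    rw [← (Hd_4_1 hh D).2]; linarith
  have F4_2 : f (h 7, h 3) = S4 + 2 * (ld D (eZ h 1 3) - ld D (wv h 3)) := by
    rw [← (Hd_4_2 hh D).2]; linarith
  have F4_3 : f (h 5, h 1) = S4 + 2 * (ld D (eZ h 1 2) - ld D (wv h 1)) := by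
    rw [← (Hd_4_3 hh D).2]; linarith
  have F5_0 : f (h 0, h 4) = S5 + 2 * (ld D (eZ h 0 2) - ld D (wv h 4)) := by
    rw [← (Hd_5_0 hh D).2]; linarith
  have F5_1 : f (h 1, h 5) = S5 + 2 * (ld D (eZ h 1 2) - ld D (wv h 5)) := by
    rw [← (Hd_5_1 hh D).2]; linarith
  have F5_2 : f (h 3, h 7) = S5 + 2 * (ld D (eZ h 1 3) - ld D (wv h 7)) := by
    rw [← (Hd_5_2 hh D).2]; linarith
  have F5_3 : f (h 2, h 6) = S5 + 2 * (ld D (eZ h 0 3) - ld D (wv h 6)) := by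
    rw [← (Hd_5_3 hh D).2]; linarith
  obtain ⟨K0, hK0⟩ : ∃ K : ℝ, K = La h E 0 0 + 2 * (ld E (eZ h 0 2) + ld E (eY h 0 4) - ld E (wv h 0)) := ⟨_, rfl⟩
  obtain ⟨K1, hK1⟩ : ∃ K : ℝ, K = La h E 1 0 + 2 * (ld E (eZ h 1 2) + ld E (eY h 1 4) - ld E (wv h 1)) := ⟨_, rfl⟩
  obtain ⟨K2, hK2⟩ : ∃ K : ℝ, K = La h E 2 0 + 2 * (ld E (eZ h 0 2) + ld E (eX h 2 4) - ld E (wv h 0)) := ⟨_, rfl⟩
  obtain ⟨K3, hK3⟩ : ∃ K : ℝ, K = La h E 3 0 + 2 * (ld E (eZ h 0 3) + ld E (eX h 3 4) - ld E (wv h 2)) := ⟨_, rfl⟩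
  obtain ⟨K4, hK4⟩ : ∃ K : ℝ, K = La h E 4 0 + 2 * (ld E (eY h 0 4) + ld E (eX h 2 4) - ld E (wv h 0)) := ⟨_, rfl⟩
  obtain ⟨K5, hK5⟩ : ∃ K : ℝ, K = La h E 5 0 + 2 * (ld E (eY h 0 5) + ld E (eX h 2 5) - ld E (wv h 4)) := ⟨_, rfl⟩
  have k0_0 : La h E 0 0 - La h E 0 1 = 2 * Hd h E 2 3 - 2 * Hd h E 2 0 := by
    rw [← side_wt_3 hh E 2]; exact (wt_mark h E 0 3).symm
  have k0_1 : La h E 0 1 - La h E 0 2 = 2 * Hd h E 5 3 - 2 * Hd h E 5 0 := by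
    rw [← side_wt_3 hh E 5]; exact (wt_mark h E 0 0).symm
  have k0_2 : La h E 0 2 - La h E 0 3 = 2 * Hd h E 3 0 - 2 * Hd h E 3 1 := by
    rw [← side_wt_0 hh E 3]; exact (wt_mark h E 0 1).symm
  have k1_0 : La h E 1 0 - La h E 1 1 = 2 * Hd h E 4 2 - 2 * Hd h E 4 3 := by
    rw [← side_wt_2 hh E 4]; exact (wt_mark h E 1 3).symm
  have k1_1 : La h E 1 1 - La h E 1 2 = 2 * Hd h E 3 2 - 2 * Hd h E 3 3 := by
    rw [← side_wt_2 hh E 3]; exact (wt_mark h E 1 0).symm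
  have k1_2 : La h E 1 2 - La h E 1 3 = 2 * Hd h E 5 1 - 2 * Hd h E 5 2 := by
    rw [← side_wt_1 hh E 5]; exact (wt_mark h E 1 1).symm
  have k2_0 : La h E 2 0 - La h E 2 1 = 2 * Hd h E 4 3 - 2 * Hd h E 4 0 := by
    rw [← side_wt_3 hh E 4]; exact (wt_mark h E 2 3).symm
  have k2_1 : La h E 2 1 - La h E 2 2 = 2 * Hd h E 1 3 - 2 * Hd h E 1 0 := by
    rw [← side_wt_3 hh E 1]; exact (wt_mark h E 2 0).symm
  have k2_2 : La h E 2 2 - La h E 2 3 = 2 * Hd h E 5 0 - 2 * Hd h E 5 1 := by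
    rw [← side_wt_0 hh E 5]; exact (wt_mark h E 2 1).symm
  have k3_0 : La h E 3 0 - La h E 3 1 = 2 * Hd h E 0 2 - 2 * Hd h E 0 3 := by
    rw [← side_wt_2 hh E 0]; exact (wt_mark h E 3 3).symm
  have k3_1 : La h E 3 1 - La h E 3 2 = 2 * Hd h E 5 2 - 2 * Hd h E 5 3 := by
    rw [← side_wt_2 hh E 5]; exact (wt_mark h E 3 0).symm
  have k3_2 : La h E 3 2 - La h E 3 3 = 2 * Hd h E 1 1 - 2 * Hd h E 1 2 := by
    rw [← side_wt_1 hh E 1]; exact (wt_mark h E 3 1).symm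
  have k4_0 : La h E 4 0 - La h E 4 1 = 2 * Hd h E 0 3 - 2 * Hd h E 0 0 := by
    rw [← side_wt_3 hh E 0]; exact (wt_mark h E 4 3).symm
  have k4_1 : La h E 4 1 - La h E 4 2 = 2 * Hd h E 3 3 - 2 * Hd h E 3 0 := by
    rw [← side_wt_3 hh E 3]; exact (wt_mark h E 4 0).symm
  have k4_2 : La h E 4 2 - La h E 4 3 = 2 * Hd h E 1 0 - 2 * Hd h E 1 1 := by
    rw [← side_wt_0 hh E 1]; exact (wt_mark h E 4 1).symm
  have k5_0 : La h E 5 0 - La h E 5 1 = 2 * Hd h E 2 2 - 2 * Hd h E 2 3 := by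
    rw [← side_wt_2 hh E 2]; exact (wt_mark h E 5 3).symm
  have k5_1 : La h E 5 1 - La h E 5 2 = 2 * Hd h E 1 2 - 2 * Hd h E 1 3 := by
    rw [← side_wt_2 hh E 1]; exact (wt_mark h E 5 0).symm
  have k5_2 : La h E 5 2 - La h E 5 3 = 2 * Hd h E 3 1 - 2 * Hd h E 3 2 := by
    rw [← side_wt_1 hh E 3]; exact (wt_mark h E 5 1).symm
  have L0_0 : La h E 0 0 = K0 - 2 * (ld E (eZ h 0 2) + ld E (eY h 0 4) - ld E (wv h 0)) := by
    linarith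
  have L0_1 : La h E 0 1 = K0 - 2 * (ld E (eZ h 0 2) + ld E (eY h 0 5) - ld E (wv h 4)) := by
    have := (Hd_2_0 hh E).2
    have := (Hd_2_3 hh E).2
    linarith
  have L0_2 : La h E 0 2 = K0 - 2 * (ld E (eZ h 0 3) + ld E (eY h 0 5) - ld E (wv h 6)) := by
    have := (Hd_2_0 hh E).2
    have := (Hd_2_3 hh E).2
    have := (Hd_5_0 hh E).2
    have := (Hd_5_3 hh E).2
    linarith
  have L0_3 : La h E 0 3 = K0 - 2 * (ld E (eZ h 0 3) + ld E (eY h 0 4) - ld E (wv h 2)) := by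
    have := (Hd_2_0 hh E).2
    have := (Hd_2_3 hh E).2
    have := (Hd_3_0 hh E).2
    have := (Hd_3_1 hh E).2
    have := (Hd_5_0 hh E).2
    have := (Hd_5_3 hh E).2
    linarith
  have L1_0 : La h E 1 0 = K1 - 2 * (ld E (eZ h 1 2) + ld E (eY h 1 4) - ld E (wv h 1)) := by
    linarith
  have L1_1 : La h E 1 1 = K1 - 2 * (ld E (eZ h 1 3) + ld E (eY h 1 4) - ld E (wv h 3)) := by
    have := (Hd_4_2 hh E).2
    have := (Hd_4_3 hh E).2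
    linarith
  have L1_2 : La h E 1 2 = K1 - 2 * (ld E (eZ h 1 3) + ld E (eY h 1 5) - ld E (wv h 7)) := by
    have := (Hd_3_2 hh E).2
    have := (Hd_3_3 hh E).2
    have := (Hd_4_2 hh E).2
    have := (Hd_4_3 hh E).2
    linarith
  have L1_3 : La h E 1 3 = K1 - 2 * (ld E (eZ h 1 2) + ld E (eY h 1 5) - ld E (wv h 5)) := by
    have := (Hd_3_2 hh E).2
    have := (Hd_3_3 hh E).2
    have := (Hd_4_2 hh E).2
    have := (Hd_4_3 hh E).2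
    have := (Hd_5_1 hh E).2
    have := (Hd_5_2 hh E).2
    linarith
  have L2_0 : La h E 2 0 = K2 - 2 * (ld E (eZ h 0 2) + ld E (eX h 2 4) - ld E (wv h 0)) := by
    linarith
  have L2_1 : La h E 2 1 = K2 - 2 * (ld E (eZ h 1 2) + ld E (eX h 2 4) - ld E (wv h 1)) := by
    have := (Hd_4_0 hh E).2
    have := (Hd_4_3 hh E).2
    linarith
  have L2_2 : La h E 2 2 = K2 - 2 * (ld E (eZ h 1 2) + ld E (eX h 2 5) - ld E (wv h 5)) := by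
    have := (Hd_1_0 hh E).2
    have := (Hd_1_3 hh E).2
    have := (Hd_4_0 hh E).2
    have := (Hd_4_3 hh E).2
    linarith
  have L2_3 : La h E 2 3 = K2 - 2 * (ld E (eZ h 0 2) + ld E (eX h 2 5) - ld E (wv h 4)) := by
    have := (Hd_1_0 hh E).2
    have := (Hd_1_3 hh E).2
    have := (Hd_4_0 hh E).2
    have := (Hd_4_3 hh E).2
    have := (Hd_5_0 hh E).2
    have := (Hd_5_1 hh E).2
    linarith
  have L3_0 : La h E 3 0 = K3 - 2 * (ld E (eZ h 0 3) + ld E (eX h 3 4) - ld E (wv h 2)) := by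
    linarith
  have L3_1 : La h E 3 1 = K3 - 2 * (ld E (eZ h 0 3) + ld E (eX h 3 5) - ld E (wv h 6)) := by
    have := (Hd_0_2 hh E).2
    have := (Hd_0_3 hh E).2
    linarith
  have L3_2 : La h E 3 2 = K3 - 2 * (ld E (eZ h 1 3) + ld E (eX h 3 5) - ld E (wv h 7)) := by
    have := (Hd_0_2 hh E).2
    have := (Hd_0_3 hh E).2
    have := (Hd_5_2 hh E).2
    have := (Hd_5_3 hh E).2
    linarith
  have L3_3 : La h E 3 3 = K3 - 2 * (ld E (eZ h 1 3) + ld E (eX h 3 4) - ld E (wv h 3)) := by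
    have := (Hd_0_2 hh E).2
    have := (Hd_0_3 hh E).2
    have := (Hd_1_1 hh E).2
    have := (Hd_1_2 hh E).2
    have := (Hd_5_2 hh E).2
    have := (Hd_5_3 hh E).2
    linarith
  have L4_0 : La h E 4 0 = K4 - 2 * (ld E (eY h 0 4) + ld E (eX h 2 4) - ld E (wv h 0)) := by
    linarith
  have L4_1 : La h E 4 1 = K4 - 2 * (ld E (eY h 0 4) + ld E (eX h 3 4) - ld E (wv h 2)) := by
    have := (Hd_0_0 hh E).2
    have := (Hd_0_3 hh E).2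
    linarith
  have L4_2 : La h E 4 2 = K4 - 2 * (ld E (eY h 1 4) + ld E (eX h 3 4) - ld E (wv h 3)) := by
    have := (Hd_0_0 hh E).2
    have := (Hd_0_3 hh E).2
    have := (Hd_3_0 hh E).2
    have := (Hd_3_3 hh E).2
    linarith
  have L4_3 : La h E 4 3 = K4 - 2 * (ld E (eY h 1 4) + ld E (eX h 2 4) - ld E (wv h 1)) := by
    have := (Hd_0_0 hh E).2
    have := (Hd_0_3 hh E).2
    have := (Hd_1_0 hh E).2
    have := (Hd_1_1 hh E).2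
    have := (Hd_3_0 hh E).2
    have := (Hd_3_3 hh E).2
    linarith
  have L5_0 : La h E 5 0 = K5 - 2 * (ld E (eY h 0 5) + ld E (eX h 2 5) - ld E (wv h 4)) := by
    linarith
  have L5_1 : La h E 5 1 = K5 - 2 * (ld E (eY h 1 5) + ld E (eX h 2 5) - ld E (wv h 5)) := by
    have := (Hd_2_2 hh E).2
    have := (Hd_2_3 hh E).2
    linarith
  have L5_2 : La h E 5 2 = K5 - 2 * (ld E (eY h 1 5) + ld E (eX h 3 5) - ld E (wv h 7)) := by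
    have := (Hd_1_2 hh E).2
    have := (Hd_1_3 hh E).2
    have := (Hd_2_2 hh E).2
    have := (Hd_2_3 hh E).2
    linarith
  have L5_3 : La h E 5 3 = K5 - 2 * (ld E (eY h 0 5) + ld E (eX h 3 5) - ld E (wv h 6)) := by
    have := (Hd_1_2 hh E).2
    have := (Hd_1_3 hh E).2
    have := (Hd_2_2 hh E).2
    have := (Hd_2_3 hh E).2
    have := (Hd_3_1 hh E).2
    have := (Hd_3_2 hh E).2
    linarith
  rw [Fintype.sum_prod_type]
  simp only [Fin.sum_univ_succ, Fin.sum_univ_zero]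
  have T : ∀ s r, t2 E f (outFace h (s, r)) = f (h (cubeFace s r), h (cubeFace s (r + 1))) * La h E s (r + 1) -
      f (h (cubeFace s (r + 3)), h (cubeFace s (r + 2))) * La h E s (r + 2) := t2_mark h E f
  have T0_0 : t2 E f (outFace h (0, 0)) = f (h 0, h 4) * La h E 0 1 - f (h 2, h 6) * La h E 0 2 := t2_mark h E f 0 0
  rw [F5_0, F5_3, L0_1, L0_2] at T0_0
  have T0_1 : t2 E f (outFace h (0, 1)) = f (h 4, h 6) * La h E 0 2 - f (h 0, h 2) * La h E 0 3 := t2_mark h E f 0 1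
  rw [F3_1, F3_0, L0_2, L0_3] at T0_1
  have T0_2 : t2 E f (outFace h (0, 2)) = f (h 6, h 2) * La h E 0 3 - f (h 4, h 0) * La h E 0 0 := t2_mark h E f 0 2
  rw [F4_1, F4_0, L0_3, L0_0] at T0_2
  have T0_3 : t2 E f (outFace h (0, 3)) = f (h 2, h 0) * La h E 0 0 - f (h 6, h 4) * La h E 0 1 := t2_mark h E f 0 3
  rw [F2_0, F2_3, L0_0, L0_1] at T0_3
  have T1_0 : t2 E f (outFace h (1, 0)) = f (h 1, h 3) * La h E 1 1 - f (h 5, h 7) * La h E 1 2 := t2_mark h E f 1 0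
  rw [F3_3, F3_2, L1_1, L1_2] at T1_0
  have T1_1 : t2 E f (outFace h (1, 1)) = f (h 3, h 7) * La h E 1 2 - f (h 1, h 5) * La h E 1 3 := t2_mark h E f 1 1
  rw [F5_2, F5_1, L1_2, L1_3] at T1_1
  have T1_2 : t2 E f (outFace h (1, 2)) = f (h 7, h 5) * La h E 1 3 - f (h 3, h 1) * La h E 1 0 := t2_mark h E f 1 2
  rw [F2_2, F2_1, L1_3, L1_0] at T1_2
  have T1_3 : t2 E f (outFace h (1, 3)) = f (h 5, h 1) * La h E 1 0 - f (h 7, h 3) * La h E 1 1 := t2_mark h E f 1 3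
  rw [F4_3, F4_2, L1_0, L1_1] at T1_3
  have T2_0 : t2 E f (outFace h (2, 0)) = f (h 0, h 1) * La h E 2 1 - f (h 4, h 5) * La h E 2 2 := t2_mark h E f 2 0
  rw [F1_0, F1_3, L2_1, L2_2] at T2_0
  have T2_1 : t2 E f (outFace h (2, 1)) = f (h 1, h 5) * La h E 2 2 - f (h 0, h 4) * La h E 2 3 := t2_mark h E f 2 1
  rw [F5_1, F5_0, L2_2, L2_3] at T2_1
  have T2_2 : t2 E f (outFace h (2, 2)) = f (h 5, h 4) * La h E 2 3 - f (h 1, h 0) * La h E 2 0 := t2_mark h E f 2 2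
  rw [F0_1, F0_0, L2_3, L2_0] at T2_2
  have T2_3 : t2 E f (outFace h (2, 3)) = f (h 4, h 0) * La h E 2 0 - f (h 5, h 1) * La h E 2 1 := t2_mark h E f 2 3
  rw [F4_0, F4_3, L2_0, L2_1] at T2_3
  have T3_0 : t2 E f (outFace h (3, 0)) = f (h 2, h 6) * La h E 3 1 - f (h 3, h 7) * La h E 3 2 := t2_mark h E f 3 0
  rw [F5_3, F5_2, L3_1, L3_2] at T3_0
  have T3_1 : t2 E f (outFace h (3, 1)) = f (h 6, h 7) * La h E 3 2 - f (h 2, h 3) * La h E 3 3 := t2_mark h E f 3 1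
  rw [F1_2, F1_1, L3_2, L3_3] at T3_1
  have T3_2 : t2 E f (outFace h (3, 2)) = f (h 7, h 3) * La h E 3 3 - f (h 6, h 2) * La h E 3 0 := t2_mark h E f 3 2
  rw [F4_2, F4_1, L3_3, L3_0] at T3_2
  have T3_3 : t2 E f (outFace h (3, 3)) = f (h 3, h 2) * La h E 3 0 - f (h 7, h 6) * La h E 3 1 := t2_mark h E f 3 3
  rw [F0_3, F0_2, L3_0, L3_1] at T3_3
  have T4_0 : t2 E f (outFace h (4, 0)) = f (h 0, h 2) * La h E 4 1 - f (h 1, h 3) * La h E 4 2 := t2_mark h E f 4 0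
  rw [F3_0, F3_3, L4_1, L4_2] at T4_0
  have T4_1 : t2 E f (outFace h (4, 1)) = f (h 2, h 3) * La h E 4 2 - f (h 0, h 1) * La h E 4 3 := t2_mark h E f 4 1
  rw [F1_1, F1_0, L4_2, L4_3] at T4_1
  have T4_2 : t2 E f (outFace h (4, 2)) = f (h 3, h 1) * La h E 4 3 - f (h 2, h 0) * La h E 4 0 := t2_mark h E f 4 2
  rw [F2_1, F2_0, L4_3, L4_0] at T4_2
  have T4_3 : t2 E f (outFace h (4, 3)) = f (h 1, h 0) * La h E 4 0 - f (h 3, h 2) * La h E 4 1 := t2_mark h E f 4 3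
  rw [F0_0, F0_3, L4_0, L4_1] at T4_3
  have T5_0 : t2 E f (outFace h (5, 0)) = f (h 4, h 5) * La h E 5 1 - f (h 6, h 7) * La h E 5 2 := t2_mark h E f 5 0
  rw [F1_3, F1_2, L5_1, L5_2] at T5_0
  have T5_1 : t2 E f (outFace h (5, 1)) = f (h 5, h 7) * La h E 5 2 - f (h 4, h 6) * La h E 5 3 := t2_mark h E f 5 1
  rw [F3_2, F3_1, L5_2, L5_3] at T5_1
  have T5_2 : t2 E f (outFace h (5, 2)) = f (h 7, h 6) * La h E 5 3 - f (h 5, h 4) * La h E 5 0 := t2_mark h E f 5 2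
  rw [F0_2, F0_1, L5_3, L5_0] at T5_2
  have T5_3 : t2 E f (outFace h (5, 3)) = f (h 6, h 4) * La h E 5 0 - f (h 7, h 5) * La h E 5 1 := t2_mark h E f 5 3
  rw [F2_3, F2_2, L5_0, L5_1] at T5_3
  have c35 := st_35 hh D E
  have c34 := st_34 hh D E
  have c25 := st_25 hh D E
  have c24 := st_24 hh D E
  have total : (t2 E f (outFace h (0, 0)) + t2 E f (outFace h (0, 1)) + t2 E f (outFace h (0, 2)) + t2 E f (outFace h (0, 3))) + (t2 E f (outFace h (1, 0)) + t2 E f (outFace h (1, 1)) + t2 E f (outFace h (1, 2)) + t2 E f (outFace h (1, 3))) + (t2 E f (outFace h (2, 0)) + t2 E f (outFace h (2, 1)) + t2 E f (outFace h (2, 2)) + t2 E f (outFace h (2, 3))) + (t2 E f (outFace h (3, 0)) + t2 E f (outFace h (3, 1)) + t2 E f (outFace h (3, 2)) + t2 E f (outFace h (3, 3))) + (t2 E f (outFace h (4, 0)) + t2 E f (outFace h (4, 1)) + t2 E f (outFace h (4, 2)) + t2 E f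 (outFace h (4, 3))) + (t2 E f (outFace h (5, 0)) + t2 E f (outFace h (5, 1)) + t2 E f (outFace h (5, 2)) + t2 E f (outFace h (5, 3))) = 0 := by
    rw [T0_0, T0_1, T0_2, T0_3, T1_0, T1_1, T1_2, T1_3, T2_0, T2_1, T2_2, T2_3, T3_0, T3_1, T3_2, T3_3, T4_0, T4_1, T4_2, T4_3, T5_0, T5_1, T5_2, T5_3]
    exact core (ld D (eX h 2 4)) (ld D (eX h 2 5)) (ld D (eX h 3 4)) (ld D (eX h 3 5)) (ld D (eY h 0 4)) (ld D (eY h 0 5)) (ld D (eY h 1 4)) (ld D (eY h 1 5)) (ld D (eZ h 0 2)) (ld D (eZ h 0 3)) (ld D (eZ h 1 2)) (ld D (eZ h 1 3)) (ld D (qq h)) (ld E (eX h 2 4)) (ld E (eX h 2 5)) (ld E (eX h 3 4)) (ld E (eX h 3 5)) (ld E (eY h 0 4)) (ld E (eY h 0 5)) (ld E (eY h 1 4)) (ld E (eY h 1 5)) (ld E (eZ h 0 2)) (ld E (eZ h 0 3)) (ld E (eZ h 1 2)) (ld E (eZ h 1 3)) (ld E (qq h)) (ld D (wv h 0)) (ld D (wv h 1)) (ld D (wv h 2)) (ld D (wv h 3)) (ld D (wv h 4)) (ld D (wv h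 5)) (ld D (wv h 6)) (ld D (wv h 7)) (ld E (wv h 0)) (ld E (wv h 1)) (ld E (wv h 2)) (ld E (wv h 3)) (ld E (wv h 4)) (ld E (wv h 5)) (ld E (wv h 6)) (ld E (wv h 7)) S0 S1 S2 S3 S4 S5 K0 K1 K2 K3 K4 K5
      c24 c25 c34 c35
  simp only [add_zero]
  refine Eq.trans ?_ total
  simp only [Fin.succ_zero_eq_one, Fin.succ_one_eq_two, ← add_assoc]
  rfl

end Pool.Agent.Lib.MP_2847c2_co.GB
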