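import Pool.Agent.Lib.MP_2847c2_co.GB.MeshDefs
import Pool.Agent.Lib.MP_2847c2_co.GB.Bracket

/-!
# The planes of the faces of a hexahedron
-/

namespace Pool.Agent.Lib.MP_2847c2_co.GB

open Pool.Agent.Lib.MP_2847c2_co

/-- The neighbour of the vertex `cubeFace s r` which is not in the face `s`. -/
def ob : Fin 6 → Fin 4 → Fin 8 :=
  ![![1, 5, 7, 3], ![0, 2, 6, 4], ![2, 3, 7, 6], ![0, 4, 5, 1], ![4, 6, 7, 5], ![0, 1, 3, 2]]

/-- The opposite face. -/
def opp : Fin 6 → Fin 6 := ![1, 0, 3, 2, 5, 4]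

/-- A normal of the face number `s`. -/
def nrm (h : Hexa) (s : Fin 6) : P3 :=
  crs (h (cubeFace s 1) - h (cubeFace s 0)) (h (cubeFace s 3) - h (cubeFace s 0))

/-- The plane of the face number `s`. -/
def pl (h : Hexa) (s : Fin 6) : Pl := (nrm h s, - dot (nrm h s) (h (cubeFace s 0)))

theorem ev_sub (N : Pl) (x y : P3) : ev N x - ev N y = dot N.1 (x - y) := by
  simp only [ev, dot, Pi.sub_apply]; ring

theorem ev_pl (h : Hexa) (s : Fin 6) (x : P3) : ev (pl h s) x = dot (nrm h s) (x - h (cubeFace s 0)) := by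
  simp only [ev, pl, dot, Pi.sub_apply]; ring

theorem ev_zero {h : Hexa} (hh : IsHexa h) (s : Fin 6) (r : Fin 4) :
    ev (pl h s) (h (cubeFace s r)) = 0 := by
  rw [ev_pl]
  fin_cases r
  · simp only [dot, Pi.sub_apply, Fin.zero_eta]; ring
  · simp only [dot, nrm, crs, Pi.sub_apply, Fin.mk_one, Matrix.cons_val_zero, Matrix.cons_val_one,
      Matrix.cons_val]
    ring
  · have hp : det3 (h (cubeFace s 1) - h (cubeFace s 0)) (h (cubeFace s 2) - h (cubeFace s 0))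
        (h (cubeFace s 3) - h (cubeFace s 0)) = 0 := hh.planar (s, 0)
    simp only [det3, Pi.sub_apply] at hp
    simp only [dot, nrm, crs, Pi.sub_apply, Fin.reduceFinMk, Matrix.cons_val_zero,
      Matrix.cons_val_one, Matrix.cons_val]
    linear_combination (-1) * hp
  · simp only [dot, nrm, crs, Pi.sub_apply, Fin.reduceFinMk, Matrix.cons_val_zero,
      Matrix.cons_val_one, Matrix.cons_val]
    ring

theorem corner' {h : Hexa} (hh : IsHexa h) (s : Fin 6) (r : Fin 4) :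
    det3 (h (cubeFace s (r + 1)) - h (cubeFace s r)) (h (cubeFace s (r + 3)) - h (cubeFace s r))
      (h (ob s r) - h (cubeFace s r)) ≠ 0 := by
  have key : ∀ a b c v : P3, ∀ x y z : P3, det3 (x - v) (y - v) (z - v) ≠ 0 →
      ((a, b, c) = (x, y, z) ∨ (a, b, c) = (y, z, x) ∨ (a, b, c) = (z, x, y) ∨
       (a, b, c) = (y, x, z) ∨ (a, b, c) = (x, z, y) ∨ (a, b, c) = (z, y, x)) →
      det3 (a - v) (b - v) (c - v) ≠ 0 := by
    intro a b c v x y z hd hor he
    apply hd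
    rcases hor with e | e | e | e | e | e <;>
    · simp only [Prod.mk.injEq] at e
      obtain ⟨rfl, rfl, rfl⟩ := e
      simp only [det3] at he ⊢
      first
        | linear_combination he
        | linear_combination (-1) * he
  have hc := hh.corner
  have hdec : ∀ (s : Fin 6) (r : Fin 4),
      let v := cubeFace s r
      let T := (cubeFace s (r + 1), cubeFace s (r + 3), ob s r)
      T = (cubeNbr v 0, cubeNbr v 1, cubeNbr v 2) ∨ T = (cubeNbr v 1, cubeNbr v 2, cubeNbr v 0) ∨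
      T = (cubeNbr v 2, cubeNbr v 0, cubeNbr v 1) ∨ T = (cubeNbr v 1, cubeNbr v 0, cubeNbr v 2) ∨
      T = (cubeNbr v 0, cubeNbr v 2, cubeNbr v 1) ∨ T = (cubeNbr v 2, cubeNbr v 1, cubeNbr v 0) := by
    decide
  refine key _ _ _ _ _ _ _ (hc (cubeFace s r)) ?_
  have h1 := hdec s r
  simp only [Prod.mk.injEq] at h1 ⊢
  rcases h1 with ⟨e1, e2, e3⟩ | ⟨e1, e2, e3⟩ | ⟨e1, e2, e3⟩ | ⟨e1, e2, e3⟩ | ⟨e1, e2, e3⟩ |
    ⟨e1, e2, e3⟩ <;> rw [e1, e2, e3] <;> simp

theorem nrm_ne {h : Hexa} (hh : IsHexa h) (s : Fin 6) : dot (nrm h s) (nrm h s) ≠ 0 := by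
  intro h0
  have hz : nrm h s 0 = 0 ∧ nrm h s 1 = 0 ∧ nrm h s 2 = 0 := by
    simp only [dot] at h0
    refine ⟨?_, ?_, ?_⟩ <;>
      nlinarith [sq_nonneg (nrm h s 0), sq_nonneg (nrm h s 1), sq_nonneg (nrm h s 2)]
  have hc := corner' hh s 0
  apply hc
  rw [det3_eq]
  have e : crs (h (cubeFace s (0 + 1)) - h (cubeFace s 0)) (h (cubeFace s (0 + 3)) - h (cubeFace s 0))
      = nrm h s := rfl
  rw [e]
  simp [dot, hz.1, hz.2.1, hz.2.2]

theorem ev_ne {h : Hexa} (hh : IsHexa h) (s : Fin 6) (r : Fin 4) :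
    ev (pl h s) (h (ob s r)) ≠ 0 := by
  have e : ev (pl h s) (h (ob s r)) = dot (nrm h s) (h (ob s r) - h (cubeFace s r)) := by
    have := ev_sub (pl h s) (h (ob s r)) (h (cubeFace s r))
    rw [ev_zero hh, sub_zero] at this
    exact this
  rw [e]
  refine dot_ne_zero ?_ ?_ (nrm_ne hh s) (corner' hh s r)
  · have := ev_sub (pl h s) (h (cubeFace s (r + 1))) (h (cubeFace s r))
    rw [ev_zero hh, ev_zero hh, sub_zero] at this
    exact this.symm
  · have := ev_sub (pl h s) (h (cubeFace s (r + 3))) (h (cubeFace s r))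
    rw [ev_zero hh, ev_zero hh, sub_zero] at this
    exact this.symm

/-- The side of a marked face: `(a, d)` lies in the face `opp t`, `(b, c)` in the face `t`. -/
theorem side_spec : ∀ (t : Fin 6) (j : Fin 4),
    cubeFace (sideMark t j).1 (sideMark t j).2 = ob t (j + 1) ∧
    cubeFace (sideMark t j).1 ((sideMark t j).2 + 1) = cubeFace t (j + 1) ∧
    cubeFace (sideMark t j).1 ((sideMark t j).2 + 2) = cubeFace t j ∧
    cubeFace (sideMark t j).1 ((sideMark t j).2 + 3) = ob t j ∧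
    (∃ i, cubeFace (opp t) i = ob t (j + 1) ∧ ob (opp t) i = cubeFace t (j + 1)) ∧
    (∃ i, cubeFace (opp t) i = ob t j ∧ ob (opp t) i = cubeFace t j) := by
  decide

/-- The height of the vertex `cubeFace t j` over the opposite face `opp t`. -/
noncomputable def Hd (h : Hexa) (D : Der) (t : Fin 6) (j : Fin 4) : ℝ :=
  ld D (ev (pl h (opp t)) (h (cubeFace t j)))

theorem side_wt {h : Hexa} (hh : IsHexa h) (D : Der) (t : Fin 6) (j : Fin 4) :
    wtD D (outFace h (sideMark t j)) = 2 * Hd h D t j - 2 * Hd h D t (j + 1) := by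
  obtain ⟨e1, e2, e3, e4, ⟨i, i1, i2⟩, ⟨k, k1, k2⟩⟩ := side_spec t j
  set s := (sideMark t j).1 with hs
  set r := (sideMark t j).2 with hr
  have hq : outFace h (sideMark t j) =
      (h (ob t (j + 1)), h (cubeFace t (j + 1)), h (cubeFace t j), h (ob t j)) := by
    simp only [outFace]
    rw [← hs, ← hr, e1, e2, e3, e4]
  have hpl : Planar (h (ob t (j + 1)), h (cubeFace t (j + 1)), h (cubeFace t j), h (ob t j)) := by
    rw [← hq]; exact hh.planar _
  have za : ev (pl h (opp t)) (h (ob t (j + 1))) = 0 := by rw [← i1]; exact ev_zero hh _ _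
  have zd : ev (pl h (opp t)) (h (ob t j)) = 0 := by rw [← k1]; exact ev_zero hh _ _
  have nb : ev (pl h (opp t)) (h (cubeFace t (j + 1))) ≠ 0 := by rw [← i2]; exact ev_ne hh _ _
  have nc : ev (pl h (opp t)) (h (cubeFace t j)) ≠ 0 := by rw [← k2]; exact ev_ne hh _ _
  have sb := ev_sub (pl h (opp t)) (h (cubeFace t (j + 1))) (h (ob t (j + 1)))
  have sc := ev_sub (pl h (opp t)) (h (cubeFace t j)) (h (ob t (j + 1)))
  have sd := ev_sub (pl h (opp t)) (h (ob t j)) (h (ob t (j + 1)))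
  rw [za, sub_zero] at sb sc
  rw [za, zd, sub_zero] at sd
  have rel := area_rel (n := (pl h (opp t)).1) sd.symm (by rw [← sb]; exact nb) hpl
  rw [← sb, ← sc] at rel
  have hab : area2 (h (ob t (j + 1))) (h (ob t j)) (h (cubeFace t (j + 1))) ≠ 0 := by
    have hc := corner' hh s r
    rw [e1, e2, e4] at hc
    apply area2_ne_zero (n := h (ob s r) - h (ob t (j + 1)))
    intro e
    apply hc
    simp only [det3] at e ⊢
    linear_combination e
  have hac : area2 (h (ob t (j + 1))) (h (ob t j)) (h (cubeFace t j)) ≠ 0 := by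
    intro e
    rw [e, zero_mul] at rel
    rcases mul_eq_zero.mp rel.symm with e | e
    · exact hab e
    · exact nc (by simpa using e)
  have l := congrArg (ld D) rel
  rw [ld_mul D hac (pow_ne_zero 2 nb), ld_mul D hab (pow_ne_zero 2 nc), ld_sq, ld_sq] at l
  rw [hq]
  simp only [wtD, Hd]
  linarith

theorem cell_closed {h : Hexa} (hh : IsHexa h) (D : Der) (t : Fin 6) :
    ∑ j, wtD D (outFace h (sideMark t j)) = 0 := by
  rw [Fin.sum_univ_four]
  simp only [side_wt hh D]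
  have e1 : (0 : Fin 4) + 1 = 1 := rfl
  have e2 : (1 : Fin 4) + 1 = 2 := rfl
  have e3 : (2 : Fin 4) + 1 = 3 := rfl
  have e4 : (3 : Fin 4) + 1 = 0 := rfl
  rw [e1, e2, e3, e4]
  ring

/-- The three faces at a vertex. -/
def xf : Fin 8 → Fin 6 := ![0, 1, 0, 1, 0, 1, 0, 1]
def yf : Fin 8 → Fin 6 := ![2, 2, 3, 3, 2, 2, 3, 3]
def zf : Fin 8 → Fin 6 := ![4, 4, 4, 4, 5, 5, 5, 5]

/-- The determinant of the normals at a vertex. -/
def wv (h : Hexa) (v : Fin 8) : ℝ := det3 (nrm h (xf v)) (nrm h (yf v)) (nrm h (zf v))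

theorem vert_spec : ∀ v : Fin 8,
    ((∃ i, cubeFace (xf v) i = v ∧ ob (xf v) i = cubeNbr v 0) ∧
      (∃ i, cubeFace (xf v) i = cubeNbr v 1) ∧ (∃ i, cubeFace (xf v) i = cubeNbr v 2)) ∧
    ((∃ i, cubeFace (yf v) i = v ∧ ob (yf v) i = cubeNbr v 1) ∧
      (∃ i, cubeFace (yf v) i = cubeNbr v 0) ∧ (∃ i, cubeFace (yf v) i = cubeNbr v 2)) ∧
    ((∃ i, cubeFace (zf v) i = v ∧ ob (zf v) i = cubeNbr v 2) ∧
      (∃ i, cubeFace (zf v) i = cubeNbr v 0) ∧ (∃ i, cubeFace (zf v) i = cubeNbr v 1)) := by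
  decide

theorem det3_mul (n1 n2 n3 e1 e2 e3 : P3) (h12 : dot n1 e2 = 0) (h13 : dot n1 e3 = 0)
    (h21 : dot n2 e1 = 0) (h23 : dot n2 e3 = 0) (h31 : dot n3 e1 = 0) (h32 : dot n3 e2 = 0) :
    det3 n1 n2 n3 * det3 e1 e2 e3 = dot n1 e1 * dot n2 e2 * dot n3 e3 := by
  have key : det3 n1 n2 n3 * det3 e1 e2 e3 =
      dot n1 e1 * (dot n2 e2 * dot n3 e3 - dot n2 e3 * dot n3 e2) -
      dot n1 e2 * (dot n2 e1 * dot n3 e3 - dot n2 e3 * dot n3 e1) +
      dot n1 e3 * (dot n2 e1 * dot n3 e2 - dot n2 e2 * dot n3 e1) := by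
    simp only [det3, dot]; ring
  rw [key, h12, h13, h21, h23, h31, h32]
  ring

theorem wv_ne {h : Hexa} (hh : IsHexa h) (v : Fin 8) : wv h v ≠ 0 := by
  obtain ⟨⟨⟨i1, a1, a2⟩, ⟨i2, a3⟩, ⟨i3, a4⟩⟩, ⟨⟨j1, b1, b2⟩, ⟨j2, b3⟩, ⟨j3, b4⟩⟩,
    ⟨⟨k1, c1, c2⟩, ⟨k2, c3⟩, ⟨k3, c4⟩⟩⟩ := vert_spec v
  have zero : ∀ (s : Fin 6) (i j : Fin 4) (w : Fin 8), cubeFace s i = v → cubeFace s j = w →
      dot (nrm h s) (h w - h v) = 0 := by
    intro s i j w hi hj
    have := ev_sub (pl h s) (h w) (h v)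
    rw [← hi, ← hj, ev_zero hh, ev_zero hh, sub_zero] at this
    rw [← hi, ← hj]
    exact this.symm
  have nz : ∀ (s : Fin 6) (i : Fin 4) (w : Fin 8), cubeFace s i = v → ob s i = w →
      dot (nrm h s) (h w - h v) ≠ 0 := by
    intro s i w hi hj
    have := ev_sub (pl h s) (h w) (h v)
    rw [← hi, ← hj, ev_zero hh, sub_zero] at this
    rw [← hi, ← hj]
    have h2 := ev_ne hh s i
    rw [this] at h2
    exact h2
  have hm := det3_mul (nrm h (xf v)) (nrm h (yf v)) (nrm h (zf v)) (h (cubeNbr v 0) - h v)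
    (h (cubeNbr v 1) - h v) (h (cubeNbr v 2) - h v) (zero _ i1 i2 _ a1 a3) (zero _ i1 i3 _ a1 a4)
    (zero _ j1 j2 _ b1 b3) (zero _ j1 j3 _ b1 b4) (zero _ k1 k2 _ c1 c3) (zero _ k1 k3 _ c1 c4)
  intro e
  have e' : det3 (nrm h (xf v)) (nrm h (yf v)) (nrm h (zf v)) = 0 := e
  rw [e', zero_mul] at hm
  have := mul_ne_zero (mul_ne_zero (nz _ i1 _ a1 a2) (nz _ j1 _ b1 b2)) (nz _ k1 _ c1 c2)
  exact this hm.symm

end Pool.Agent.Lib.MP_2847c2_co.GB
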