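import Pool.Agent.Lib.MP_2847c2_co.GB.Mesh

/-!
# The criterion for the genus
-/

namespace Pool.Agent.Lib.MP_2847c2_co.GB

open Pool.Agent.Lib.MP_2847c2_co

private theorem M2_app {n : ℕ} (D : Fin n → Der) (c : Fin n → ℝ) (x : ℝ) :
    (∑ j, c j • D j) x = ∑ j, c j * D j x := by
  have h : (Derivation.coeFnAddMonoidHom (∑ j, c j • D j)) x = ∑ j, c j * D j x := by
    rw [map_sum, Finset.sum_apply]
    rfl
  exact h

private theorem M2_wt {n : ℕ} (D : Fin n → Der) (c : Fin n → ℝ) (q : Quad) :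
    wtD (∑ j, c j • D j) q = ∑ j, c j * wtD (D j) q := by
  simp only [wtD, ld, M2_app, Finset.sum_div, ← Finset.sum_sub_distrib]
  refine Finset.sum_congr rfl fun j _ => ?_
  ring

/-- **Criterion.** ROW M2. Linear map `Ψ : (Fin n → ℝ) → (ι × (Fin 6 × Fin 4) → ℝ)`, `Ψ c = fun p => wtD (∑ j, c j • D j) (outFace (C p.1) p.2)`; `ld (∑ c_j D_j) x = ∑ c_j ld (D_j) x`,
so it is linear. `Ψ c ∈ Cl C B` (`wtD_mem`; the hypothesis on the periods is linear in `D`, use `h1`; or: `Ψ c = ∑ c_j Ψ(e_j)` and `Cl` is a submodule). If `Ψ c ∈ Ex C` with primitive `f`, then by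
`mesh_law2` `∑_k t2 (E i) f (B k) = 0` and by `h2` (every `B k` is an outer face of a cell, `hm.bdry`) `c i * ω i = 0`, so `c = 0`. So `Ψ` is injective, `range Ψ ⊓ Ex C = ⊥`, `range Ψ ⊔ Ex C ≤ Cl C B` (`ex_le`),
`n + finrank (Ex C) = finrank (range Ψ ⊔ Ex C) ≤ finrank (Cl C B)` (`Submodule.finrank_sup_add_finrank_inf_eq`, `Submodule.finrank_mono`). -/
theorem genus_criterion {ι κ : Type} [Fintype ι] [Fintype κ] {C : ι → Hexa} {B : κ → Quad}
    (hm : IsMesh C B) (n : ℕ) (D E : Fin n → Der) (ω : Fin n → ℝ) (hω : ∀ i, ω i ≠ 0)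
    (h1 : ∀ i, ∀ g : P3 × P3 → ℝ, (∀ k, g (e1 (B k)) = g (e2 (B k))) →
      ∑ k, g (e1 (B k)) * wtD (D i) (B k) = 0)
    (h2 : ∀ (c : Fin n → ℝ) (f : P3 × P3 → ℝ),
      (∀ k, wtD (∑ j, c j • D j) (B k) = f (e2 (B k)) - f (e1 (B k))) →
      ∀ i, ∑ k, t2 (E i) f (B k) = c i * ω i) :
    n ≤ genus2 C B := by
  classical
  obtain ⟨v, hv⟩ : ∃ v : Fin n → (ι × (Fin 6 × Fin 4) → ℝ),
      v = fun j p => wtD (D j) (outFace (C p.1) p.2) := ⟨_, rfl⟩
  obtain ⟨Ψ, hΨ⟩ : ∃ Ψ : (Fin n → ℝ) →ₗ[ℝ] (ι × (Fin 6 × Fin 4) → ℝ),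
      Ψ = Fintype.linearCombination ℝ v := ⟨_, rfl⟩
  have hΨa : ∀ c, Ψ c = ∑ j, c j • v j := fun c => by
    rw [hΨ, Fintype.linearCombination_apply]
  have hΨp : ∀ c p, Ψ c p = wtD (∑ j, c j • D j) (outFace (C p.1) p.2) := by
    intro c p
    rw [hΨa, Finset.sum_apply, M2_wt]
    refine Finset.sum_congr rfl fun j _ => ?_
    rw [hv]
    rfl
  have hvm : ∀ j, v j ∈ Cl C B := by
    intro j
    rw [hv]
    exact wtD_mem hm (D j) (h1 j)
  have hr : LinearMap.range Ψ ≤ Cl C B := by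
    rintro x ⟨c, rfl⟩
    rw [hΨa]
    exact Submodule.sum_mem _ fun j _ => Submodule.smul_mem _ _ (hvm j)
  have hex : ∀ c, Ψ c ∈ Ex C → c = 0 := by
    intro c hc
    obtain ⟨f, hf⟩ := hc
    have hf' : ∀ p : ι × (Fin 6 × Fin 4), wtD (∑ j, c j • D j) (outFace (C p.1) p.2) =
        f (e2 (outFace (C p.1) p.2)) - f (e1 (outFace (C p.1) p.2)) := by
      intro p
      rw [← hΨp]
      exact hf p
    funext i
    have h3 := mesh_law2 hm (∑ j, c j • D j) (E i) f hf'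
    have h4 := h2 c f (by
      intro k
      obtain ⟨p, hp⟩ := hm.bdry k
      have h5 := hf' p
      rwa [hp] at h5) i
    rw [h3] at h4
    exact (mul_eq_zero.1 h4.symm).resolve_right (hω i)
  have hinj : Function.Injective Ψ := by
    rw [injective_iff_map_eq_zero]
    intro c hc
    refine hex c ?_
    rw [hc]
    exact Submodule.zero_mem _
  have hinf : LinearMap.range Ψ ⊓ Ex C = ⊥ := by
    rw [Submodule.eq_bot_iff]
    rintro x ⟨⟨c, rfl⟩, hx⟩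
    rw [hex c hx, map_zero]
  have h5 := Submodule.finrank_sup_add_finrank_inf_eq (LinearMap.range Ψ) (Ex C)
  rw [hinf, finrank_bot, LinearMap.finrank_range_of_inj hinj, Module.finrank_fin_fun] at h5
  have h6 : Module.finrank ℝ ↥(LinearMap.range Ψ ⊔ Ex C) ≤ Module.finrank ℝ ↥(Cl C B) :=
    Submodule.finrank_mono (sup_le hr (ex_le hm))
  unfold genus2
  omega

end Pool.Agent.Lib.MP_2847c2_co.GB
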