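import Pool.Agent.Lib.MP_2847c2_co.GB.Ld

/-!
# Derivations of `ℝ` with prescribed values
-/

namespace Pool.Agent.Lib.MP_2847c2_co.GB

open scoped IntermediateField.algebraAdjoinAdjoin in
/-- `ℝ` is formally smooth over the polynomial ring generated by an algebraically independent
family. -/
private theorem Der_smooth {σ : Type} (v : σ → ℝ) :
    Algebra.FormallySmooth (Algebra.adjoin ℚ (Set.range v)) ℝ := by
  have h1 : Algebra.FormallySmooth (Algebra.adjoin ℚ (Set.range v))
      (IntermediateField.adjoin ℚ (Set.range v)) :=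
    .of_isLocalization (nonZeroDivisors _)
  have h2 : Algebra.FormallySmooth (IntermediateField.adjoin ℚ (Set.range v)) ℝ := by
    obtain ⟨s, hs⟩ := exists_isTranscendenceBasis (IntermediateField.adjoin ℚ (Set.range v)) ℝ
    have h3 : Algebra.IsAlgebraic (IntermediateField.adjoin
        (IntermediateField.adjoin ℚ (Set.range v)) (Set.range ((↑) : s → ℝ))) ℝ :=
      hs.isAlgebraic_field
    have h4 : Algebra.IsSeparable (IntermediateField.adjoin
        (IntermediateField.adjoin ℚ (Set.range v)) (Set.range ((↑) : s → ℝ))) ℝ :=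
      inferInstance
    exact .of_algebraicIndependent_of_isSeparable hs.1
  exact .comp _ (IntermediateField.adjoin ℚ (Set.range v)) _

/-- Lifting along a nilpotent extension, for ring homomorphisms. -/
private theorem Der_lift {A B : Type} [CommRing A] [CommRing B] [Algebra A ℝ]
    [Algebra.FormallySmooth A ℝ] (g : B →+* ℝ) (hg : Function.Surjective g)
    (hk : IsNilpotent (RingHom.ker g)) (φ : A →+* B) (hφ : ∀ x, g (φ x) = algebraMap A ℝ x) :
    ∃ L : ℝ →+* B, (∀ x, g (L x) = x) ∧ ∀ y : A, L (algebraMap A ℝ y) = φ y := by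
  let _ : Algebra A B := φ.toAlgebra
  let g' : B →ₐ[A] ℝ := { g with commutes' := fun x => hφ x }
  refine ⟨(Algebra.FormallySmooth.liftOfSurjective (AlgHom.id A ℝ) g' hg hk).toRingHom, ?_, ?_⟩
  · intro x
    exact Algebra.FormallySmooth.liftOfSurjective_apply (AlgHom.id A ℝ) g' hg hk x
  · intro y
    exact (Algebra.FormallySmooth.liftOfSurjective (AlgHom.id A ℝ) g' hg hk).commutes y

/-- Derivations of `ℝ` take arbitrary values on an algebraically independent family. ROW D. Extend `v` to a transcendence basis (`exists_isTranscendenceBasis_superset` or similar; prescribe `0` on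
the new elements), `A0 = Algebra.adjoin ℚ (range v)` is a polynomial ring (`hv.aevalEquiv`), `K = IntermediateField.adjoin ℚ (range v)` is its fraction field (a localization, formally etale), `ℝ` is algebraic and
separable over `K` (formally etale, `Algebra.FormallyEtale.of_isSeparable`), see `Mathlib/RingTheory/Smooth/Field.lean`. So `ℝ` is formally etale (smooth) over `A0`; take the algebra homomorphism
`A0 → TrivSqZeroExt ℝ ℝ`, `v i ↦ v i + a i ε`, lift `ℝ → ℝ = TrivSqZeroExt ℝ ℝ / (ε)` to `ℝ → TrivSqZeroExt ℝ ℝ` over `A0` (`Algebra.FormallySmooth.lift`, `Algebra.FormallyEtale`), the second component is the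
derivation. (Alternatively by Zorn: a maximal subfield `F ⊇ ℚ(v)` with a derivation `F → ℝ`; or `MvPolynomial.mkDerivation` + extension to the fraction field and to algebraic elements.) -/
theorem exists_der {σ : Type} (v : σ → ℝ) (hv : AlgebraicIndependent ℚ v) (a : σ → ℝ) :
    ∃ D : Der, ∀ i, D (v i) = a i := by
  have hs : Algebra.FormallySmooth (Algebra.adjoin ℚ (Set.range v)) ℝ := Der_smooth v
  let g : TrivSqZeroExt ℝ ℝ →ₐ[ℚ] ℝ := TrivSqZeroExt.fstHom ℚ ℝ ℝ
  have hg : Function.Surjective (g : TrivSqZeroExt ℝ ℝ →+* ℝ) := fun x =>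
    ⟨TrivSqZeroExt.inl x, rfl⟩
  have hk : IsNilpotent (RingHom.ker (g : TrivSqZeroExt ℝ ℝ →+* ℝ)) := by
    have h : RingHom.ker (g : TrivSqZeroExt ℝ ℝ →+* ℝ) = TrivSqZeroExt.kerIdeal ℝ ℝ := by
      ext x
      rfl
    rw [h]
    exact ⟨2, TrivSqZeroExt.kerIdeal_sq ℝ ℝ⟩
  let φ' : MvPolynomial σ ℚ →ₐ[ℚ] TrivSqZeroExt ℝ ℝ :=
    MvPolynomial.aeval (fun i => (TrivSqZeroExt.inl (v i) + TrivSqZeroExt.inr (a i)))
  let φ : Algebra.adjoin ℚ (Set.range v) →ₐ[ℚ] TrivSqZeroExt ℝ ℝ :=
    φ'.comp (hv.aevalEquiv.symm : Algebra.adjoin ℚ (Set.range v) →ₐ[ℚ] MvPolynomial σ ℚ)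
  have hgφ : g.comp φ' = MvPolynomial.aeval v := by
    apply MvPolynomial.algHom_ext
    intro i
    simp [g, φ']
  have hφ : ∀ x : Algebra.adjoin ℚ (Set.range v),
      (g : TrivSqZeroExt ℝ ℝ →+* ℝ) ((φ : Algebra.adjoin ℚ (Set.range v) →+* TrivSqZeroExt ℝ ℝ) x) =
        algebraMap (Algebra.adjoin ℚ (Set.range v)) ℝ x := by
    intro x
    have h1 : g (φ' (hv.aevalEquiv.symm x)) = MvPolynomial.aeval v (hv.aevalEquiv.symm x) := by
      rw [← hgφ]
      rfl
    have h2 : algebraMap (Algebra.adjoin ℚ (Set.range v)) ℝ (hv.aevalEquiv (hv.aevalEquiv.symm x)) =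
        MvPolynomial.aeval v (hv.aevalEquiv.symm x) := hv.algebraMap_aevalEquiv _
    rw [AlgEquiv.apply_symm_apply] at h2
    rw [h2]
    exact h1
  obtain ⟨L, hL1, hL2⟩ := Der_lift (g : TrivSqZeroExt ℝ ℝ →+* ℝ) hg hk
    (φ : Algebra.adjoin ℚ (Set.range v) →+* TrivSqZeroExt ℝ ℝ) hφ
  have hfst : ∀ x, (L x).fst = x := hL1
  let D0 : ℝ →+ ℝ :=
    { toFun := fun x => (L x).snd
      map_zero' := by simp
      map_add' := fun x y => by simp }
  refine ⟨Derivation.mk' D0.toRatLinearMap ?_, ?_⟩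
  · intro x y
    show (L (x * y)).snd = x • (L y).snd + y • (L x).snd
    rw [map_mul, TrivSqZeroExt.snd_mul, hfst, hfst]
    simp only [smul_eq_mul, MulOpposite.smul_eq_mul_unop, MulOpposite.unop_op]
    ring
  · intro i
    show (L (v i)).snd = a i
    have h1 : v i = algebraMap (Algebra.adjoin ℚ (Set.range v)) ℝ
        (hv.aevalEquiv (MvPolynomial.X i)) := by
      rw [hv.algebraMap_aevalEquiv, MvPolynomial.aeval_X]
    have h2 : L (v i) = φ (hv.aevalEquiv (MvPolynomial.X i)) := by
      rw [h1]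
      exact hL2 _
    have h3 : φ (hv.aevalEquiv (MvPolynomial.X i)) =
        (TrivSqZeroExt.inl (v i) + TrivSqZeroExt.inr (a i)) := by
      show φ' (hv.aevalEquiv.symm (hv.aevalEquiv (MvPolynomial.X i))) = _
      rw [AlgEquiv.symm_apply_apply]
      simp [φ']
    rw [h2, h3]
    simp

end Pool.Agent.Lib.MP_2847c2_co.GB
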