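import Pool.Agent.Lib.MP_2847c2_co.GB.Gadget

/-!
# Near the standard gadget the form is not zero
-/

set_option linter.unusedSimpArgs false

namespace Pool.Agent.Lib.MP_2847c2_co.GB

open Topology Filter

private theorem G2_gpt_cont (c : ℝ) (k : Fin 12) : Continuous fun u : Fin 8 → ℝ => gpt c u k := by
  fin_cases k
  · exact continuous_const
  · exact continuous_const
  · exact continuous_const
  · exact continuous_const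
  · exact (continuous_apply 0).prodMk (continuous_apply 1)
  · exact (continuous_apply 2).prodMk (continuous_apply 3)
  · exact (continuous_apply 0).neg.prodMk (continuous_apply 1).neg
  · exact (continuous_apply 2).neg.prodMk (continuous_apply 3).neg
  · exact (continuous_apply 4).prodMk (continuous_apply 5)
  · exact (continuous_apply 6).prodMk (continuous_apply 7)
  · exact (continuous_apply 4).neg.prodMk (continuous_apply 5).neg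
  · exact (continuous_apply 6).neg.prodMk (continuous_apply 7).neg

private theorem G2_lam_cont (j : Fin 9) (r : Fin 4) :
    Continuous fun u : Fin 8 → ℝ => lam u j r := by
  have h := G2_gpt_cont 3
  unfold lam sg
  exact (((h _).fst.sub (h _).fst).mul ((h _).snd.sub (h _).snd)).sub
    (((h _).snd.sub (h _).snd).mul ((h _).fst.sub (h _).fst))

private theorem G2_u : gpt 3 u0 0 = (-3, -3) ∧
    gpt 3 u0 1 = (3, -3) ∧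
    gpt 3 u0 2 = (3, 3) ∧
    gpt 3 u0 3 = (-3, 3) ∧
    gpt 3 u0 4 = (-2, -2) ∧
    gpt 3 u0 5 = (2, -1) ∧
    gpt 3 u0 6 = (2, 2) ∧
    gpt 3 u0 7 = (-2, 1) ∧
    gpt 3 u0 8 = (-1, -1) ∧
    gpt 3 u0 9 = (1, 0) ∧
    gpt 3 u0 10 = (1, 1) ∧
    gpt 3 u0 11 = (-1, 0) := by
  refine ⟨?_, ?_, ?_, ?_, ?_, ?_, ?_, ?_, ?_, ?_, ?_, ?_⟩
  · rfl
  · rfl
  · rfl
  · rfl
  · rfl
  · rfl
  · change (-(-2 : ℝ), -(-2 : ℝ)) = _
    norm_num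
  · change (-(2 : ℝ), -(-1 : ℝ)) = _
    norm_num
  · rfl
  · rfl
  · change (-(-1 : ℝ), -(-1 : ℝ)) = _
    norm_num
  · change (-(1 : ℝ), -(0 : ℝ)) = _
    norm_num

private theorem G2_v (v : Fin 8 → ℝ) : gpt 0 v 0 = (0, 0) ∧
    gpt 0 v 1 = (0, 0) ∧
    gpt 0 v 2 = (0, 0) ∧
    gpt 0 v 3 = (0, 0) ∧
    gpt 0 v 4 = (v 0, v 1) ∧
    gpt 0 v 5 = (v 2, v 3) ∧
    gpt 0 v 6 = (-v 0, -v 1) ∧
    gpt 0 v 7 = (-v 2, -v 3) ∧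
    gpt 0 v 8 = (v 4, v 5) ∧
    gpt 0 v 9 = (v 6, v 7) ∧
    gpt 0 v 10 = (-v 4, -v 5) ∧
    gpt 0 v 11 = (-v 6, -v 7) := by
  refine ⟨?_, ?_, ?_, ?_, rfl, rfl, rfl, rfl, rfl, rfl, rfl, rfl⟩
  · change (-(0 : ℝ), -(0 : ℝ)) = _
    norm_num
  · change ((0 : ℝ), -(0 : ℝ)) = _
    norm_num
  · rfl
  · change (-(0 : ℝ), (0 : ℝ)) = _
    norm_num

private theorem G2_lam_u0 (j : Fin 9) (r : Fin 4) : 0 < lam u0 j r := by
  fin_cases j <;> fin_cases r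
  · change 0 < sg (gpt 3 u0 1) (gpt 3 u0 5) (gpt 3 u0 4)
    simp only [sg, G2_u]
    norm_num
  · change 0 < sg (gpt 3 u0 5) (gpt 3 u0 4) (gpt 3 u0 0)
    simp only [sg, G2_u]
    norm_num
  · change 0 < sg (gpt 3 u0 4) (gpt 3 u0 0) (gpt 3 u0 1)
    simp only [sg, G2_u]
    norm_num
  · change 0 < sg (gpt 3 u0 0) (gpt 3 u0 1) (gpt 3 u0 5)
    simp only [sg, G2_u]
    norm_num
  · change 0 < sg (gpt 3 u0 2) (gpt 3 u0 6) (gpt 3 u0 5)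
    simp only [sg, G2_u]
    norm_num
  · change 0 < sg (gpt 3 u0 6) (gpt 3 u0 5) (gpt 3 u0 1)
    simp only [sg, G2_u]
    norm_num
  · change 0 < sg (gpt 3 u0 5) (gpt 3 u0 1) (gpt 3 u0 2)
    simp only [sg, G2_u]
    norm_num
  · change 0 < sg (gpt 3 u0 1) (gpt 3 u0 2) (gpt 3 u0 6)
    simp only [sg, G2_u]
    norm_num
  · change 0 < sg (gpt 3 u0 3) (gpt 3 u0 7) (gpt 3 u0 6)
    simp only [sg, G2_u]
    norm_num
  · change 0 < sg (gpt 3 u0 7) (gpt 3 u0 6) (gpt 3 u0 2)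
    simp only [sg, G2_u]
    norm_num
  · change 0 < sg (gpt 3 u0 6) (gpt 3 u0 2) (gpt 3 u0 3)
    simp only [sg, G2_u]
    norm_num
  · change 0 < sg (gpt 3 u0 2) (gpt 3 u0 3) (gpt 3 u0 7)
    simp only [sg, G2_u]
    norm_num
  · change 0 < sg (gpt 3 u0 0) (gpt 3 u0 4) (gpt 3 u0 7)
    simp only [sg, G2_u]
    norm_num
  · change 0 < sg (gpt 3 u0 4) (gpt 3 u0 7) (gpt 3 u0 3)
    simp only [sg, G2_u]
    norm_num
  · change 0 < sg (gpt 3 u0 7) (gpt 3 u0 3) (gpt 3 u0 0)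
    simp only [sg, G2_u]
    norm_num
  · change 0 < sg (gpt 3 u0 3) (gpt 3 u0 0) (gpt 3 u0 4)
    simp only [sg, G2_u]
    norm_num
  · change 0 < sg (gpt 3 u0 5) (gpt 3 u0 9) (gpt 3 u0 8)
    simp only [sg, G2_u]
    norm_num
  · change 0 < sg (gpt 3 u0 9) (gpt 3 u0 8) (gpt 3 u0 4)
    simp only [sg, G2_u]
    norm_num
  · change 0 < sg (gpt 3 u0 8) (gpt 3 u0 4) (gpt 3 u0 5)
    simp only [sg, G2_u]
    norm_num
  · change 0 < sg (gpt 3 u0 4) (gpt 3 u0 5) (gpt 3 u0 9)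
    simp only [sg, G2_u]
    norm_num
  · change 0 < sg (gpt 3 u0 6) (gpt 3 u0 10) (gpt 3 u0 9)
    simp only [sg, G2_u]
    norm_num
  · change 0 < sg (gpt 3 u0 10) (gpt 3 u0 9) (gpt 3 u0 5)
    simp only [sg, G2_u]
    norm_num
  · change 0 < sg (gpt 3 u0 9) (gpt 3 u0 5) (gpt 3 u0 6)
    simp only [sg, G2_u]
    norm_num
  · change 0 < sg (gpt 3 u0 5) (gpt 3 u0 6) (gpt 3 u0 10)
    simp only [sg, G2_u]
    norm_num
  · change 0 < sg (gpt 3 u0 7) (gpt 3 u0 11) (gpt 3 u0 10)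
    simp only [sg, G2_u]
    norm_num
  · change 0 < sg (gpt 3 u0 11) (gpt 3 u0 10) (gpt 3 u0 6)
    simp only [sg, G2_u]
    norm_num
  · change 0 < sg (gpt 3 u0 10) (gpt 3 u0 6) (gpt 3 u0 7)
    simp only [sg, G2_u]
    norm_num
  · change 0 < sg (gpt 3 u0 6) (gpt 3 u0 7) (gpt 3 u0 11)
    simp only [sg, G2_u]
    norm_num
  · change 0 < sg (gpt 3 u0 4) (gpt 3 u0 8) (gpt 3 u0 11)
    simp only [sg, G2_u]
    norm_num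
  · change 0 < sg (gpt 3 u0 8) (gpt 3 u0 11) (gpt 3 u0 7)
    simp only [sg, G2_u]
    norm_num
  · change 0 < sg (gpt 3 u0 11) (gpt 3 u0 7) (gpt 3 u0 4)
    simp only [sg, G2_u]
    norm_num
  · change 0 < sg (gpt 3 u0 7) (gpt 3 u0 4) (gpt 3 u0 8)
    simp only [sg, G2_u]
    norm_num
  · change 0 < sg (gpt 3 u0 9) (gpt 3 u0 10) (gpt 3 u0 11)
    simp only [sg, G2_u]
    norm_num
  · change 0 < sg (gpt 3 u0 10) (gpt 3 u0 11) (gpt 3 u0 8)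
    simp only [sg, G2_u]
    norm_num
  · change 0 < sg (gpt 3 u0 11) (gpt 3 u0 8) (gpt 3 u0 9)
    simp only [sg, G2_u]
    norm_num
  · change 0 < sg (gpt 3 u0 8) (gpt 3 u0 9) (gpt 3 u0 10)
    simp only [sg, G2_u]
    norm_num

/-- ROW G2. All `lam u0 j r` are positive integers (1..12); `lam` is continuous in `u` (polynomial); finitely many conditions (`eventually_all`). -/
theorem lam_pos_near : ∀ᶠ u in 𝓝 u0, ∀ j r, 0 < lam u j r := by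
  rw [eventually_all]
  intro j
  rw [eventually_all]
  intro r
  exact (G2_lam_cont j r).continuousAt.tendsto.eventually_const_lt (G2_lam_u0 j r)

private theorem G2_dsg_lin (a b : ℝ) (p q r p1 q1 r1 p2 q2 r2 : ℝ × ℝ) :
    dsg p q r (a • p1 + b • p2) (a • q1 + b • q2) (a • r1 + b • r2) =
      a * dsg p q r p1 q1 r1 + b * dsg p q r p2 q2 r2 := by
  simp only [dsg, Prod.fst_add, Prod.snd_add, Prod.smul_fst, Prod.smul_snd, smul_eq_mul]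
  ring

private theorem G2_gpt_lin (a b : ℝ) (v w : Fin 8 → ℝ) (k : Fin 12) :
    gpt 0 (a • v + b • w) k = a • gpt 0 v k + b • gpt 0 w k := by
  fin_cases k
  · refine Prod.ext ?_ ?_
    · change -(0 : ℝ) = a * -0 + b * -0
      ring
    · change -(0 : ℝ) = a * -0 + b * -0
      ring
  · refine Prod.ext ?_ ?_
    · change (0 : ℝ) = a * 0 + b * 0
      ring
    · change -(0 : ℝ) = a * -0 + b * -0
      ring
  · refine Prod.ext ?_ ?_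
    · change (0 : ℝ) = a * 0 + b * 0
      ring
    · change (0 : ℝ) = a * 0 + b * 0
      ring
  · refine Prod.ext ?_ ?_
    · change -(0 : ℝ) = a * -0 + b * -0
      ring
    · change (0 : ℝ) = a * 0 + b * 0
      ring
  · refine Prod.ext ?_ ?_
    · change (a * v 0 + b * w 0) = a * v 0 + b * w 0
      ring
    · change (a * v 1 + b * w 1) = a * v 1 + b * w 1
      ring
  · refine Prod.ext ?_ ?_
    · change (a * v 2 + b * w 2) = a * v 2 + b * w 2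
      ring
    · change (a * v 3 + b * w 3) = a * v 3 + b * w 3
      ring
  · refine Prod.ext ?_ ?_
    · change -(a * v 0 + b * w 0) = a * -v 0 + b * -w 0
      ring
    · change -(a * v 1 + b * w 1) = a * -v 1 + b * -w 1
      ring
  · refine Prod.ext ?_ ?_
    · change -(a * v 2 + b * w 2) = a * -v 2 + b * -w 2
      ring
    · change -(a * v 3 + b * w 3) = a * -v 3 + b * -w 3
      ring
  · refine Prod.ext ?_ ?_
    · change (a * v 4 + b * w 4) = a * v 4 + b * w 4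
      ring
    · change (a * v 5 + b * w 5) = a * v 5 + b * w 5
      ring
  · refine Prod.ext ?_ ?_
    · change (a * v 6 + b * w 6) = a * v 6 + b * w 6
      ring
    · change (a * v 7 + b * w 7) = a * v 7 + b * w 7
      ring
  · refine Prod.ext ?_ ?_
    · change -(a * v 4 + b * w 4) = a * -v 4 + b * -w 4
      ring
    · change -(a * v 5 + b * w 5) = a * -v 5 + b * -w 5
      ring
  · refine Prod.ext ?_ ?_
    · change -(a * v 6 + b * w 6) = a * -v 6 + b * -w 6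
      ring
    · change -(a * v 7 + b * w 7) = a * -v 7 + b * -w 7
      ring

private theorem G2_Lr_lin (u : Fin 8 → ℝ) (a b : ℝ) (v w : Fin 8 → ℝ) (j : Fin 9) (r : Fin 4) :
    Lr u (a • v + b • w) j r = a * Lr u v j r + b * Lr u w j r := by
  unfold Lr
  rw [G2_gpt_lin, G2_gpt_lin, G2_gpt_lin, G2_dsg_lin]
  ring

private theorem G2_t00 (v : Fin 8 → ℝ) : Lr u0 v 0 0 = -(2 / 9 * v 0) - 1 / 9 * v 1 + 1 / 9 * v 2 + 5 / 9 * v 3 := by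
  change dsg (gpt 3 u0 1) (gpt 3 u0 5) (gpt 3 u0 4) (gpt 0 v 1) (gpt 0 v 5) (gpt 0 v 4) /
    sg (gpt 3 u0 1) (gpt 3 u0 5) (gpt 3 u0 4) = _
  simp only [dsg, sg, G2_u, G2_v]
  norm_num
  try ring

private theorem G2_t01 (v : Fin 8 → ℝ) : Lr u0 v 0 1 = -(2 / 3 * v 0) + 5 / 3 * v 1 + 1 / 3 * v 2 - 1 / 3 * v 3 := by
  change dsg (gpt 3 u0 5) (gpt 3 u0 4) (gpt 3 u0 0) (gpt 0 v 5) (gpt 0 v 4) (gpt 0 v 0) /
    sg (gpt 3 u0 5) (gpt 3 u0 4) (gpt 3 u0 0) = _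
  simp only [dsg, sg, G2_u, G2_v]
  norm_num
  try ring

private theorem G2_t02 (v : Fin 8 → ℝ) : Lr u0 v 0 2 = v 1 := by
  change dsg (gpt 3 u0 4) (gpt 3 u0 0) (gpt 3 u0 1) (gpt 0 v 4) (gpt 0 v 0) (gpt 0 v 1) /
    sg (gpt 3 u0 4) (gpt 3 u0 0) (gpt 3 u0 1) = _
  simp only [dsg, sg, G2_u, G2_v]
  norm_num
  try ring

private theorem G2_t03 (v : Fin 8 → ℝ) : Lr u0 v 0 3 = 1 / 2 * v 3 := by
  change dsg (gpt 3 u0 0) (gpt 3 u0 1) (gpt 3 u0 5) (gpt 0 v 0) (gpt 0 v 1) (gpt 0 v 5) /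
    sg (gpt 3 u0 0) (gpt 3 u0 1) (gpt 3 u0 5) = _
  simp only [dsg, sg, G2_u, G2_v]
  norm_num
  try ring

private theorem G2_t10 (v : Fin 8 → ℝ) : Lr u0 v 1 0 = 4 / 3 * v 0 - 1 / 3 * v 1 + 1 / 3 * v 2 - 1 / 3 * v 3 := by
  change dsg (gpt 3 u0 2) (gpt 3 u0 6) (gpt 3 u0 5) (gpt 0 v 2) (gpt 0 v 6) (gpt 0 v 5) /
    sg (gpt 3 u0 2) (gpt 3 u0 6) (gpt 3 u0 5) = _
  simp only [dsg, sg, G2_u, G2_v]
  norm_num
  try ring

private theorem G2_t11 (v : Fin 8 → ℝ) : Lr u0 v 1 1 = -(2 / 3 * v 0) - 1 / 3 * v 1 - 5 / 3 * v 2 - 1 / 3 * v 3 := by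
  change dsg (gpt 3 u0 6) (gpt 3 u0 5) (gpt 3 u0 1) (gpt 0 v 6) (gpt 0 v 5) (gpt 0 v 1) /
    sg (gpt 3 u0 6) (gpt 3 u0 5) (gpt 3 u0 1) = _
  simp only [dsg, sg, G2_u, G2_v]
  norm_num
  try ring

private theorem G2_t12 (v : Fin 8 → ℝ) : Lr u0 v 1 2 = -v 2 := by
  change dsg (gpt 3 u0 5) (gpt 3 u0 1) (gpt 3 u0 2) (gpt 0 v 5) (gpt 0 v 1) (gpt 0 v 2) /
    sg (gpt 3 u0 5) (gpt 3 u0 1) (gpt 3 u0 2) = _
  simp only [dsg, sg, G2_u, G2_v]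
  norm_num
  try ring

private theorem G2_t13 (v : Fin 8 → ℝ) : Lr u0 v 1 3 = v 0 := by
  change dsg (gpt 3 u0 1) (gpt 3 u0 2) (gpt 3 u0 6) (gpt 0 v 1) (gpt 0 v 2) (gpt 0 v 6) /
    sg (gpt 3 u0 1) (gpt 3 u0 2) (gpt 3 u0 6) = _
  simp only [dsg, sg, G2_u, G2_v]
  norm_num
  try ring

private theorem G2_t40 (v : Fin 8 → ℝ) : Lr u0 v 4 0 = 1 / 3 * v 2 - 2 / 3 * v 3 - 1 / 3 * v 4 - 1 / 3 * v 5 + v 7 := by
  change dsg (gpt 3 u0 5) (gpt 3 u0 9) (gpt 3 u0 8) (gpt 0 v 5) (gpt 0 v 9) (gpt 0 v 8) /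
    sg (gpt 3 u0 5) (gpt 3 u0 9) (gpt 3 u0 8) = _
  simp only [dsg, sg, G2_u, G2_v]
  norm_num
  try ring

private theorem G2_t41 (v : Fin 8 → ℝ) : Lr u0 v 4 1 = v 0 - 2 * v 1 - 2 * v 4 + 3 * v 5 + v 6 - v 7 := by
  change dsg (gpt 3 u0 9) (gpt 3 u0 8) (gpt 3 u0 4) (gpt 0 v 9) (gpt 0 v 8) (gpt 0 v 4) /
    sg (gpt 3 u0 9) (gpt 3 u0 8) (gpt 3 u0 4) = _
  simp only [dsg, sg, G2_u, G2_v]
  norm_num
  try ring

private theorem G2_t42 (v : Fin 8 → ℝ) : Lr u0 v 4 2 = -v 1 + 1 / 3 * v 2 - 1 / 3 * v 3 - 1 / 3 * v 4 + 4 / 3 * v 5 := by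
  change dsg (gpt 3 u0 8) (gpt 3 u0 4) (gpt 3 u0 5) (gpt 0 v 8) (gpt 0 v 4) (gpt 0 v 5) /
    sg (gpt 3 u0 8) (gpt 3 u0 4) (gpt 3 u0 5) = _
  simp only [dsg, sg, G2_u, G2_v]
  norm_num
  try ring

private theorem G2_t43 (v : Fin 8 → ℝ) : Lr u0 v 4 3 = -(1 / 5 * v 0) - 1 / 5 * v 1 + 2 / 5 * v 2 - 3 / 5 * v 3 - 1 / 5 * v 6 + 4 / 5 * v 7 := by
  change dsg (gpt 3 u0 4) (gpt 3 u0 5) (gpt 3 u0 9) (gpt 0 v 4) (gpt 0 v 5) (gpt 0 v 9) /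
    sg (gpt 3 u0 4) (gpt 3 u0 5) (gpt 3 u0 9) = _
  simp only [dsg, sg, G2_u, G2_v]
  norm_num
  try ring

private theorem G2_t50 (v : Fin 8 → ℝ) : Lr u0 v 5 0 = -v 0 + 2 * v 4 - v 5 + v 6 - v 7 := by
  change dsg (gpt 3 u0 6) (gpt 3 u0 10) (gpt 3 u0 9) (gpt 0 v 6) (gpt 0 v 10) (gpt 0 v 9) /
    sg (gpt 3 u0 6) (gpt 3 u0 10) (gpt 3 u0 9) = _
  simp only [dsg, sg, G2_u, G2_v]
  norm_num
  try ring

private theorem G2_t51 (v : Fin 8 → ℝ) : Lr u0 v 5 1 = v 2 - v 4 - v 5 - 2 * v 6 - v 7 := by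
  change dsg (gpt 3 u0 10) (gpt 3 u0 9) (gpt 3 u0 5) (gpt 0 v 10) (gpt 0 v 9) (gpt 0 v 5) /
    sg (gpt 3 u0 10) (gpt 3 u0 9) (gpt 3 u0 5) = _
  simp only [dsg, sg, G2_u, G2_v]
  norm_num
  try ring

private theorem G2_t52 (v : Fin 8 → ℝ) : Lr u0 v 5 2 = -(1 / 3 * v 0) - 1 / 3 * v 1 + 2 / 3 * v 2 - 1 / 3 * v 3 - v 6 := by
  change dsg (gpt 3 u0 9) (gpt 3 u0 5) (gpt 3 u0 6) (gpt 0 v 9) (gpt 0 v 5) (gpt 0 v 6) /
    sg (gpt 3 u0 9) (gpt 3 u0 5) (gpt 3 u0 6) = _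
  simp only [dsg, sg, G2_u, G2_v]
  norm_num
  try ring

private theorem G2_t53 (v : Fin 8 → ℝ) : Lr u0 v 5 3 = -(2 / 3 * v 0) - 1 / 3 * v 1 + 1 / 3 * v 2 - 1 / 3 * v 3 + v 4 := by
  change dsg (gpt 3 u0 5) (gpt 3 u0 6) (gpt 3 u0 10) (gpt 0 v 5) (gpt 0 v 6) (gpt 0 v 10) /
    sg (gpt 3 u0 5) (gpt 3 u0 6) (gpt 3 u0 10) = _
  simp only [dsg, sg, G2_u, G2_v]
  norm_num
  try ring



private theorem G2_net_lin (u : Fin 8 → ℝ) (a b : ℝ) (v w : Fin 8 → ℝ) (i : Fin 6) :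
    net (Lr u (a • v + b • w)) i = a * net (Lr u v) i + b * net (Lr u w) i := by
  have h := G2_Lr_lin u a b v w
  fin_cases i
  · change Lr u (a • v + b • w) 0 1 - Lr u (a • v + b • w) 0 2 + Lr u (a • v + b • w) 0 3 -
      Lr u (a • v + b • w) 0 0 + Lr u (a • v + b • w) 4 1 - Lr u (a • v + b • w) 4 2 +
      Lr u (a • v + b • w) 4 3 - Lr u (a • v + b • w) 4 0 =
      a * (Lr u v 0 1 - Lr u v 0 2 + Lr u v 0 3 - Lr u v 0 0 + Lr u v 4 1 - Lr u v 4 2 +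
        Lr u v 4 3 - Lr u v 4 0) +
      b * (Lr u w 0 1 - Lr u w 0 2 + Lr u w 0 3 - Lr u w 0 0 + Lr u w 4 1 - Lr u w 4 2 +
        Lr u w 4 3 - Lr u w 4 0)
    simp only [h]
    ring
  · change Lr u (a • v + b • w) 1 1 - Lr u (a • v + b • w) 1 2 + Lr u (a • v + b • w) 1 3 -
      Lr u (a • v + b • w) 1 0 + Lr u (a • v + b • w) 5 1 - Lr u (a • v + b • w) 5 2 +
      Lr u (a • v + b • w) 5 3 - Lr u (a • v + b • w) 5 0 =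
      a * (Lr u v 1 1 - Lr u v 1 2 + Lr u v 1 3 - Lr u v 1 0 + Lr u v 5 1 - Lr u v 5 2 +
        Lr u v 5 3 - Lr u v 5 0) +
      b * (Lr u w 1 1 - Lr u w 1 2 + Lr u w 1 3 - Lr u w 1 0 + Lr u w 5 1 - Lr u w 5 2 +
        Lr u w 5 3 - Lr u w 5 0)
    simp only [h]
    ring
  · change Lr u (a • v + b • w) 0 2 - Lr u (a • v + b • w) 0 3 + Lr u (a • v + b • w) 1 2 -
      Lr u (a • v + b • w) 1 3 = a * (Lr u v 0 2 - Lr u v 0 3 + Lr u v 1 2 - Lr u v 1 3) +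
      b * (Lr u w 0 2 - Lr u w 0 3 + Lr u w 1 2 - Lr u w 1 3)
    simp only [h]
    ring
  · change Lr u (a • v + b • w) 4 2 - Lr u (a • v + b • w) 4 3 + Lr u (a • v + b • w) 5 2 -
      Lr u (a • v + b • w) 5 3 = a * (Lr u v 4 2 - Lr u v 4 3 + Lr u v 5 2 - Lr u v 5 3) +
      b * (Lr u w 4 2 - Lr u w 4 3 + Lr u w 5 2 - Lr u w 5 3)
    simp only [h]
    ring
  · change Lr u (a • v + b • w) 0 0 - Lr u (a • v + b • w) 0 1 + Lr u (a • v + b • w) 1 0 -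
      Lr u (a • v + b • w) 1 1 = a * (Lr u v 0 0 - Lr u v 0 1 + Lr u v 1 0 - Lr u v 1 1) +
      b * (Lr u w 0 0 - Lr u w 0 1 + Lr u w 1 0 - Lr u w 1 1)
    simp only [h]
    ring
  · change Lr u (a • v + b • w) 4 0 - Lr u (a • v + b • w) 4 1 + Lr u (a • v + b • w) 5 0 -
      Lr u (a • v + b • w) 5 1 = a * (Lr u v 4 0 - Lr u v 4 1 + Lr u v 5 0 - Lr u v 5 1) +
      b * (Lr u w 4 0 - Lr u w 4 1 + Lr u w 5 0 - Lr u w 5 1)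
    simp only [h]
    ring

/-- the net changes as linear maps -/
private noncomputable def G2_N (u : Fin 8 → ℝ) (i : Fin 6) : (Fin 8 → ℝ) →ₗ[ℝ] ℝ where
  toFun v := net (Lr u v) i
  map_add' v w := by
    have := G2_net_lin u 1 1 v w i
    simpa using this
  map_smul' a v := by
    have := G2_net_lin u a 0 v 0 i
    simpa using this

/-- the unit vectors `0, …, 4` -/
private noncomputable def G2_e (k : Fin 5) : Fin 8 → ℝ :=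
  Pi.single (Fin.castLE (by norm_num) k) 1

private noncomputable def G2_M (u : Fin 8 → ℝ) : Matrix (Fin 5) (Fin 5) ℝ :=
  Matrix.of fun i k => net (Lr u (G2_e k)) i.castSucc

private noncomputable def G2_b (u v : Fin 8 → ℝ) : Fin 5 → ℝ := fun i => net (Lr u v) i.castSucc

private noncomputable def G2_H (v : Fin 8 → ℝ) (M : Matrix (Fin 5) (Fin 5) ℝ) (b : Fin 5 → ℝ) :
    Fin 8 → ℝ :=
  M.det • v - ∑ k, (M.adjugate.mulVec b) k • G2_e k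

private theorem G2_sol (u v : Fin 8 → ℝ) (i : Fin 6) :
    net (Lr u (G2_H v (G2_M u) (G2_b u v))) i = 0 := by
  have h5 : ∀ i : Fin 5, net (Lr u (G2_H v (G2_M u) (G2_b u v))) i.castSucc = 0 := by
    intro i
    have e1 : net (Lr u (G2_H v (G2_M u) (G2_b u v))) i.castSucc =
        G2_N u i.castSucc (G2_H v (G2_M u) (G2_b u v)) := rfl
    rw [e1, G2_H, map_sub, map_smul, map_sum]
    have e2 : ∑ k, G2_N u i.castSucc (((G2_M u).adjugate.mulVec (G2_b u v)) k • G2_e k) =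
        ((G2_M u).mulVec ((G2_M u).adjugate.mulVec (G2_b u v))) i := by
      rw [Matrix.mulVec, dotProduct]
      refine Finset.sum_congr rfl fun k _ => ?_
      rw [map_smul, smul_eq_mul, mul_comm]
      rfl
    rw [e2, Matrix.mulVec_mulVec, Matrix.mul_adjugate]
    rw [Matrix.smul_mulVec, Matrix.one_mulVec, Pi.smul_apply, smul_eq_mul, smul_eq_mul]
    change (G2_M u).det * G2_b u v i - (G2_M u).det * G2_b u v i = 0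
    ring
  have h6 := net_rel (Lr u (G2_H v (G2_M u) (G2_b u v)))
  have a0 := h5 0
  have a1 := h5 1
  have a2 := h5 2
  have a3 := h5 3
  have a4 := h5 4
  change net (Lr u (G2_H v (G2_M u) (G2_b u v))) 0 = 0 at a0
  change net (Lr u (G2_H v (G2_M u) (G2_b u v))) 1 = 0 at a1
  change net (Lr u (G2_H v (G2_M u) (G2_b u v))) 2 = 0 at a2
  change net (Lr u (G2_H v (G2_M u) (G2_b u v))) 3 = 0 at a3
  change net (Lr u (G2_H v (G2_M u) (G2_b u v))) 4 = 0 at a4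
  fin_cases i
  · exact a0
  · exact a1
  · exact a2
  · exact a3
  · exact a4
  · change net (Lr u (G2_H v (G2_M u) (G2_b u v))) 5 = 0
    linarith

private theorem G2_Lr_cont {f : (Fin 8 → ℝ) → (Fin 8 → ℝ)} (hf : ContinuousAt f u0) :
    ContinuousAt (fun u => Lr u (f u)) u0 := by
  refine continuousAt_pi.2 fun j => continuousAt_pi.2 fun r => ?_
  have h : ∀ k, ContinuousAt (fun u : Fin 8 → ℝ => gpt 3 u k) u0 := fun k =>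
    (G2_gpt_cont 3 k).continuousAt
  have g : ∀ k, ContinuousAt (fun u : Fin 8 → ℝ => gpt 0 (f u) k) u0 := fun k =>
    ContinuousAt.comp (f := f) (g := fun u => gpt 0 u k) (G2_gpt_cont 0 k).continuousAt hf
  refine ContinuousAt.div ?_ (G2_lam_cont j r).continuousAt (ne_of_gt (G2_lam_u0 j r))
  unfold dsg
  exact (((g _).fst.sub (g _).fst).mul ((h _).snd.sub (h _).snd)).add
    (((h _).fst.sub (h _).fst).mul ((g _).snd.sub (g _).snd)) |>.sub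
    ((((g _).snd.sub (g _).snd).mul ((h _).fst.sub (h _).fst)).add
    (((h _).snd.sub (h _).snd).mul ((g _).fst.sub (g _).fst)))

private theorem G2_net_cont (i : Fin 6) : Continuous fun A : Fin 9 → Fin 4 → ℝ => net A i := by
  have h : ∀ j r, Continuous fun A : Fin 9 → Fin 4 → ℝ => A j r := fun j r =>
    (continuous_apply r).comp (continuous_apply j)
  fin_cases i
  · exact ((((((((h 0 1).sub (h 0 2)).add (h 0 3)).sub (h 0 0)).add (h 4 1)).sub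
      (h 4 2)).add (h 4 3)).sub (h 4 0))
  · exact ((((((((h 1 1).sub (h 1 2)).add (h 1 3)).sub (h 1 0)).add (h 5 1)).sub
      (h 5 2)).add (h 5 3)).sub (h 5 0))
  · exact ((((h 0 2).sub (h 0 3)).add (h 1 2)).sub (h 1 3))
  · exact ((((h 4 2).sub (h 4 3)).add (h 5 2)).sub (h 5 3))
  · exact ((((h 0 0).sub (h 0 1)).add (h 1 0)).sub (h 1 1))
  · exact ((((h 4 0).sub (h 4 1)).add (h 5 0)).sub (h 5 1))

private theorem G2_Phi_cont :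
    Continuous fun p : (Fin 9 → Fin 4 → ℝ) × (Fin 9 → Fin 4 → ℝ) => Phi p.1 p.2 := by
  unfold Phi
  fun_prop

private theorem G2_sol_cont (v : Fin 8 → ℝ) :
    ContinuousAt (fun u => G2_H v (G2_M u) (G2_b u v)) u0 := by
  have hM : ContinuousAt G2_M u0 := by
    refine continuousAt_pi.2 fun i => continuousAt_pi.2 fun k => ?_
    exact ContinuousAt.comp (f := fun u => Lr u (G2_e k)) (g := fun A => net A i.castSucc)
      (G2_net_cont _).continuousAt (G2_Lr_cont continuousAt_const)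
  have hb : ContinuousAt (fun u => G2_b u v) u0 := by
    refine continuousAt_pi.2 fun i => ?_
    exact ContinuousAt.comp (f := fun u => Lr u v) (g := fun A => net A i.castSucc)
      (G2_net_cont _).continuousAt (G2_Lr_cont continuousAt_const)
  have hH : Continuous fun p : Matrix (Fin 5) (Fin 5) ℝ × (Fin 5 → ℝ) => G2_H v p.1 p.2 := by
    unfold G2_H
    refine (continuous_fst.matrix_det.smul continuous_const).sub ?_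
    refine continuous_finsetSum _ fun k _ => ?_
    have h1 : Continuous fun p : Matrix (Fin 5) (Fin 5) ℝ × (Fin 5 → ℝ) =>
        p.1.adjugate.mulVec p.2 :=
      continuous_fst.matrix_adjugate.matrix_mulVec continuous_snd
    exact ((continuous_apply k).comp h1).smul continuous_const
  exact ContinuousAt.comp (f := fun u => (G2_M u, G2_b u v))
    (g := fun p : Matrix (Fin 5) (Fin 5) ℝ × (Fin 5 → ℝ) => G2_H v p.1 p.2)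
    hH.continuousAt (hM.prodMk hb)

private theorem G2_n0 (v : Fin 8 → ℝ) : net (Lr u0 v) 0 = (16 / 45) * v 0 + (-19 / 45) * v 1 + (-2 / 45) * v 2 + (1 / 90) * v 3 + (-4 / 3) * v 4 + (2) * v 5 + (4 / 5) * v 6 + (-6 / 5) * v 7 := by
  change Lr u0 v 0 1 - Lr u0 v 0 2 + Lr u0 v 0 3 - Lr u0 v 0 0 + Lr u0 v 4 1 - Lr u0 v 4 2 + Lr u0 v 4 3 - Lr u0 v 4 0 = _
  simp only [G2_t00, G2_t01, G2_t02, G2_t03, G2_t10, G2_t11, G2_t12, G2_t13, G2_t40, G2_t41, G2_t42,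
    G2_t43, G2_t50, G2_t51, G2_t52, G2_t53]
  ring

private theorem G2_n1 (v : Fin 8 → ℝ) : net (Lr u0 v) 1 = (-1 / 3) * v 0 + (-1 / 3) * v 2 + (-2) * v 4 + (-2) * v 6 := by
  change Lr u0 v 1 1 - Lr u0 v 1 2 + Lr u0 v 1 3 - Lr u0 v 1 0 + Lr u0 v 5 1 - Lr u0 v 5 2 + Lr u0 v 5 3 - Lr u0 v 5 0 = _
  simp only [G2_t00, G2_t01, G2_t02, G2_t03, G2_t10, G2_t11, G2_t12, G2_t13, G2_t40, G2_t41, G2_t42,
    G2_t43, G2_t50, G2_t51, G2_t52, G2_t53]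
  ring

private theorem G2_n2 (v : Fin 8 → ℝ) : net (Lr u0 v) 2 = (-1) * v 0 + (1) * v 1 + (-1) * v 2 + (-1 / 2) * v 3 := by
  change Lr u0 v 0 2 - Lr u0 v 0 3 + Lr u0 v 1 2 - Lr u0 v 1 3 = _
  simp only [G2_t00, G2_t01, G2_t02, G2_t03, G2_t10, G2_t11, G2_t12, G2_t13, G2_t40, G2_t41, G2_t42,
    G2_t43, G2_t50, G2_t51, G2_t52, G2_t53]
  ring

private theorem G2_n3 (v : Fin 8 → ℝ) : net (Lr u0 v) 3 = (8 / 15) * v 0 + (-4 / 5) * v 1 + (4 / 15) * v 2 + (4 / 15) * v 3 + (-4 / 3) * v 4 + (4 / 3) * v 5 + (-4 / 5) * v 6 + (-4 / 5) * v 7 := by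
  change Lr u0 v 4 2 - Lr u0 v 4 3 + Lr u0 v 5 2 - Lr u0 v 5 3 = _
  simp only [G2_t00, G2_t01, G2_t02, G2_t03, G2_t10, G2_t11, G2_t12, G2_t13, G2_t40, G2_t41, G2_t42,
    G2_t43, G2_t50, G2_t51, G2_t52, G2_t53]
  ring

private theorem G2_n4 (v : Fin 8 → ℝ) : net (Lr u0 v) 4 = (22 / 9) * v 0 + (-16 / 9) * v 1 + (16 / 9) * v 2 + (8 / 9) * v 3 := by
  change Lr u0 v 0 0 - Lr u0 v 0 1 + Lr u0 v 1 0 - Lr u0 v 1 1 = _
  simp only [G2_t00, G2_t01, G2_t02, G2_t03, G2_t10, G2_t11, G2_t12, G2_t13, G2_t40, G2_t41, G2_t42,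
    G2_t43, G2_t50, G2_t51, G2_t52, G2_t53]
  ring

private theorem G2_M0 : G2_M u0 = !![16 / 45, -19 / 45, -2 / 45, 1 / 90, -4 / 3; -1 / 3, 0, -1 / 3, 0, -2; -1, 1, -1, -1 / 2, 0; 8 / 15, -4 / 5, 4 / 15, 4 / 15, -4 / 3; 22 / 9, -16 / 9, 16 / 9, 8 / 9, 0] := by
  have e0 : G2_e 0 = ![1, 0, 0, 0, 0, 0, 0, 0] := by
    ext x; fin_cases x <;> simp [G2_e, Pi.single_apply]
  have e1 : G2_e 1 = ![0, 1, 0, 0, 0, 0, 0, 0] := by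
    ext x; fin_cases x <;> simp [G2_e, Pi.single_apply]
  have e2 : G2_e 2 = ![0, 0, 1, 0, 0, 0, 0, 0] := by
    ext x; fin_cases x <;> simp [G2_e, Pi.single_apply]
  have e3 : G2_e 3 = ![0, 0, 0, 1, 0, 0, 0, 0] := by
    ext x; fin_cases x <;> simp [G2_e, Pi.single_apply]
  have e4 : G2_e 4 = ![0, 0, 0, 0, 1, 0, 0, 0] := by
    ext x; fin_cases x <;> simp [G2_e, Pi.single_apply]
  ext i k
  fin_cases i <;> fin_cases k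
  · change net (Lr u0 (G2_e 0)) 0 = 16 / 45
    rw [G2_n0, e0]
    change (16 / 45 : ℝ) * 1 + (-19 / 45 : ℝ) * 0 + (-2 / 45 : ℝ) * 0 + (1 / 90 : ℝ) * 0 + (-4 / 3 : ℝ) * 0 + (2 : ℝ) * 0 + (4 / 5 : ℝ) * 0 + (-6 / 5 : ℝ) * 0 = _
    norm_num
  · change net (Lr u0 (G2_e 1)) 0 = -19 / 45
    rw [G2_n0, e1]
    change (16 / 45 : ℝ) * 0 + (-19 / 45 : ℝ) * 1 + (-2 / 45 : ℝ) * 0 + (1 / 90 : ℝ) * 0 + (-4 / 3 : ℝ) * 0 + (2 : ℝ) * 0 + (4 / 5 : ℝ) * 0 + (-6 / 5 : ℝ) * 0 = _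
    norm_num
  · change net (Lr u0 (G2_e 2)) 0 = -2 / 45
    rw [G2_n0, e2]
    change (16 / 45 : ℝ) * 0 + (-19 / 45 : ℝ) * 0 + (-2 / 45 : ℝ) * 1 + (1 / 90 : ℝ) * 0 + (-4 / 3 : ℝ) * 0 + (2 : ℝ) * 0 + (4 / 5 : ℝ) * 0 + (-6 / 5 : ℝ) * 0 = _
    norm_num
  · change net (Lr u0 (G2_e 3)) 0 = 1 / 90
    rw [G2_n0, e3]
    change (16 / 45 : ℝ) * 0 + (-19 / 45 : ℝ) * 0 + (-2 / 45 : ℝ) * 0 + (1 / 90 : ℝ) * 1 + (-4 / 3 : ℝ) * 0 + (2 : ℝ) * 0 + (4 / 5 : ℝ) * 0 + (-6 / 5 : ℝ) * 0 = _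
    norm_num
  · change net (Lr u0 (G2_e 4)) 0 = -4 / 3
    rw [G2_n0, e4]
    change (16 / 45 : ℝ) * 0 + (-19 / 45 : ℝ) * 0 + (-2 / 45 : ℝ) * 0 + (1 / 90 : ℝ) * 0 + (-4 / 3 : ℝ) * 1 + (2 : ℝ) * 0 + (4 / 5 : ℝ) * 0 + (-6 / 5 : ℝ) * 0 = _
    norm_num
  · change net (Lr u0 (G2_e 0)) 1 = -1 / 3
    rw [G2_n1, e0]
    change (-1 / 3 : ℝ) * 1 + (-1 / 3 : ℝ) * 0 + (-2 : ℝ) * 0 + (-2 : ℝ) * 0 = _
    norm_num
  · change net (Lr u0 (G2_e 1)) 1 = 0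
    rw [G2_n1, e1]
    change (-1 / 3 : ℝ) * 0 + (-1 / 3 : ℝ) * 0 + (-2 : ℝ) * 0 + (-2 : ℝ) * 0 = _
    norm_num
  · change net (Lr u0 (G2_e 2)) 1 = -1 / 3
    rw [G2_n1, e2]
    change (-1 / 3 : ℝ) * 0 + (-1 / 3 : ℝ) * 1 + (-2 : ℝ) * 0 + (-2 : ℝ) * 0 = _
    norm_num
  · change net (Lr u0 (G2_e 3)) 1 = 0
    rw [G2_n1, e3]
    change (-1 / 3 : ℝ) * 0 + (-1 / 3 : ℝ) * 0 + (-2 : ℝ) * 0 + (-2 : ℝ) * 0 = _
    norm_num
  · change net (Lr u0 (G2_e 4)) 1 = -2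
    rw [G2_n1, e4]
    change (-1 / 3 : ℝ) * 0 + (-1 / 3 : ℝ) * 0 + (-2 : ℝ) * 1 + (-2 : ℝ) * 0 = _
    norm_num
  · change net (Lr u0 (G2_e 0)) 2 = -1
    rw [G2_n2, e0]
    change (-1 : ℝ) * 1 + (1 : ℝ) * 0 + (-1 : ℝ) * 0 + (-1 / 2 : ℝ) * 0 = _
    norm_num
  · change net (Lr u0 (G2_e 1)) 2 = 1
    rw [G2_n2, e1]
    change (-1 : ℝ) * 0 + (1 : ℝ) * 1 + (-1 : ℝ) * 0 + (-1 / 2 : ℝ) * 0 = _
    norm_num
  · change net (Lr u0 (G2_e 2)) 2 = -1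
    rw [G2_n2, e2]
    change (-1 : ℝ) * 0 + (1 : ℝ) * 0 + (-1 : ℝ) * 1 + (-1 / 2 : ℝ) * 0 = _
    norm_num
  · change net (Lr u0 (G2_e 3)) 2 = -1 / 2
    rw [G2_n2, e3]
    change (-1 : ℝ) * 0 + (1 : ℝ) * 0 + (-1 : ℝ) * 0 + (-1 / 2 : ℝ) * 1 = _
    norm_num
  · change net (Lr u0 (G2_e 4)) 2 = 0
    rw [G2_n2, e4]
    change (-1 : ℝ) * 0 + (1 : ℝ) * 0 + (-1 : ℝ) * 0 + (-1 / 2 : ℝ) * 0 = _
    norm_num
  · change net (Lr u0 (G2_e 0)) 3 = 8 / 15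
    rw [G2_n3, e0]
    change (8 / 15 : ℝ) * 1 + (-4 / 5 : ℝ) * 0 + (4 / 15 : ℝ) * 0 + (4 / 15 : ℝ) * 0 + (-4 / 3 : ℝ) * 0 + (4 / 3 : ℝ) * 0 + (-4 / 5 : ℝ) * 0 + (-4 / 5 : ℝ) * 0 = _
    norm_num
  · change net (Lr u0 (G2_e 1)) 3 = -4 / 5
    rw [G2_n3, e1]
    change (8 / 15 : ℝ) * 0 + (-4 / 5 : ℝ) * 1 + (4 / 15 : ℝ) * 0 + (4 / 15 : ℝ) * 0 + (-4 / 3 : ℝ) * 0 + (4 / 3 : ℝ) * 0 + (-4 / 5 : ℝ) * 0 + (-4 / 5 : ℝ) * 0 = _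
    norm_num
  · change net (Lr u0 (G2_e 2)) 3 = 4 / 15
    rw [G2_n3, e2]
    change (8 / 15 : ℝ) * 0 + (-4 / 5 : ℝ) * 0 + (4 / 15 : ℝ) * 1 + (4 / 15 : ℝ) * 0 + (-4 / 3 : ℝ) * 0 + (4 / 3 : ℝ) * 0 + (-4 / 5 : ℝ) * 0 + (-4 / 5 : ℝ) * 0 = _
    norm_num
  · change net (Lr u0 (G2_e 3)) 3 = 4 / 15
    rw [G2_n3, e3]
    change (8 / 15 : ℝ) * 0 + (-4 / 5 : ℝ) * 0 + (4 / 15 : ℝ) * 0 + (4 / 15 : ℝ) * 1 + (-4 / 3 : ℝ) * 0 + (4 / 3 : ℝ) * 0 + (-4 / 5 : ℝ) * 0 + (-4 / 5 : ℝ) * 0 = _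
    norm_num
  · change net (Lr u0 (G2_e 4)) 3 = -4 / 3
    rw [G2_n3, e4]
    change (8 / 15 : ℝ) * 0 + (-4 / 5 : ℝ) * 0 + (4 / 15 : ℝ) * 0 + (4 / 15 : ℝ) * 0 + (-4 / 3 : ℝ) * 1 + (4 / 3 : ℝ) * 0 + (-4 / 5 : ℝ) * 0 + (-4 / 5 : ℝ) * 0 = _
    norm_num
  · change net (Lr u0 (G2_e 0)) 4 = 22 / 9
    rw [G2_n4, e0]
    change (22 / 9 : ℝ) * 1 + (-16 / 9 : ℝ) * 0 + (16 / 9 : ℝ) * 0 + (8 / 9 : ℝ) * 0 = _
    norm_num
  · change net (Lr u0 (G2_e 1)) 4 = -16 / 9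
    rw [G2_n4, e1]
    change (22 / 9 : ℝ) * 0 + (-16 / 9 : ℝ) * 1 + (16 / 9 : ℝ) * 0 + (8 / 9 : ℝ) * 0 = _
    norm_num
  · change net (Lr u0 (G2_e 2)) 4 = 16 / 9
    rw [G2_n4, e2]
    change (22 / 9 : ℝ) * 0 + (-16 / 9 : ℝ) * 0 + (16 / 9 : ℝ) * 1 + (8 / 9 : ℝ) * 0 = _
    norm_num
  · change net (Lr u0 (G2_e 3)) 4 = 8 / 9
    rw [G2_n4, e3]
    change (22 / 9 : ℝ) * 0 + (-16 / 9 : ℝ) * 0 + (16 / 9 : ℝ) * 0 + (8 / 9 : ℝ) * 1 = _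
    norm_num
  · change net (Lr u0 (G2_e 4)) 4 = 0
    rw [G2_n4, e4]
    change (22 / 9 : ℝ) * 0 + (-16 / 9 : ℝ) * 0 + (16 / 9 : ℝ) * 0 + (8 / 9 : ℝ) * 0 = _
    norm_num

private theorem G2_det : (G2_M u0).det ≠ 0 := by
  have h : G2_M u0 * !![0, 0, 8 / 3, 0, 3 / 2; -3 / 4, 9 / 4, 5 / 4, -21 / 8, 3 / 2; 9 / 2, 3 / 2, -37 / 6, -27 / 4, -3 / 2; -21 / 2, 3 / 2, 15 / 2, 33 / 4, 3; -3 / 4, -3 / 4, 7 / 12, 9 / 8, 0] = 1 := by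
    rw [G2_M0]
    ext i k
    fin_cases i <;> fin_cases k <;> norm_num [Matrix.mul_apply, Fin.sum_univ_succ]
  intro h0
  have h1 := congrArg Matrix.det h
  rw [Matrix.det_mul, h0, zero_mul, Matrix.det_one] at h1
  exact zero_ne_one h1

private def G2_v0 : Fin 8 → ℝ := ![0, -3, 0, -6, 0, 0, 0, 1]

private def G2_w0 : Fin 8 → ℝ := ![0, 3, -6, 18, 0, 0, 1, 0]

private theorem G2_bv : G2_b u0 G2_v0 = 0 := by
  ext i
  fin_cases i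
  · change net (Lr u0 G2_v0) 0 = 0
    rw [G2_n0]
    change (16 / 45 : ℝ) * 0 + (-19 / 45 : ℝ) * (-3) + (-2 / 45 : ℝ) * 0 + (1 / 90 : ℝ) * (-6) + (-4 / 3 : ℝ) * 0 + (2 : ℝ) * 0 + (4 / 5 : ℝ) * 0 + (-6 / 5 : ℝ) * 1 = _
    norm_num
  · change net (Lr u0 G2_v0) 1 = 0
    rw [G2_n1]
    change (-1 / 3 : ℝ) * 0 + (-1 / 3 : ℝ) * 0 + (-2 : ℝ) * 0 + (-2 : ℝ) * 0 = _
    norm_num
  · change net (Lr u0 G2_v0) 2 = 0
    rw [G2_n2]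
    change (-1 : ℝ) * 0 + (1 : ℝ) * (-3) + (-1 : ℝ) * 0 + (-1 / 2 : ℝ) * (-6) = _
    norm_num
  · change net (Lr u0 G2_v0) 3 = 0
    rw [G2_n3]
    change (8 / 15 : ℝ) * 0 + (-4 / 5 : ℝ) * (-3) + (4 / 15 : ℝ) * 0 + (4 / 15 : ℝ) * (-6) + (-4 / 3 : ℝ) * 0 + (4 / 3 : ℝ) * 0 + (-4 / 5 : ℝ) * 0 + (-4 / 5 : ℝ) * 1 = _
    norm_num
  · change net (Lr u0 G2_v0) 4 = 0
    rw [G2_n4]
    change (22 / 9 : ℝ) * 0 + (-16 / 9 : ℝ) * (-3) + (16 / 9 : ℝ) * 0 + (8 / 9 : ℝ) * (-6) = _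
    norm_num

private theorem G2_bw : G2_b u0 G2_w0 = 0 := by
  ext i
  fin_cases i
  · change net (Lr u0 G2_w0) 0 = 0
    rw [G2_n0]
    change (16 / 45 : ℝ) * 0 + (-19 / 45 : ℝ) * 3 + (-2 / 45 : ℝ) * (-6) + (1 / 90 : ℝ) * 18 + (-4 / 3 : ℝ) * 0 + (2 : ℝ) * 0 + (4 / 5 : ℝ) * 1 + (-6 / 5 : ℝ) * 0 = _
    norm_num
  · change net (Lr u0 G2_w0) 1 = 0
    rw [G2_n1]
    change (-1 / 3 : ℝ) * 0 + (-1 / 3 : ℝ) * (-6) + (-2 : ℝ) * 0 + (-2 : ℝ) * 1 = _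
    norm_num
  · change net (Lr u0 G2_w0) 2 = 0
    rw [G2_n2]
    change (-1 : ℝ) * 0 + (1 : ℝ) * 3 + (-1 : ℝ) * (-6) + (-1 / 2 : ℝ) * 18 = _
    norm_num
  · change net (Lr u0 G2_w0) 3 = 0
    rw [G2_n3]
    change (8 / 15 : ℝ) * 0 + (-4 / 5 : ℝ) * 3 + (4 / 15 : ℝ) * (-6) + (4 / 15 : ℝ) * 18 + (-4 / 3 : ℝ) * 0 + (4 / 3 : ℝ) * 0 + (-4 / 5 : ℝ) * 1 + (-4 / 5 : ℝ) * 0 = _
    norm_num
  · change net (Lr u0 G2_w0) 4 = 0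
    rw [G2_n4]
    change (22 / 9 : ℝ) * 0 + (-16 / 9 : ℝ) * 3 + (16 / 9 : ℝ) * (-6) + (8 / 9 : ℝ) * 18 = _
    norm_num

private theorem G2_H0 (v : Fin 8 → ℝ) (M : Matrix (Fin 5) (Fin 5) ℝ) : G2_H v M 0 = M.det • v := by
  simp [G2_H]

private theorem G2_v000 (d : ℝ) : Lr u0 (d • G2_v0) 0 0 = d * (-3) := by
  have h := G2_Lr_lin u0 d 0 G2_v0 0 0 0
  rw [G2_t00 G2_v0] at h
  change _ = d * (-(2 / 9 * (0 : ℝ)) - 1 / 9 * (-3 : ℝ) + 1 / 9 * (0 : ℝ) + 5 / 9 * (-6 : ℝ)) + _ at h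
  rw [zero_smul, add_zero, zero_mul, add_zero] at h
  rw [h]
  norm_num

private theorem G2_v001 (d : ℝ) : Lr u0 (d • G2_v0) 0 1 = d * (-3) := by
  have h := G2_Lr_lin u0 d 0 G2_v0 0 0 1
  rw [G2_t01 G2_v0] at h
  change _ = d * (-(2 / 3 * (0 : ℝ)) + 5 / 3 * (-3 : ℝ) + 1 / 3 * (0 : ℝ) - 1 / 3 * (-6 : ℝ)) + _ at h
  rw [zero_smul, add_zero, zero_mul, add_zero] at h
  rw [h]
  norm_num

private theorem G2_v002 (d : ℝ) : Lr u0 (d • G2_v0) 0 2 = d * (-3) := by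
  have h := G2_Lr_lin u0 d 0 G2_v0 0 0 2
  rw [G2_t02 G2_v0] at h
  change _ = d * ((-3 : ℝ)) + _ at h
  rw [zero_smul, add_zero, zero_mul, add_zero] at h
  rw [h]
  try norm_num

private theorem G2_v003 (d : ℝ) : Lr u0 (d • G2_v0) 0 3 = d * (-3) := by
  have h := G2_Lr_lin u0 d 0 G2_v0 0 0 3
  rw [G2_t03 G2_v0] at h
  change _ = d * (1 / 2 * (-6 : ℝ)) + _ at h
  rw [zero_smul, add_zero, zero_mul, add_zero] at h
  rw [h]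
  norm_num

private theorem G2_v010 (d : ℝ) : Lr u0 (d • G2_v0) 1 0 = d * 3 := by
  have h := G2_Lr_lin u0 d 0 G2_v0 0 1 0
  rw [G2_t10 G2_v0] at h
  change _ = d * (4 / 3 * (0 : ℝ) - 1 / 3 * (-3 : ℝ) + 1 / 3 * (0 : ℝ) - 1 / 3 * (-6 : ℝ)) + _ at h
  rw [zero_smul, add_zero, zero_mul, add_zero] at h
  rw [h]
  norm_num

private theorem G2_v011 (d : ℝ) : Lr u0 (d • G2_v0) 1 1 = d * 3 := by
  have h := G2_Lr_lin u0 d 0 G2_v0 0 1 1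
  rw [G2_t11 G2_v0] at h
  change _ = d * (-(2 / 3 * (0 : ℝ)) - 1 / 3 * (-3 : ℝ) - 5 / 3 * (0 : ℝ) - 1 / 3 * (-6 : ℝ)) + _ at h
  rw [zero_smul, add_zero, zero_mul, add_zero] at h
  rw [h]
  norm_num

private theorem G2_v012 (d : ℝ) : Lr u0 (d • G2_v0) 1 2 = d * 0 := by
  have h := G2_Lr_lin u0 d 0 G2_v0 0 1 2
  rw [G2_t12 G2_v0] at h
  change _ = d * (-(0 : ℝ)) + _ at h
  rw [zero_smul, add_zero, zero_mul, add_zero] at h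
  rw [h]
  norm_num

private theorem G2_v013 (d : ℝ) : Lr u0 (d • G2_v0) 1 3 = d * 0 := by
  have h := G2_Lr_lin u0 d 0 G2_v0 0 1 3
  rw [G2_t13 G2_v0] at h
  change _ = d * ((0 : ℝ)) + _ at h
  rw [zero_smul, add_zero, zero_mul, add_zero] at h
  rw [h]
  try norm_num

private theorem G2_v040 (d : ℝ) : Lr u0 (d • G2_v0) 4 0 = d * 5 := by
  have h := G2_Lr_lin u0 d 0 G2_v0 0 4 0
  rw [G2_t40 G2_v0] at h
  change _ = d * (1 / 3 * (0 : ℝ) - 2 / 3 * (-6 : ℝ) - 1 / 3 * (0 : ℝ) - 1 / 3 * (0 : ℝ) + (1 : ℝ)) + _ at h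
  rw [zero_smul, add_zero, zero_mul, add_zero] at h
  rw [h]
  norm_num

private theorem G2_v041 (d : ℝ) : Lr u0 (d • G2_v0) 4 1 = d * 5 := by
  have h := G2_Lr_lin u0 d 0 G2_v0 0 4 1
  rw [G2_t41 G2_v0] at h
  change _ = d * ((0 : ℝ) - 2 * (-3 : ℝ) - 2 * (0 : ℝ) + 3 * (0 : ℝ) + (0 : ℝ) - (1 : ℝ)) + _ at h
  rw [zero_smul, add_zero, zero_mul, add_zero] at h
  rw [h]
  norm_num

private theorem G2_v042 (d : ℝ) : Lr u0 (d • G2_v0) 4 2 = d * 5 := by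
  have h := G2_Lr_lin u0 d 0 G2_v0 0 4 2
  rw [G2_t42 G2_v0] at h
  change _ = d * (-(-3 : ℝ) + 1 / 3 * (0 : ℝ) - 1 / 3 * (-6 : ℝ) - 1 / 3 * (0 : ℝ) + 4 / 3 * (0 : ℝ)) + _ at h
  rw [zero_smul, add_zero, zero_mul, add_zero] at h
  rw [h]
  norm_num

private theorem G2_v043 (d : ℝ) : Lr u0 (d • G2_v0) 4 3 = d * 5 := by
  have h := G2_Lr_lin u0 d 0 G2_v0 0 4 3
  rw [G2_t43 G2_v0] at h
  change _ = d * (-(1 / 5 * (0 : ℝ)) - 1 / 5 * (-3 : ℝ) + 2 / 5 * (0 : ℝ) - 3 / 5 * (-6 : ℝ) - 1 / 5 * (0 : ℝ) + 4 / 5 * (1 : ℝ)) + _ at h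
  rw [zero_smul, add_zero, zero_mul, add_zero] at h
  rw [h]
  norm_num

private theorem G2_v050 (d : ℝ) : Lr u0 (d • G2_v0) 5 0 = d * (-1) := by
  have h := G2_Lr_lin u0 d 0 G2_v0 0 5 0
  rw [G2_t50 G2_v0] at h
  change _ = d * (-(0 : ℝ) + 2 * (0 : ℝ) - (0 : ℝ) + (0 : ℝ) - (1 : ℝ)) + _ at h
  rw [zero_smul, add_zero, zero_mul, add_zero] at h
  rw [h]
  norm_num

private theorem G2_v051 (d : ℝ) : Lr u0 (d • G2_v0) 5 1 = d * (-1) := by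
  have h := G2_Lr_lin u0 d 0 G2_v0 0 5 1
  rw [G2_t51 G2_v0] at h
  change _ = d * ((0 : ℝ) - (0 : ℝ) - (0 : ℝ) - 2 * (0 : ℝ) - (1 : ℝ)) + _ at h
  rw [zero_smul, add_zero, zero_mul, add_zero] at h
  rw [h]
  norm_num

private theorem G2_v052 (d : ℝ) : Lr u0 (d • G2_v0) 5 2 = d * 3 := by
  have h := G2_Lr_lin u0 d 0 G2_v0 0 5 2
  rw [G2_t52 G2_v0] at h
  change _ = d * (-(1 / 3 * (0 : ℝ)) - 1 / 3 * (-3 : ℝ) + 2 / 3 * (0 : ℝ) - 1 / 3 * (-6 : ℝ) - (0 : ℝ)) + _ at h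
  rw [zero_smul, add_zero, zero_mul, add_zero] at h
  rw [h]
  norm_num

private theorem G2_v053 (d : ℝ) : Lr u0 (d • G2_v0) 5 3 = d * 3 := by
  have h := G2_Lr_lin u0 d 0 G2_v0 0 5 3
  rw [G2_t53 G2_v0] at h
  change _ = d * (-(2 / 3 * (0 : ℝ)) - 1 / 3 * (-3 : ℝ) + 1 / 3 * (0 : ℝ) - 1 / 3 * (-6 : ℝ) + (0 : ℝ)) + _ at h
  rw [zero_smul, add_zero, zero_mul, add_zero] at h
  rw [h]
  norm_num

private theorem G2_w000 (d : ℝ) : Lr u0 (d • G2_w0) 0 0 = d * 9 := by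
  have h := G2_Lr_lin u0 d 0 G2_w0 0 0 0
  rw [G2_t00 G2_w0] at h
  change _ = d * (-(2 / 9 * (0 : ℝ)) - 1 / 9 * (3 : ℝ) + 1 / 9 * (-6 : ℝ) + 5 / 9 * (18 : ℝ)) + _ at h
  rw [zero_smul, add_zero, zero_mul, add_zero] at h
  rw [h]
  norm_num

private theorem G2_w001 (d : ℝ) : Lr u0 (d • G2_w0) 0 1 = d * (-3) := by
  have h := G2_Lr_lin u0 d 0 G2_w0 0 0 1
  rw [G2_t01 G2_w0] at h
  change _ = d * (-(2 / 3 * (0 : ℝ)) + 5 / 3 * (3 : ℝ) + 1 / 3 * (-6 : ℝ) - 1 / 3 * (18 : ℝ)) + _ at h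
  rw [zero_smul, add_zero, zero_mul, add_zero] at h
  rw [h]
  norm_num

private theorem G2_w002 (d : ℝ) : Lr u0 (d • G2_w0) 0 2 = d * 3 := by
  have h := G2_Lr_lin u0 d 0 G2_w0 0 0 2
  rw [G2_t02 G2_w0] at h
  change _ = d * ((3 : ℝ)) + _ at h
  rw [zero_smul, add_zero, zero_mul, add_zero] at h
  rw [h]
  try norm_num

private theorem G2_w003 (d : ℝ) : Lr u0 (d • G2_w0) 0 3 = d * 9 := by
  have h := G2_Lr_lin u0 d 0 G2_w0 0 0 3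
  rw [G2_t03 G2_w0] at h
  change _ = d * (1 / 2 * (18 : ℝ)) + _ at h
  rw [zero_smul, add_zero, zero_mul, add_zero] at h
  rw [h]
  norm_num

private theorem G2_w010 (d : ℝ) : Lr u0 (d • G2_w0) 1 0 = d * (-9) := by
  have h := G2_Lr_lin u0 d 0 G2_w0 0 1 0
  rw [G2_t10 G2_w0] at h
  change _ = d * (4 / 3 * (0 : ℝ) - 1 / 3 * (3 : ℝ) + 1 / 3 * (-6 : ℝ) - 1 / 3 * (18 : ℝ)) + _ at h
  rw [zero_smul, add_zero, zero_mul, add_zero] at h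
  rw [h]
  norm_num

private theorem G2_w011 (d : ℝ) : Lr u0 (d • G2_w0) 1 1 = d * 3 := by
  have h := G2_Lr_lin u0 d 0 G2_w0 0 1 1
  rw [G2_t11 G2_w0] at h
  change _ = d * (-(2 / 3 * (0 : ℝ)) - 1 / 3 * (3 : ℝ) - 5 / 3 * (-6 : ℝ) - 1 / 3 * (18 : ℝ)) + _ at h
  rw [zero_smul, add_zero, zero_mul, add_zero] at h
  rw [h]
  norm_num

private theorem G2_w012 (d : ℝ) : Lr u0 (d • G2_w0) 1 2 = d * 6 := by
  have h := G2_Lr_lin u0 d 0 G2_w0 0 1 2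
  rw [G2_t12 G2_w0] at h
  change _ = d * (-(-6 : ℝ)) + _ at h
  rw [zero_smul, add_zero, zero_mul, add_zero] at h
  rw [h]
  norm_num

private theorem G2_w013 (d : ℝ) : Lr u0 (d • G2_w0) 1 3 = d * 0 := by
  have h := G2_Lr_lin u0 d 0 G2_w0 0 1 3
  rw [G2_t13 G2_w0] at h
  change _ = d * ((0 : ℝ)) + _ at h
  rw [zero_smul, add_zero, zero_mul, add_zero] at h
  rw [h]
  try norm_num

private theorem G2_w040 (d : ℝ) : Lr u0 (d • G2_w0) 4 0 = d * (-14) := by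
  have h := G2_Lr_lin u0 d 0 G2_w0 0 4 0
  rw [G2_t40 G2_w0] at h
  change _ = d * (1 / 3 * (-6 : ℝ) - 2 / 3 * (18 : ℝ) - 1 / 3 * (0 : ℝ) - 1 / 3 * (0 : ℝ) + (0 : ℝ)) + _ at h
  rw [zero_smul, add_zero, zero_mul, add_zero] at h
  rw [h]
  norm_num

private theorem G2_w041 (d : ℝ) : Lr u0 (d • G2_w0) 4 1 = d * (-5) := by
  have h := G2_Lr_lin u0 d 0 G2_w0 0 4 1
  rw [G2_t41 G2_w0] at h
  change _ = d * ((0 : ℝ) - 2 * (3 : ℝ) - 2 * (0 : ℝ) + 3 * (0 : ℝ) + (1 : ℝ) - (0 : ℝ)) + _ at h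
  rw [zero_smul, add_zero, zero_mul, add_zero] at h
  rw [h]
  norm_num

private theorem G2_w042 (d : ℝ) : Lr u0 (d • G2_w0) 4 2 = d * (-11) := by
  have h := G2_Lr_lin u0 d 0 G2_w0 0 4 2
  rw [G2_t42 G2_w0] at h
  change _ = d * (-(3 : ℝ) + 1 / 3 * (-6 : ℝ) - 1 / 3 * (18 : ℝ) - 1 / 3 * (0 : ℝ) + 4 / 3 * (0 : ℝ)) + _ at h
  rw [zero_smul, add_zero, zero_mul, add_zero] at h
  rw [h]
  norm_num

private theorem G2_w043 (d : ℝ) : Lr u0 (d • G2_w0) 4 3 = d * (-14) := by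
  have h := G2_Lr_lin u0 d 0 G2_w0 0 4 3
  rw [G2_t43 G2_w0] at h
  change _ = d * (-(1 / 5 * (0 : ℝ)) - 1 / 5 * (3 : ℝ) + 2 / 5 * (-6 : ℝ) - 3 / 5 * (18 : ℝ) - 1 / 5 * (1 : ℝ) + 4 / 5 * (0 : ℝ)) + _ at h
  rw [zero_smul, add_zero, zero_mul, add_zero] at h
  rw [h]
  norm_num

private theorem G2_w050 (d : ℝ) : Lr u0 (d • G2_w0) 5 0 = d * 1 := by
  have h := G2_Lr_lin u0 d 0 G2_w0 0 5 0
  rw [G2_t50 G2_w0] at h
  change _ = d * (-(0 : ℝ) + 2 * (0 : ℝ) - (0 : ℝ) + (1 : ℝ) - (0 : ℝ)) + _ at h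
  rw [zero_smul, add_zero, zero_mul, add_zero] at h
  rw [h]
  norm_num

private theorem G2_w051 (d : ℝ) : Lr u0 (d • G2_w0) 5 1 = d * (-8) := by
  have h := G2_Lr_lin u0 d 0 G2_w0 0 5 1
  rw [G2_t51 G2_w0] at h
  change _ = d * ((-6 : ℝ) - (0 : ℝ) - (0 : ℝ) - 2 * (1 : ℝ) - (0 : ℝ)) + _ at h
  rw [zero_smul, add_zero, zero_mul, add_zero] at h
  rw [h]
  norm_num

private theorem G2_w052 (d : ℝ) : Lr u0 (d • G2_w0) 5 2 = d * (-12) := by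
  have h := G2_Lr_lin u0 d 0 G2_w0 0 5 2
  rw [G2_t52 G2_w0] at h
  change _ = d * (-(1 / 3 * (0 : ℝ)) - 1 / 3 * (3 : ℝ) + 2 / 3 * (-6 : ℝ) - 1 / 3 * (18 : ℝ) - (1 : ℝ)) + _ at h
  rw [zero_smul, add_zero, zero_mul, add_zero] at h
  rw [h]
  norm_num

private theorem G2_w053 (d : ℝ) : Lr u0 (d • G2_w0) 5 3 = d * (-9) := by
  have h := G2_Lr_lin u0 d 0 G2_w0 0 5 3
  rw [G2_t53 G2_w0] at h
  change _ = d * (-(2 / 3 * (0 : ℝ)) - 1 / 3 * (3 : ℝ) + 1 / 3 * (-6 : ℝ) - 1 / 3 * (18 : ℝ) + (0 : ℝ)) + _ at h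
  rw [zero_smul, add_zero, zero_mul, add_zero] at h
  rw [h]
  norm_num

private theorem G2_Phi0 (d : ℝ) : Phi (Lr u0 (d • G2_v0)) (Lr u0 (d • G2_w0)) = -96 * d ^ 2 := by
  unfold Phi
  simp only [G2_v000, G2_v001, G2_v002, G2_v003, G2_v010, G2_v011, G2_v012, G2_v013, G2_v040, G2_v041,
    G2_v042, G2_v043, G2_v050, G2_v051, G2_v052, G2_v053, G2_w000, G2_w001, G2_w002,
    G2_w003, G2_w010, G2_w011, G2_w012, G2_w013, G2_w040, G2_w041, G2_w042, G2_w043,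
    G2_w050, G2_w051, G2_w052, G2_w053]
  ring

/-- ROW G2. At `u0` all `lam` are positive and `v0 = ![0, -3, 0, -6, 0, 0, 0, 1]`, `w0 = ![0, 3, -6, 18, 0, 0, 1, 0]` satisfy `net (Lr u0 v0) = 0`, `net (Lr u0 w0) = 0`, `Phi (Lr u0 v0) (Lr u0 w0) = -96`.
`net (Lr u v) i` is linear in `v`, continuous in `u` near `u0`; the 5 x 5 matrix `M(u)_(i,k) = net (Lr u (Pi.single k 1)) i`, `i = 0..4`, `k = 0..4`, is invertible at `u0` (rank 5, pivots `0..4`), so near `u0`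
(determinant and adjugate are continuous); `v(u) = v0 - (M(u)^(-1) (net (Lr u v0)))` in the coordinates `0..4` has `net = 0` for `i = 0..4`, and for `i = 5` by `net_rel`; `v(u) → v0`, the same for `w`,
`Phi (Lr u (v u)) (Lr u (w u)) → -96 ≠ 0`. (Alternative: the implicit function is not needed, only this linear algebra.) -/
theorem form_near : ∀ᶠ u in 𝓝 u0, ∃ v w : Fin 8 → ℝ, (∀ i, net (Lr u v) i = 0) ∧
    (∀ i, net (Lr u w) i = 0) ∧ Phi (Lr u v) (Lr u w) ≠ 0 := by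
  have hcv := G2_Lr_cont (G2_sol_cont G2_v0)
  have hcw := G2_Lr_cont (G2_sol_cont G2_w0)
  have hc : ContinuousAt (fun u => Phi (Lr u (G2_H G2_v0 (G2_M u) (G2_b u G2_v0)))
      (Lr u (G2_H G2_w0 (G2_M u) (G2_b u G2_w0)))) u0 :=
    ContinuousAt.comp (f := fun u => (Lr u (G2_H G2_v0 (G2_M u) (G2_b u G2_v0)),
      Lr u (G2_H G2_w0 (G2_M u) (G2_b u G2_w0))))
      (g := fun p : (Fin 9 → Fin 4 → ℝ) × (Fin 9 → Fin 4 → ℝ) => Phi p.1 p.2)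
      G2_Phi_cont.continuousAt (hcv.prodMk hcw)
  have h0 : Phi (Lr u0 (G2_H G2_v0 (G2_M u0) (G2_b u0 G2_v0)))
      (Lr u0 (G2_H G2_w0 (G2_M u0) (G2_b u0 G2_w0))) ≠ 0 := by
    rw [G2_bv, G2_bw, G2_H0, G2_H0, G2_Phi0]
    exact mul_ne_zero (by norm_num) (pow_ne_zero _ G2_det)
  filter_upwards [hc.eventually_ne h0] with u hu
  exact ⟨_, _, G2_sol u G2_v0, G2_sol u G2_w0, hu⟩

end Pool.Agent.Lib.MP_2847c2_co.GB
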