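import Mathlib

/-!
# Algebraically independent points are dense
-/

namespace Pool.Agent.Lib.MP_2847c2_co.GB

open Topology

private theorem near_infinite : ∃ s : Set ℝ, s.Infinite ∧
    AlgebraicIndependent ℚ ((↑) : s → ℝ) := by
  obtain ⟨s, hs⟩ := exists_isTranscendenceBasis ℚ ℝ
  refine ⟨s, ?_, hs.1⟩
  intro hfin
  have h1 := hs.isAlgebraic
  rw [Subtype.range_coe] at h1
  have h2 := Algebra.IsAlgebraic.cardinalMk_le_max (Algebra.adjoin ℚ s) ℝ
  have h3 := Algebra.cardinalMk_adjoin_le ℚ s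
  have h4 : Cardinal.mk s ≤ Cardinal.aleph0 := by
    have := hfin.countable
    exact Cardinal.le_aleph0_iff_set_countable.2 this
  have h5 : Cardinal.mk ℚ ≤ Cardinal.aleph0 := Cardinal.mk_le_aleph0
  have h6 : Cardinal.mk (Algebra.adjoin ℚ s) ≤ Cardinal.aleph0 :=
    h3.trans (max_le (max_le h5 h4) le_rfl)
  have h7 : Cardinal.mk ℝ ≤ Cardinal.aleph0 := h2.trans (max_le h6 le_rfl)
  rw [Cardinal.mk_real] at h7
  exact absurd h7 (not_le.2 Cardinal.aleph0_lt_continuum)

private theorem near_family (σ : Type) [Fintype σ] :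
    ∃ τ : σ → ℝ, AlgebraicIndependent ℚ τ := by
  obtain ⟨s, hs, hi⟩ := near_infinite
  have : Infinite s := hs.to_subtype
  obtain ⟨f⟩ : Nonempty (σ ↪ s) := by
    have : Countable σ := Finite.to_countable
    obtain ⟨g, hg⟩ := exists_injective_nat σ
    exact ⟨(⟨g, hg⟩ : σ ↪ ℕ).trans (Infinite.natEmbedding s)⟩
  exact ⟨_, hi.comp f f.injective⟩

private theorem near_affine {σ : Type} (τ : σ → ℝ) (h : AlgebraicIndependent ℚ τ)
    (q r : σ → ℚ) (hq : ∀ i, q i ≠ 0) :
    AlgebraicIndependent ℚ (fun i => (q i : ℝ) * τ i + (r i : ℝ)) := by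
  set φ : MvPolynomial σ ℚ →ₐ[ℚ] MvPolynomial σ ℚ :=
    MvPolynomial.aeval (fun i => MvPolynomial.C (q i) * MvPolynomial.X i + MvPolynomial.C (r i))
    with hφ
  set ψ : MvPolynomial σ ℚ →ₐ[ℚ] MvPolynomial σ ℚ :=
    MvPolynomial.aeval (fun i => MvPolynomial.C (q i)⁻¹ *
      (MvPolynomial.X i - MvPolynomial.C (r i))) with hψ
  have h1 : ψ.comp φ = AlgHom.id ℚ _ := by
    apply MvPolynomial.algHom_ext
    intro i
    simp only [hφ, hψ, AlgHom.comp_apply, MvPolynomial.aeval_X, map_add, map_mul,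
      MvPolynomial.algHom_C, MvPolynomial.algebraMap_eq, AlgHom.id_apply]
    rw [← mul_assoc, ← MvPolynomial.C_mul, mul_inv_cancel₀ (hq i), MvPolynomial.C_1, one_mul]
    ring
  have h2 : Function.Injective φ := by
    intro a b hab
    have := congrArg ψ hab
    have e : ∀ x, ψ (φ x) = x := fun x => by
      have := DFunLike.congr_fun h1 x
      simpa using this
    rwa [e, e] at this
  have h3 : (MvPolynomial.aeval (fun i => (q i : ℝ) * τ i + (r i : ℝ)) :
      MvPolynomial σ ℚ →ₐ[ℚ] ℝ) = (MvPolynomial.aeval τ).comp φ := by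
    apply MvPolynomial.algHom_ext
    intro i
    simp [hφ, MvPolynomial.aeval_X]
  unfold AlgebraicIndependent at h ⊢
  rw [h3, AlgHom.coe_comp]
  exact Function.Injective.comp h h2

private theorem near_coord (t y ε : ℝ) (hε : 0 < ε) :
    ∃ q r : ℚ, q ≠ 0 ∧ |(q : ℝ) * t + (r : ℝ) - y| < ε := by
  obtain ⟨r, hr1, hr2⟩ := exists_rat_btwn (show y - ε / 2 < y + ε / 2 by linarith)
  obtain ⟨q, hq1, hq2⟩ := exists_rat_btwn
    (show (0 : ℝ) < ε / (2 * (|t| + 1)) by positivity)
  refine ⟨q, r, ?_, ?_⟩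
  · intro h
    rw [h] at hq1
    simp at hq1
  · have h1 : |(q : ℝ) * t| < ε / 2 := by
      rw [abs_mul, abs_of_pos hq1]
      calc (q : ℝ) * |t| ≤ q * (|t| + 1) := by
            apply mul_le_mul_of_nonneg_left _ hq1.le
            linarith
        _ < ε / (2 * (|t| + 1)) * (|t| + 1) := by
            apply mul_lt_mul_of_pos_right hq2
            positivity
        _ = ε / 2 := by
            have : (|t| + 1) ≠ 0 := by positivity
            field_simp
    have h2 : |(r : ℝ) - y| ≤ ε / 2 := by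
      rw [abs_le]
      constructor <;> linarith
    calc |(q : ℝ) * t + (r : ℝ) - y| = |(q : ℝ) * t + ((r : ℝ) - y)| := by ring_nf
      _ ≤ |(q : ℝ) * t| + |(r : ℝ) - y| := abs_add_le _ _
      _ < ε := by linarith

/-- ROW N. Algebraically independent points are dense. There is an algebraically independent family `τ : σ → ℝ` (a transcendence basis of `ℝ` over `ℚ` is infinite, otherwise `ℝ` would be countable:
`Algebra.IsAlgebraic.cardinalMk_le_max` etc.). `τ i ≠ 0`. Choose rational numbers `q i ≠ 0`, `r i` with `q i * τ i + r i` close to `x0 i` (e.g. `r i` close to `x0 i`, `q i` small); this family is again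
algebraically independent (`τ i` is a polynomial in it and vice versa: e.g. `AlgebraicIndependent` via the algebra automorphism of `MvPolynomial σ ℚ`, `X i ↦ q i X i + r i`). -/
theorem exists_algInd_near {σ : Type} [Fintype σ] (x0 : σ → ℝ) {U : Set (σ → ℝ)} (hU : U ∈ 𝓝 x0) :
    ∃ x ∈ U, AlgebraicIndependent ℚ x := by
  obtain ⟨ε, hε, hb⟩ := Metric.mem_nhds_iff.1 hU
  obtain ⟨τ, hτ⟩ := near_family σ
  choose q r hq hd using fun i => near_coord (τ i) (x0 i) ε hε
  refine ⟨fun i => (q i : ℝ) * τ i + (r i : ℝ), hb ?_, near_affine τ hτ q r hq⟩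
  rw [Metric.mem_ball, dist_pi_lt_iff hε]
  intro i
  rw [Real.dist_eq]
  exact hd i

end Pool.Agent.Lib.MP_2847c2_co.GB
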