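import Pool.Agent.Lib.MP_2847c2_co.GB.BoxSum
import Pool.Agent.Lib.MP_2847c2_co.GB.Crit
import Pool.Agent.Lib.MP_2847c2_co.GB.GadNear
import Pool.Agent.Lib.MP_2847c2_co.GB.Der
import Pool.Agent.Lib.MP_2847c2_co.GB.Near

/-!
# The genus bound for the box
-/

namespace Pool.Agent.Lib.MP_2847c2_co.GB

open Pool.Agent.Lib.MP_2847c2_co Topology Filter

/-- ROW F. All faces are planar (`det3` of differences; for the gadgets all `z`-coordinates are `6`). -/
theorem boxB_planar {N : ℕ} (t : Fin N × Fin 8 → ℝ) (x : FI N × Fin 4) : Planar (boxB t x) := by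
  obtain ⟨y, r⟩ := x
  rcases y with ⟨k, j⟩ | ⟨k, j⟩ | s
  · simp [Planar, boxB, faceV, gpt3, det3]
  · fin_cases j <;> fin_cases r <;> simp [Planar, boxB, faceV, cub, det3]
  · fin_cases s <;> fin_cases r <;> simp [Planar, boxB, faceV, bend, det3]

private theorem hexF_gpt_zero (i : Fin 12) : gpt 0 0 i = (0, 0) := by
  fin_cases i <;> simp [gpt]

theorem lr_zero (u : Fin 8 → ℝ) : Lr u 0 = 0 := by
  funext j r
  simp [Lr, dsg, hexF_gpt_zero]

/-- ROW F. For `t` near `t0` every `fun i => t (k, i)` is near `u0`: `form_near` gives `v_k`, `w_k`; `exists_der` gives `D_k` with `D_k (t (k', i)) = if k' = k then v_k i else 0` and `E_k` with `w_k`. `genus_criterion` with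
`ω k = 4 Phi ..`: `h1` = `box_period`, `h2` = `box_sum` (`(∑ j, c j • D j) (t (k, i)) = c k * v_k i`). -/
theorem genus_box_near (N : ℕ) : ∀ᶠ t in 𝓝 (t0 N), AlgebraicIndependent ℚ t →
    ∀ (ι : Type) [Fintype ι] (C : ι → Hexa), IsMesh C (boxB t) → N ≤ genus2 C (boxB t) := by
  have hev : ∀ᶠ t in 𝓝 (t0 N), ∀ k : Fin N, ∃ v w : Fin 8 → ℝ,
      (∀ i, net (Lr (fun i => t (k, i)) v) i = 0) ∧
      (∀ i, net (Lr (fun i => t (k, i)) w) i = 0) ∧
      Phi (Lr (fun i => t (k, i)) v) (Lr (fun i => t (k, i)) w) ≠ 0 := by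
    rw [eventually_all]
    intro k
    have hc : Tendsto (fun t : Fin N × Fin 8 → ℝ => fun i => t (k, i)) (𝓝 (t0 N)) (𝓝 u0) := by
      have h : Continuous (fun t : Fin N × Fin 8 → ℝ => fun i : Fin 8 => t (k, i)) := by fun_prop
      exact h.tendsto (t0 N)
    exact hc.eventually form_near
  filter_upwards [hev] with t ht hind ι _ C hm
  choose v w hv hw hphi using ht
  have hD : ∀ k, ∃ D : Der, ∀ x : Fin N × Fin 8, D (t x) = if x.1 = k then v k x.2 else 0 :=
    fun k => exists_der t hind _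
  have hE : ∀ k, ∃ E : Der, ∀ x : Fin N × Fin 8, E (t x) = if x.1 = k then w k x.2 else 0 :=
    fun k => exists_der t hind _
  choose D hD using hD
  choose E hE using hE
  refine genus_criterion hm N D E
    (fun k => 4 * Phi (Lr (fun i => t (k, i)) (v k)) (Lr (fun i => t (k, i)) (w k)))
    (fun k => mul_ne_zero (by norm_num) (hphi k)) ?_ ?_
  · intro k g hg
    exact box_period t (D k) k (v k) (fun k' i => hD k (k', i)) (hv k) g hg
  · intro c f hf k
    refine box_sum t (∑ j, c j • D j) (E k) k (c k) (v k) (w k) ?_ (fun k' i => hE k (k', i))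
      (hv k) (hw k) f hf
    intro i
    have h1 : ∀ j, (c j • D j) (t (k, i)) = if k = j then c k * v k i else 0 := by
      intro j
      have h2 := hD j (k, i)
      simp only [Derivation.smul_apply, smul_eq_mul, h2]
      by_cases h : k = j
      · subst h; simp
      · simp [h]
    have h3 : (∑ j, c j • D j) (t (k, i)) = ∑ j, (c j • D j) (t (k, i)) := by
      have h4 : (⇑(∑ j, c j • D j) : ℝ → ℝ) = ∑ j, ⇑(c j • D j) :=
        map_sum (Derivation.coeFnAddMonoidHom : Derivation ℚ ℝ ℝ →+ (ℝ → ℝ)) _ _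
      rw [h4, Finset.sum_apply]
    rw [h3]
    simp only [h1]
    simp

end Pool.Agent.Lib.MP_2847c2_co.GB
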