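import Pool.Agent.Lib.MP_2847c2_co.GB.Final
import Pool.Agent.Lib.MP_2847c2_co.GB.Anti

/-!
# The genus bound for the box, both directions
-/

namespace Pool.Agent.Lib.MP_2847c2_co.GB

open Pool.Agent.Lib.MP_2847c2_co Topology Filter

theorem der_sum_apply {σ : Type} [Fintype σ] (c : σ → ℝ) (D : σ → Der) (x : ℝ) :
    (∑ j, c j • D j) x = ∑ j, c j * D j x := by
  have h4 : (⇑(∑ j, c j • D j) : ℝ → ℝ) = ∑ j, ⇑(c j • D j) :=
    map_sum (Derivation.coeFnAddMonoidHom : Derivation ℚ ℝ ℝ →+ (ℝ → ℝ)) _ _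
  rw [h4, Finset.sum_apply]
  rfl

/-- The second order sum for a combination of two directions. -/
theorem box_sum2 {N : ℕ} (t : Fin N × Fin 8 → ℝ) (D E : Der) (k : Fin N) (a b : ℝ) (v w z : Fin 8 → ℝ)
    (hD : ∀ i, D (t (k, i)) = a * v i + b * w i)
    (hE : ∀ k' i, E (t (k', i)) = if k' = k then z i else 0)
    (hnv : ∀ i, net (Lr (fun i => t (k, i)) v) i = 0)
    (hnw : ∀ i, net (Lr (fun i => t (k, i)) w) i = 0)
    (hnz : ∀ i, net (Lr (fun i => t (k, i)) z) i = 0) (f : P3 × P3 → ℝ)
    (hf : ∀ x, wtD D (boxB t x) = f (e2 (boxB t x)) - f (e1 (boxB t x))) :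
    ∑ x, t2 E f (boxB t x) =
      4 * (a * Phi (Lr (fun i => t (k, i)) v) (Lr (fun i => t (k, i)) z) +
        b * Phi (Lr (fun i => t (k, i)) w) (Lr (fun i => t (k, i)) z)) := by
  have h := box_sum t D E k 1 (fun i => a * v i + b * w i) z (fun i => by rw [hD]; ring) hE
    (fun i => by rw [Lr_lin', net_lin, hnv, hnw]; ring) hnz f hf
  rw [h, Lr_lin', Phi_lin]
  ring

theorem genus_box_near2 (N : ℕ) : ∀ᶠ t in 𝓝 (t0 N), AlgebraicIndependent ℚ t →
    ∀ (ι : Type) [Fintype ι] (C : ι → Hexa), IsMesh C (boxB t) → N * 2 ≤ genus2 C (boxB t) := by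
  have hev : ∀ᶠ t in 𝓝 (t0 N), ∀ k : Fin N, ∃ v w : Fin 8 → ℝ,
      (∀ i, net (Lr (fun i => t (k, i)) v) i = 0) ∧
      (∀ i, net (Lr (fun i => t (k, i)) w) i = 0) ∧
      Phi (Lr (fun i => t (k, i)) v) (Lr (fun i => t (k, i)) w) ≠ 0 := by
    rw [eventually_all]
    intro k
    have hc : Tendsto (fun t : Fin N × Fin 8 → ℝ => fun i => t (k, i)) (𝓝 (t0 N)) (𝓝 u0) := by
      have h : Continuous (fun t : Fin N × Fin 8 → ℝ => fun i : Fin 8 => t (k, i)) := by fun_prop
      exact h.tendsto (t0 N)
    exact hc.eventually form_near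
  filter_upwards [hev] with t ht hind ι _ C hm
  choose v w hv hw hphi using ht
  have hD : ∀ k, ∃ D : Der, ∀ x : Fin N × Fin 8, D (t x) = if x.1 = k then v k x.2 else 0 :=
    fun k => exists_der t hind _
  have hE : ∀ k, ∃ E : Der, ∀ x : Fin N × Fin 8, E (t x) = if x.1 = k then w k x.2 else 0 :=
    fun k => exists_der t hind _
  choose D hD using hD
  choose E hE using hE
  set F : Fin N → Fin 2 → Der := fun k s => if s = 0 then D k else E k with hF
  set G : Fin N → Fin 2 → Der := fun k s => if s = 0 then E k else D k with hG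
  set e := (finProdFinEquiv : Fin N × Fin 2 ≃ Fin (N * 2)) with he
  set Om : Fin N → ℝ := fun k => 4 * Phi (Lr (fun i => t (k, i)) (v k)) (Lr (fun i => t (k, i)) (w k)) with hOm
  have hOm0 : ∀ k, Om k ≠ 0 := fun k => mul_ne_zero (by norm_num) (hphi k)
  refine genus_criterion hm (N * 2) (fun i => F (e.symm i).1 (e.symm i).2)
    (fun i => G (e.symm i).1 (e.symm i).2)
    (fun i => if (e.symm i).2 = 0 then Om (e.symm i).1 else - Om (e.symm i).1) ?_ ?_ ?_
  · intro i
    by_cases h : (e.symm i).2 = 0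
    · simp only [h, if_true]; exact hOm0 _
    · simp only [h, if_false]; exact neg_ne_zero.mpr (hOm0 _)
  · intro i g hg
    by_cases h : (e.symm i).2 = 0
    · have e1' : F (e.symm i).1 (e.symm i).2 = D (e.symm i).1 := by simp only [hF, h, if_true]
      simp only [e1']
      exact box_period t (D (e.symm i).1) (e.symm i).1 (v _) (fun k' j => hD _ (k', j)) (hv _) g hg
    · have e1' : F (e.symm i).1 (e.symm i).2 = E (e.symm i).1 := by simp only [hF, h, if_false]
      simp only [e1']
      exact box_period t (E (e.symm i).1) (e.symm i).1 (w _) (fun k' j => hE _ (k', j)) (hw _) g hg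
  · intro c f hf i
    set k := (e.symm i).1 with hk
    have hval : ∀ j, (∑ i, c i • F (e.symm i).1 (e.symm i).2) (t (k, j)) =
        c (e (k, 0)) * v k j + c (e (k, 1)) * w k j := by
      intro j
      rw [der_sum_apply]
      rw [← Equiv.sum_comp e (fun i => c i * F (e.symm i).1 (e.symm i).2 (t (k, j)))]
      simp only [Equiv.symm_apply_apply]
      rw [Fintype.sum_prod_type]
      simp only [Fin.sum_univ_two]
      rw [Finset.sum_eq_single k]
      · simp only [hF, if_true, one_ne_zero, if_false, hD k (k, j), hE k (k, j)]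
      · intro k' _ hk'
        simp only [hF, if_true, one_ne_zero, if_false, hD k' (k, j), hE k' (k, j), if_neg (Ne.symm hk')]
        ring
      · intro h; exact absurd (Finset.mem_univ k) h
    by_cases h : (e.symm i).2 = 0
    · have hi : e (k, 0) = i := by
        rw [← h, hk]; exact e.apply_symm_apply i
      have e1' : G k (e.symm i).2 = E k := by simp only [hG, h, if_true]
      simp only [e1']
      rw [if_pos h]
      rw [box_sum2 t _ (E k) k _ _ (v k) (w k) (w k) hval (fun k' j => hE k (k', j)) (hv k) (hw k) (hw k) f hf,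
        phi_self _ (hw k), hi]
      simp only [hOm]
      ring
    · have h1 : (e.symm i).2 = 1 := by
        have := Fin.exists_fin_two.mp ⟨(e.symm i).2, rfl⟩
        omega
      have hi : e (k, 1) = i := by
        rw [← h1, hk]; exact e.apply_symm_apply i
      have e1' : G k (e.symm i).2 = D k := by simp only [hG, h, if_false]
      simp only [e1']
      rw [if_neg h]
      rw [box_sum2 t _ (D k) k _ _ (v k) (w k) (v k) hval (fun k' j => hD k (k', j)) (hv k) (hw k) (hv k) f hf,
        phi_self _ (hv k), hi]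
      have ha := phi_anti _ _ (hw k) (hv k)
      simp only [hOm]
      linear_combination 4 * c i * ha

end Pool.Agent.Lib.MP_2847c2_co.GB
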