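import Mathlib

/-!
# Logarithmic derivatives with respect to derivations of `ℝ`
-/

namespace Pool.Agent.Lib.MP_2847c2_co.GB

/-- Derivations of the field `ℝ` (over `ℚ`, i.e. all derivations). -/
abbrev Der := Derivation ℚ ℝ ℝ

/-- The logarithmic derivative `D x / x`. -/
noncomputable def ld (D : Der) (x : ℝ) : ℝ := D x / x

theorem ld_mul (D : Der) {x y : ℝ} (hx : x ≠ 0) (hy : y ≠ 0) : ld D (x * y) = ld D x + ld D y := by
  simp only [ld, Derivation.leibniz, smul_eq_mul]
  field_simp
  ring

theorem ld_sq (D : Der) (x : ℝ) : ld D (x ^ 2) = 2 * ld D x := by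
  by_cases hx : x = 0
  · subst hx; simp [ld]
  · rw [pow_two, ld_mul D hx hx]; ring

theorem ld_neg (D : Der) (x : ℝ) : ld D (-x) = ld D x := by
  simp only [ld, map_neg, neg_div_neg_eq]

/-- The Steinberg relation. -/
theorem steinberg (D E : Der) {x y z : ℝ} (h : x + y = z) (hx : x ≠ 0) (hy : y ≠ 0) :
    (ld D x * ld E y - ld D y * ld E x) + (ld D y * ld E z - ld D z * ld E y) +
      (ld D z * ld E x - ld D x * ld E z) = 0 := by
  by_cases hz : z = 0
  · have hxy : x = -y := by linarith
    have h1 : ld D x = ld D y := by rw [hxy, ld_neg]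
    have h2 : ld E x = ld E y := by rw [hxy, ld_neg]
    rw [h1, h2]; ring
  · have hD : D x + D y = D z := by rw [← map_add, h]
    have hE : E x + E y = E z := by rw [← map_add, h]
    have a1 : x * ld D x = D x := by simp only [ld]; field_simp
    have a2 : y * ld D y = D y := by simp only [ld]; field_simp
    have a3 : z * ld D z = D z := by simp only [ld]; field_simp
    have b1 : x * ld E x = E x := by simp only [ld]; field_simp
    have b2 : y * ld E y = E y := by simp only [ld]; field_simp
    have b3 : z * ld E z = E z := by simp only [ld]; field_simp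
    have r1 : x * ld D x + y * ld D y = z * ld D z := by rw [a1, a2, a3, hD]
    have r2 : x * ld E x + y * ld E y = z * ld E z := by rw [b1, b2, b3, hE]
    subst h
    generalize ld D x = p1 at *
    generalize ld D y = p2 at *
    generalize ld D (x + y) = p3 at *
    generalize ld E x = q1 at *
    generalize ld E y = q2 at *
    generalize ld E (x + y) = q3 at *
    have key : x * ((p1 * q2 - p2 * q1) + (p2 * q3 - p3 * q2) + (p3 * q1 - p1 * q3)) = 0 := by
      linear_combination (q2 - q3) * r1 - (p2 - p3) * r2
    exact (mul_eq_zero.mp key).resolve_left hx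

end Pool.Agent.Lib.MP_2847c2_co.GB
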