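import Pool.Agent.Lib.MP_2847c2_co.GB.Cell

/-!
# The second order law for a mesh
-/

namespace Pool.Agent.Lib.MP_2847c2_co.GB

open Pool.Agent.Lib.MP_2847c2_co

/-- Summation over the cells of a mesh. ROW M1: copy the proof of `MeshLaw.law` with `term f` replaced by `T` (there `hf`/`term_rev` are used only to get
`T (rev q) = - T q` for the outer faces `q` of the cells, here this is `hrev`; `cell_sum` is `hcell`). -/
theorem mesh_sum {ι κ : Type} [Fintype ι] [Fintype κ] {C : ι → Hexa} {B : κ → Quad}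
    (hm : IsMesh C B) (T : Quad → ℝ)
    (hrev : ∀ p : ι × (Fin 6 × Fin 4), T (rev (outFace (C p.1) p.2)) = - T (outFace (C p.1) p.2))
    (hcell : ∀ i, ∑ s, T (outFace (C i) s) = 0) : ∑ k, T (B k) = 0 := by
  classical
  set q : ι × (Fin 6 × Fin 4) → Quad := fun p => outFace (C p.1) p.2 with hq
  have htot : ∑ p : ι × (Fin 6 × Fin 4), T (q p) = 0 := by
    rw [Fintype.sum_prod_type]
    exact Finset.sum_eq_zero fun i _ => hcell i
  have hsplit := Finset.sum_filter_add_sum_filter_not (Finset.univ : Finset (ι × (Fin 6 × Fin 4)))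
    (fun p => ∃ k, B k = q p) (fun p => T (q p))
  have hb : ∑ p ∈ Finset.univ.filter (fun p => ∃ k, B k = q p), T (q p) =
      ∑ k, T (B k) := by
    symm
    choose g hg using hm.bdry
    refine Finset.sum_bij (fun k _ => g k) ?_ ?_ ?_ ?_
    · intro k _
      rw [Finset.mem_filter]
      exact ⟨Finset.mem_univ _, k, (hg k).symm⟩
    · intro k _ k' _ h
      apply hm.binj
      rw [← hg k, ← hg k', h]
    · intro p hp
      rw [Finset.mem_filter] at hp
      obtain ⟨_, k, hk⟩ := hp
      refine ⟨k, Finset.mem_univ _, ?_⟩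
      apply hm.inj
      rw [hg k, hk]
    · intro k _
      simp only [hq]
      rw [hg k]
  have hi : ∑ p ∈ Finset.univ.filter (fun p => ¬ ∃ k, B k = q p), T (q p) = 0 := by
    have hex : ∀ p : ι × (Fin 6 × Fin 4), (¬ ∃ k, B k = q p) → ∃ p', q p' = rev (q p) := by
      intro p hp
      rcases hm.inner p with h | h
      · exact absurd h hp
      · exact h
    choose! g hg using hex
    have hrr : ∀ x : Quad, rev (rev x) = x := fun x => rfl
    have hmem : ∀ p, (¬ ∃ k, B k = q p) → ¬ ∃ k, B k = q (g p) := by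
      rintro p hp ⟨k, hk⟩
      apply hm.bdry_out k p
      rw [hk, hg p hp, hrr]
    refine Finset.sum_involution (fun p _ => g p) ?_ ?_ ?_ ?_
    · intro p hp
      rw [Finset.mem_filter] at hp
      rw [hg p hp.2, hrev p]
      ring
    · intro p hp h0 h1
      rw [Finset.mem_filter] at hp
      apply h0
      have e1 := hrev p
      have e2 : rev (outFace (C p.1) p.2) = q p := by
        have := hg p hp.2
        rw [h1] at this
        exact this.symm
      rw [e2] at e1
      have e3 : T (q p) = - T (q p) := e1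
      linarith
    · intro p hp
      rw [Finset.mem_filter] at hp ⊢
      exact ⟨Finset.mem_univ _, hmem p hp.2⟩
    · intro p hp
      rw [Finset.mem_filter] at hp
      apply hm.inj
      change q (g (g p)) = q p
      rw [hg (g p) (hmem p hp.2), hg p hp.2, hrr]
  rw [hb, hi, htot] at hsplit
  linarith

/-- ROW M1. `rev (a,b,c,d) = (d,c,b,a)`; `area2 d a b = area2 a d b` (`area2_swap`). -/
theorem wtD_rev (D : Der) (q : Quad) : wtD D (rev q) = - wtD D q := by
  obtain ⟨a, b, c, d⟩ := q
  simp only [wtD, rev]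
  rw [area2_swap a d b, area2_swap a d c]
  ring

private theorem m1_t2_rev (E : Der) (f : P3 × P3 → ℝ) (q : Quad) : t2 E f (rev q) = - t2 E f q := by
  obtain ⟨a, b, c, d⟩ := q
  simp only [t2, rev, e1, e2]
  rw [area2_swap a d b, area2_swap a d c]
  ring

private theorem m1_closed (h : Hexa) (f : P3 × P3 → ℝ) (t : Fin 6) :
    ∑ j, (f (e2 (outFace h (sideMark t j))) - f (e1 (outFace h (sideMark t j)))) = 0 := by
  rw [Fin.sum_univ_four]
  fin_cases t
  all_goals
    simp [sideMark, outFace, cubeFace, e1, e2]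

private theorem m1_cell (h : Hexa) (F : P3 × P3 → ℝ) :
    ∑ s, (F (e2 (outFace h s)) - F (e1 (outFace h s))) = 0 := by
  rw [Fintype.sum_prod_type, Fin.sum_univ_six]
  simp only [Fin.sum_univ_four]
  simp [outFace, cubeFace, e1, e2]
  ring

/-- **Second order law.** ROW M1: `mesh_sum` with `T = t2 E f` (`t2 E f (rev q) = - t2 E f q` for all `q` as in `wtD_rev`; `hcell` = `cell_law2` with `hf (i, s)`). -/
theorem mesh_law2 {ι κ : Type} [Fintype ι] [Fintype κ] {C : ι → Hexa} {B : κ → Quad}
    (hm : IsMesh C B) (D E : Der) (f : P3 × P3 → ℝ)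
    (hf : ∀ p : ι × (Fin 6 × Fin 4), wtD D (outFace (C p.1) p.2) =
      f (e2 (outFace (C p.1) p.2)) - f (e1 (outFace (C p.1) p.2))) :
    ∑ k, t2 E f (B k) = 0 := by
  refine mesh_sum hm (t2 E f) ?_ ?_
  · intro p
    exact m1_t2_rev E f _
  · intro i
    exact cell_law2 (hm.hexa i) D E f (fun s => hf (i, s))

/-- Exact cochains are closed and have no periods. ROW M1. `y p = f (e2 q) - f (e1 q)`. Antisymmetry: `e1 (rev q) = e2 q`, `e2 (rev q) = e1 q`. Closed: on a side the
four marks telescope: `e2` of `sideMark t (j+1)` = `e1` of `sideMark t j` (rfl after `fin_cases t`, `Fin.sum_univ_four`, `outFace`, `cubeFace`). Periods: with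
`F e = g e * f e`: `∑_k g (e1 (B k)) y (σ k) = ∑_k (F (e2 (B k)) - F (e1 (B k)))` (as `g (e1 (B k)) = g (e2 (B k))`), this is zero by `mesh_sum` with
`T q = F (e2 q) - F (e1 q)` (in a cell every directed edge occurs once as `e1` and once as `e2`: `Fintype.sum_prod_type`, `Fin.sum_univ_succ`, `ring`). -/
theorem ex_le {ι κ : Type} [Fintype ι] [Fintype κ] {C : ι → Hexa} {B : κ → Quad}
    (hm : IsMesh C B) : Ex C ≤ Cl C B := by
  rintro y ⟨f, hf⟩
  refine ⟨?_, ?_, ?_⟩
  · intro p p' h
    rw [hf p, hf p', h]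
    change f (e1 (outFace (C p.1) p.2)) - f (e2 (outFace (C p.1) p.2)) = _
    ring
  · intro i t
    simp only [hf]
    exact m1_closed (C i) f t
  · intro g σ h1 h2
    have h3 : ∑ k, (g (e2 (B k)) * f (e2 (B k)) - g (e1 (B k)) * f (e1 (B k))) = 0 := by
      refine mesh_sum hm (fun q => g (e2 q) * f (e2 q) - g (e1 q) * f (e1 q)) ?_ ?_
      · intro p
        change g (e1 _) * f (e1 _) - g (e2 _) * f (e2 _) = _
        ring
      · intro i
        exact m1_cell (C i) (fun e => g e * f e)
    rw [← h3]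
    refine Finset.sum_congr rfl (fun k _ => ?_)
    rw [hf (σ k), h2 k, ← h1 k]
    ring

/-- The cochain of a derivation is closed; it belongs to `Cl` if its boundary periods vanish. ROW M1: `wtD_rev`, `cell_closed`, `hper` (rewrite with `outFace .. = B k`). -/
theorem wtD_mem {ι κ : Type} [Fintype ι] [Fintype κ] {C : ι → Hexa} {B : κ → Quad}
    (hm : IsMesh C B) (D : Der)
    (hper : ∀ g : P3 × P3 → ℝ, (∀ k, g (e1 (B k)) = g (e2 (B k))) →
      ∑ k, g (e1 (B k)) * wtD D (B k) = 0) :
    (fun p : ι × (Fin 6 × Fin 4) => wtD D (outFace (C p.1) p.2)) ∈ Cl C B := by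
  refine ⟨?_, ?_, ?_⟩
  · intro p p' h
    change wtD D (outFace (C p'.1) p'.2) = - wtD D (outFace (C p.1) p.2)
    rw [h, wtD_rev]
  · intro i t
    exact cell_closed (hm.hexa i) D t
  · intro g σ h1 h2
    rw [← hper g h1]
    refine Finset.sum_congr rfl (fun k _ => ?_)
    change g (e1 (B k)) * wtD D (outFace (C (σ k).1) (σ k).2) = _
    rw [h2 k]

end Pool.Agent.Lib.MP_2847c2_co.GB
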