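import Pool.Agent.Lib.MP_2847c2_co.MeshLaw
import Pool.Agent.Lib.MP_2847c2_co.GB.Ld

/-!
# Sides of sheets: cochains, the genus
-/

namespace Pool.Agent.Lib.MP_2847c2_co.GB

open Pool.Agent.Lib.MP_2847c2_co

/-- The directed edge `(a, b)` of the quadrilateral `(a, b, c, d)`. -/
def e1 (q : Quad) : P3 × P3 := (q.1, q.2.1)

/-- The directed edge `(d, c)` of the quadrilateral `(a, b, c, d)`. -/
def e2 (q : Quad) : P3 × P3 := (q.2.2.2, q.2.2.1)

/-- The four marked faces `(a, b, c, d)` of the cube such that the edge `(b, c)` lies in the face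
number `t` (and `a`, `d` in the opposite face): they are the edges of the side of a sheet which is
parallel to the face `t`, inside the cube. -/
def sideMark : Fin 6 → Fin 4 → Fin 6 × Fin 4 :=
  ![![(2, 2), (5, 2), (3, 3), (4, 3)], ![(4, 1), (3, 1), (5, 0), (2, 0)],
    ![(4, 2), (1, 2), (5, 3), (0, 3)], ![(0, 1), (5, 1), (1, 0), (4, 0)],
    ![(0, 2), (3, 2), (1, 3), (2, 3)], ![(2, 1), (1, 1), (3, 0), (0, 0)]]

/-- The closed real `1`-cochains on the surface formed by the sides of the sheets of the mesh `C`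
(vertices: directed edges of the mesh; edges: faces with a marked vertex, joining `(a, b)` and
`(d, c)`; `2`-cells: six for each cell) whose periods along all boundary circles (the sides of the dual
curves of the boundary `B`) vanish. -/
def Cl {ι κ : Type} [Fintype κ] (C : ι → Hexa) (B : κ → Quad) :
    Submodule ℝ (ι × (Fin 6 × Fin 4) → ℝ) where
  carrier := {y |
    (∀ p p', outFace (C p'.1) p'.2 = rev (outFace (C p.1) p.2) → y p' = - y p) ∧
    (∀ i t, ∑ j, y (i, sideMark t j) = 0) ∧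
    (∀ (g : P3 × P3 → ℝ) (σ : κ → ι × (Fin 6 × Fin 4)), (∀ k, g (e1 (B k)) = g (e2 (B k))) →
      (∀ k, outFace (C (σ k).1) (σ k).2 = B k) → ∑ k, g (e1 (B k)) * y (σ k) = 0)}
  zero_mem' := ⟨fun _ _ _ => by simp, fun _ _ => by simp, fun _ _ _ _ => by simp⟩
  add_mem' := by
    rintro x y ⟨hx1, hx2, hx3⟩ ⟨hy1, hy2, hy3⟩
    refine ⟨fun p p' h => ?_, fun i t => ?_, fun g σ h1 h2 => ?_⟩
    · simp only [Pi.add_apply, hx1 p p' h, hy1 p p' h]; ring
    · simp only [Pi.add_apply, Finset.sum_add_distrib, hx2, hy2, add_zero]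
    · simp only [Pi.add_apply, mul_add, Finset.sum_add_distrib, hx3 g σ h1 h2, hy3 g σ h1 h2,
        add_zero]
  smul_mem' := by
    rintro c x ⟨hx1, hx2, hx3⟩
    refine ⟨fun p p' h => ?_, fun i t => ?_, fun g σ h1 h2 => ?_⟩
    · simp only [Pi.smul_apply, hx1 p p' h, smul_eq_mul]; ring
    · simp only [Pi.smul_apply, ← Finset.smul_sum, hx2, smul_zero]
    · have e : ∀ k, g (e1 (B k)) * (c • x) (σ k) = c * (g (e1 (B k)) * x (σ k)) := by
        intro k; simp only [Pi.smul_apply, smul_eq_mul]; ring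
      simp only [e, ← Finset.mul_sum, hx3 g σ h1 h2, mul_zero]

/-- The exact `1`-cochains. -/
def Ex {ι : Type} (C : ι → Hexa) : Submodule ℝ (ι × (Fin 6 × Fin 4) → ℝ) where
  carrier := {y | ∃ f : P3 × P3 → ℝ, ∀ p, y p = f (e2 (outFace (C p.1) p.2)) -
    f (e1 (outFace (C p.1) p.2))}
  zero_mem' := ⟨fun _ => 0, fun _ => by simp⟩
  add_mem' := by
    rintro x y ⟨f, hf⟩ ⟨g, hg⟩
    exact ⟨fun e => f e + g e, fun p => by simp only [Pi.add_apply, hf, hg]; ring⟩
  smul_mem' := by
    rintro c x ⟨f, hf⟩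
    exact ⟨fun e => c * f e, fun p => by simp only [Pi.smul_apply, hf, smul_eq_mul]; ring⟩

/-- Twice the total genus of the sides of the sheets (all boundary circles capped by discs): the
dimension of the space of closed cochains without boundary periods modulo exact ones. -/
noncomputable def genus2 {ι κ : Type} [Fintype κ] (C : ι → Hexa) (B : κ → Quad) : ℕ :=
  Module.finrank ℝ (Cl C B) - Module.finrank ℝ (Ex C)

/-- The `D`-logarithmic derivative of the sheet weight of a quadrilateral. -/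
noncomputable def wtD (D : Der) (q : Quad) : ℝ :=
  ld D (area2 q.1 q.2.2.2 q.2.2.1) - ld D (area2 q.1 q.2.2.2 q.2.1)

/-- The second order term of a quadrilateral. -/
noncomputable def t2 (E : Der) (f : P3 × P3 → ℝ) (q : Quad) : ℝ :=
  f (e1 q) * ld E (area2 q.1 q.2.2.2 q.2.2.1) - f (e2 q) * ld E (area2 q.1 q.2.2.2 q.2.1)

end Pool.Agent.Lib.MP_2847c2_co.GB
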